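import Pool.Agent.helper14.RW.Eng

/-!
Generated: a program with a row of constants, and its compiled form.
-/

namespace Pool.Agent.helper31.A2.Cert.F1P

open Pool.Agent.helper31.IA (Z Op)
open Pool.Agent.helper31.IC (Ops runG TD CovD covD_split)
open Pool.Agent.helper14.RW

set_option maxRecDepth 100000

/-- a row: the numbers times `2^40` -/
structure Row where
  aS : Nat
  cD : Nat
  Ma : Nat
  Mb : Nat
  RH1 : Nat
  RH : Nat
  RHq : Nat
  exK : Nat
  x0 : Nat
  xa : Nat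
  xb : Nat
  Lam0 : Nat
  Y0 : Nat
  M1 : Nat
  ys : Nat
  a0 : Nat
  tha : Nat
deriving DecidableEq

def common (r : Row) : List Op := [
  .const ⟨1099511627776, 0, 0, 0⟩,
  .mul 1 1,
  .mul 4 4,
  .add 0 2,
  .inv 0,
  .sub 4 2,
  .mul 0 1,
  .mul 9 2,
  .scale ⟨2199023255552, 0, 0, 0⟩ 0,
  .mul 10 2,
  .mul 11 1,
  .mul 11 12,
  .mul 0 0,
  .mul 1 13,
  .mul 4 12,
  .mul 0 0,
  .mul 1 6,
  .mul 0 17,
  .scale ⟨549755813888, 0, 0, 0⟩ 8,
  .neg 9,
  .exp 0,
  .add 0 20,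
  .log 0,
  .add 4 0,
  .mul 24 0,
  .mul 1 1,
  .mul 15 15,
  .add 1 0,
  .log 0,
  .scale ⟨549755813888, 0, 0, 0⟩ 0,
  .exp 0,
  .mul 31 0,
  .scale ⟨274877906944, 0, 0, 0⟩ 5,
  .add 7 0,
  .log 0,
  .scale ⟨549755813888, 0, 0, 0⟩ 0,
  .exp 0,
  .mul 37 0,
  .const ⟨4398046511104, 0, 0, 0⟩,
  .add 29 0,
  .inv 0,
  .scale ⟨r.aS, 0, 0, 0⟩ 0,
  .scale ⟨4398046511104, 0, 0, 0⟩ 0,
  .mul 44 0,
  .mul 31 42,
  .mul 45 13,
  .scale ⟨r.cD, 0, 0, 0⟩ 44,
  .add 1 0,
  .exp 0,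
  .mul 0 0,
  .neg 2,
  .const ⟨61083746304, 0, 0, 0⟩,
  .add 1 0,
  .pos 0,
  .scale ⟨1759219023872, 0, 0, 0⟩ 40,
  .scale ⟨2748779069440, 0, 0, 0⟩ 43,
  .add 1 0,
  .mul 0 54,
  .scale ⟨274877906944, 0, 0, 0⟩ 41,
  .sub 57 0,
  .mul 13 27,
  .scale ⟨549755813888, 0, 0, 0⟩ 0,
  .scale ⟨157073539072, 0, 0, 0⟩ 43,
  .add 1 0,
  .mul 14 0,
  .add 26 0,
  .mul 56 0,
  .scale ⟨1649267441664, 0, 0, 0⟩ 16,
  .const ⟨1649267441664, 0, 0, 0⟩,
  .sub 1 0,
  .scale ⟨824633720832, 0, 0, 0⟩ 53,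
  .add 1 0,
  .mul 60 69,
  .add 1 0,
  .add 0 16,
  .mul 62 0,
  .add 9 0,
  .mul 65 67,
  .mul 0 75,
  .scale ⟨137438953472, 0, 0, 0⟩ 0,
  .mul 61 0,
  .add 4 0,
  .mul 0 81,
  .const ⟨3298534883328, 0, 0, 0⟩,
  .sub 0 16,
  .mul 25 0,
  .mul 78 78,
  .scale ⟨549755813888, 0, 0, 0⟩ 0,
  .sub 2 0,
  .mul 79 79,
  .mul 0 40,
  .sub 2 0,
  .sub 0 34,
  .mul 33 5,
  .sub 26 0,
  .add 0 37,
  .mul 41 93,
  .scale ⟨1121502363648, 0, 0, 0⟩ 0,
  .add 96 0,
  .mul 53 48,
  .scale ⟨2199023255552, 0, 0, 0⟩ 0,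
  .add 2 0,
  .mul 92 0,
  .mul 88 45,
  .add 1 0,
  .mul 12 90,
  .mul 1 1,
  .add 20 0,
  .scale ⟨1098437885952, 0, 0, 0⟩ 15,
  .mul 3 3,
  .add 2 0,
  .inv 0,
  .mul 3 0,
  .neg 0,
  .add 0 112,
  .pos 0,
  .mul 25 69,
  .scale ⟨2199023255552, 0, 0, 0⟩ 0,
  .sub 115 0,
  .sub 0 35,
  .mul 36 36,
  .sub 1 0,
  .mul 0 0,
  .pos 1,
  .inv 1,
  .mul 112 112,
  .mul 0 121,
  .mul 20 125,
  .scale ⟨1282763915264, 0, 0, 0⟩ 109,
  .mul 124 124,
  .scale ⟨35184372088832, 0, 0, 0⟩ 0,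
  .add 2 0,
  .const ⟨r.Ma, 0, 0, 0⟩,
  .const ⟨r.Mb, 0, 0, 0⟩,
  .scale ⟨1090049277952, 0, 0, 0⟩ 19,
  .mul 0 119,
  .mul 0 12,
  .scale ⟨2199023255552, 0, 0, 0⟩ 9,
  .add 11 0,
  .sub 135 7,
  .mul 1 7,
  .mul 0 136,
  .sub 2 0,
  .scale ⟨3298534883328, 0, 0, 0⟩ 138,
  .mul 139 11,
  .scale ⟨2199023255552, 0, 0, 0⟩ 0,
  .add 2 0,
  .mul 0 10,
  .sub 5 0,
  .mul 2 133,
  .scale ⟨10995116277760, 0, 0, 0⟩ 0,
  .sub 2 0,
  .pos 0,
  .mul 3 15,
  .neg 0,
  .exp 0,
  .sub 151 108,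
  .pos 0,
  .inv 0,
  .scale ⟨549755813888, 0, 0, 0⟩ 110,
  .add 154 0,
  .mul 112 112,
  .mul 0 3,
  .scale ⟨366504574976, 0, 0, 0⟩ 0,
  .add 3 0,
  .mul 8 116,
  .scale ⟨549755813888, 0, 0, 0⟩ 0,
  .add 161 0,
  .mul 2 2,
  .sub 163 3,
  .inv 0,
  .mul 2 0,
  .scale ⟨366504574976, 0, 0, 0⟩ 0,
  .add 5 0,
  .mul 88 157,
  .mul 0 39,
  .add 1 0,
  .mul 128 12,
  .add 1 0,
  .mul 4 44,
  .mul 14 6,
  .add 1 0,
  .mul 95 46,
  .add 0 96,
  .mul 136 19,
  .add 1 0,
  .mul 172 0,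
  .neg 8,
  .const ⟨r.cD, 0, 0, 0⟩,
  .add 1 0,
  .pos 0,
  .neg 8,
  .add 0 2,
  .pos 0,
  .scale ⟨1165482786816, 0, 0, 0⟩ 137,
  .scale ⟨2199023255552, 0, 0, 0⟩ 14,
  .add 0 12,
  .mul 188 0,
  .add 9 0,
  .mul 4 0,
  .mul 0 179,
  .mul 0 72,
  .sub 194 0,
  .pos 0,
  .scale ⟨2199023255552, 0, 0, 0⟩ 1,
  .neg 0,
  .const ⟨1085552984064, 0, 0, 0⟩,
  .add 1 0,
  .sub 93 199,
  .scale ⟨549755813888, 0, 0, 0⟩ 0,
  .add 0 201,
  .add 0 121,
  .add 0 10,
  .mul 0 0,
  .const ⟨r.RH1, 0, 0, 0⟩,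
  .add 125 206,
  .mul 0 0,
  .sub 2 0,
  .pos 0,
  .const ⟨r.RH, 0, 0, 0⟩,
  .sub 0 116,
  .sub 0 19,
  .sub 0 7,
  .pos 0,
  .mul 93 14,
  .scale ⟨10995116277760, 0, 0, 0⟩ 0,
  .sub 0 5,
  .pos 0,
  .scale ⟨989560045568, 0, 0, 0⟩ 2,
  .scale ⟨r.RHq, 0, 0, 0⟩ 173,
  .sub 1 0,
  .pos 0,
  .scale ⟨11941082824704, 0, 0, 0⟩ 5,
  .sub 0 10,
  .sub 0 16,
  .pos 0,
  .pos 105,
  .mul 102 27,
  .inv 0,
  .mul 32 0,
  .scale ⟨r.exK, 0, 0, 0⟩ 0,
  .sub 115 0,
  .const ⟨r.x0, 0, 0, 0⟩,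
  .sub 1 0,
  .pos 0,
  .const ⟨r.xa, 0, 0, 0⟩,
  .sub 119 0,
  .pos 0,
  .const ⟨r.xb, 0, 0, 0⟩,
  .sub 5 0,
  .pos 0,
  .sub 142 41,
  .pos 0,
  .sub 234 38,
  .mul 115 0,
  .scale ⟨r.Lam0, 0, 0, 0⟩ 0,
  .sub 0 143,
  .sub 0 46,
  .pos 0,
  .mul 47 227,
  .add 116 0,
  .neg 0,
  .const ⟨r.Y0, 0, 0, 0⟩,
  .add 1 0,
  .pos 0,
  .add 17 244,
  .scale ⟨1090049277952, 0, 0, 0⟩ 0,
  .mul 0 234,
  .mul 0 127,
  .mul 0 49,
  .const ⟨r.M1, 0, 0, 0⟩,
  .const ⟨r.ys, 0, 0, 0⟩,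
  .sub 0 10,
  .pos 0,
  .sub 1 242,
  .pos 0,
  .scale ⟨2199023255552, 0, 0, 0⟩ 13,
  .add 119 0,
  .mul 0 5,
  .mul 0 255,
  .sub 121 0,
  .mul 257 8,
  .scale ⟨2199023255552, 0, 0, 0⟩ 0,
  .add 120 0,
  .mul 0 12,
  .sub 4 0,
  .mul 2 251,
  .scale ⟨12094627905536, 0, 0, 0⟩ 0,
  .sub 2 0,
  .pos 0,
  .mul 3 17,
  .neg 0,
  .exp 0,
  .mul 29 19,
  .add 0 30,
  .mul 78 21,
  .add 0 79,
  .scale ⟨274877906944, 0, 0, 0⟩ 264,
  .add 0 274,
  .mul 2 0,
  .scale ⟨549755813888, 0, 0, 0⟩ 5,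
  .sub 277 0,
  .pos 0,
  .inv 0,
  .add 2 279,
  .mul 0 1,
  .mul 187 268,
  .scale ⟨2199023255552, 0, 0, 0⟩ 276,
  .add 1 0,
  .mul 2 0,
  .add 179 0,
  .mul 4 4,
  .add 181 0,
  .mul 275 0,
  .sub 3 289,
  .scale ⟨549755813888, 0, 0, 0⟩ 0,
  .add 0 291,
  .mul 16 13,
  .mul 12 24,
  .scale ⟨r.a0, 0, 0, 0⟩ 0,
  .add 3 6,
  .add 0 103,
  .mul 2 0,
  .add 5 0,
  .neg 0,
  .const ⟨r.tha, 0, 0, 0⟩,
  .add 1 0,
  .pos 0]

def chk {α : Type} (cst : Z → α) (add sub mul : α → α → α) (scale : Z → α → α)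
    (neg inv exp log : α → α) (ok : α → Bool) (isPos : Nat → α → Bool) (_isLt : α → Nat → Bool) :
    Row → List α → Bool
  | ⟨aS, cD, Ma, Mb, RH1, RH, RHq, exK, x0, xa, xb, Lam0, Y0, M1, ys, a0, tha⟩, [u0, u1, u2] =>
  let v0 := cst ⟨1099511627776, 0, 0, 0⟩; ok v0 && (
  let v1 := mul u0 u0; ok v1 && (
  let v2 := mul u2 u2; ok v2 && (
  let v3 := add v2 v0; ok v3 && (
  let v4 := inv v3; ok v4 && (
  let v5 := sub v0 v2; ok v5 && (
  let v6 := mul v5 v4; ok v6 && (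
  let v7 := mul u2 v4; ok v7 && (
  let v8 := scale ⟨2199023255552, 0, 0, 0⟩ v7; ok v8 && (
  let v9 := mul u1 v6; ok v9 && (
  let v10 := mul u1 v8; ok v10 && (
  let v11 := mul u0 u1; ok v11 && (
  let v12 := mul v11 v11; ok v12 && (
  let v13 := mul v11 u0; ok v13 && (
  let v14 := mul v9 v1; ok v14 && (
  let v15 := mul v14 v14; ok v15 && (
  let v16 := mul v14 v9; ok v16 && (
  let v17 := mul v16 u0; ok v17 && (
  let v18 := scale ⟨549755813888, 0, 0, 0⟩ v9; ok v18 && (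
  let v19 := neg v9; ok v19 && (
  let v20 := exp v19; ok v20 && (
  let v21 := add v20 v0; ok v21 && (
  let v22 := log v21; ok v22 && (
  let v23 := add v18 v22; ok v23 && (
  let v24 := mul u0 v23; ok v24 && (
  let v25 := mul v23 v23; ok v25 && (
  let v26 := mul v10 v10; ok v26 && (
  let v27 := add v25 v26; ok v27 && (
  let v28 := log v27; ok v28 && (
  let v29 := scale ⟨549755813888, 0, 0, 0⟩ v28; ok v29 && (
  let v30 := exp v29; ok v30 && (
  let v31 := mul u0 v30; ok v31 && (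
  let v32 := scale ⟨274877906944, 0, 0, 0⟩ v26; ok v32 && (
  let v33 := add v25 v32; ok v33 && (
  let v34 := log v33; ok v34 && (
  let v35 := scale ⟨549755813888, 0, 0, 0⟩ v34; ok v35 && (
  let v36 := exp v35; ok v36 && (
  let v37 := mul u0 v36; ok v37 && (
  let v38 := cst ⟨4398046511104, 0, 0, 0⟩; ok v38 && (
  let v39 := add v9 v38; ok v39 && (
  let v40 := inv v39; ok v40 && (
  let v41 := scale ⟨aS, 0, 0, 0⟩ v40; ok v41 && (
  let v42 := scale ⟨4398046511104, 0, 0, 0⟩ v41; ok v42 && (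
  let v43 := mul u1 v42; ok v43 && (
  let v44 := mul v12 v1; ok v44 && (
  let v45 := mul u0 v31; ok v45 && (
  let v46 := scale ⟨cD, 0, 0, 0⟩ v1; ok v46 && (
  let v47 := add v45 v46; ok v47 && (
  let v48 := exp v47; ok v48 && (
  let v49 := mul v48 v48; ok v49 && (
  let v50 := neg v47; ok v50 && (
  let v51 := cst ⟨61083746304, 0, 0, 0⟩; ok v51 && (
  let v52 := add v50 v51; ok v52 && (
  isPos 3 v52 && (
  let v53 := scale ⟨1759219023872, 0, 0, 0⟩ v12; ok v53 && (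
  let v54 := scale ⟨2748779069440, 0, 0, 0⟩ v10; ok v54 && (
  let v55 := add v53 v54; ok v55 && (
  let v56 := mul v55 v1; ok v56 && (
  let v57 := scale ⟨274877906944, 0, 0, 0⟩ v15; ok v57 && (
  let v58 := sub v0 v57; ok v58 && (
  let v59 := mul v45 v31; ok v59 && (
  let v60 := scale ⟨549755813888, 0, 0, 0⟩ v59; ok v60 && (
  let v61 := scale ⟨157073539072, 0, 0, 0⟩ v17; ok v61 && (
  let v62 := add v60 v61; ok v62 && (
  let v63 := mul v48 v62; ok v63 && (
  let v64 := add v37 v63; ok v64 && (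
  let v65 := mul v8 v64; ok v65 && (
  let v66 := scale ⟨1649267441664, 0, 0, 0⟩ v49; ok v66 && (
  let v67 := cst ⟨1649267441664, 0, 0, 0⟩; ok v67 && (
  let v68 := sub v66 v67; ok v68 && (
  let v69 := scale ⟨824633720832, 0, 0, 0⟩ v15; ok v69 && (
  let v70 := add v68 v69; ok v70 && (
  let v71 := mul v10 v1; ok v71 && (
  let v72 := add v70 v71; ok v72 && (
  let v73 := add v72 v56; ok v73 && (
  let v74 := mul v11 v73; ok v74 && (
  let v75 := add v65 v74; ok v75 && (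
  let v76 := mul v10 v8; ok v76 && (
  let v77 := mul v76 v1; ok v77 && (
  let v78 := scale ⟨137438953472, 0, 0, 0⟩ v77; ok v78 && (
  let v79 := mul v17 v78; ok v79 && (
  let v80 := add v75 v79; ok v80 && (
  let v81 := mul v80 u0; ok v81 && (
  let v82 := cst ⟨3298534883328, 0, 0, 0⟩; ok v82 && (
  let v83 := sub v82 v66; ok v83 && (
  let v84 := mul v58 v83; ok v84 && (
  let v85 := mul v6 v6; ok v85 && (
  let v86 := scale ⟨549755813888, 0, 0, 0⟩ v85; ok v86 && (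
  let v87 := sub v84 v86; ok v87 && (
  let v88 := mul v8 v8; ok v88 && (
  let v89 := mul v88 v48; ok v89 && (
  let v90 := sub v87 v89; ok v90 && (
  let v91 := sub v90 v56; ok v91 && (
  let v92 := mul v58 v86; ok v92 && (
  let v93 := sub v66 v92; ok v93 && (
  let v94 := add v93 v56; ok v94 && (
  let v95 := mul v53 v1; ok v95 && (
  let v96 := scale ⟨1121502363648, 0, 0, 0⟩ v95; ok v96 && (
  let v97 := add v0 v96; ok v97 && (
  let v98 := mul v44 v49; ok v98 && (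
  let v99 := scale ⟨2199023255552, 0, 0, 0⟩ v98; ok v99 && (
  let v100 := add v97 v99; ok v100 && (
  let v101 := mul v8 v100; ok v101 && (
  let v102 := mul v13 v56; ok v102 && (
  let v103 := add v101 v102; ok v103 && (
  let v104 := mul v91 v13; ok v104 && (
  let v105 := mul v103 v103; ok v105 && (
  let v106 := add v85 v105; ok v106 && (
  let v107 := scale ⟨1098437885952, 0, 0, 0⟩ v91; ok v107 && (
  let v108 := mul v104 v104; ok v108 && (
  let v109 := add v106 v108; ok v109 && (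
  let v110 := inv v109; ok v110 && (
  let v111 := mul v107 v110; ok v111 && (
  let v112 := neg v111; ok v112 && (
  let v113 := add v112 v0; ok v113 && (
  isPos 3 v113 && (
  let v114 := mul v88 v44; ok v114 && (
  let v115 := scale ⟨2199023255552, 0, 0, 0⟩ v114; ok v115 && (
  let v116 := sub v0 v115; ok v116 && (
  let v117 := sub v116 v81; ok v117 && (
  let v118 := mul v81 v81; ok v118 && (
  let v119 := sub v117 v118; ok v119 && (
  let v120 := mul v119 v119; ok v120 && (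
  isPos 3 v119 && (
  let v121 := inv v119; ok v121 && (
  let v122 := mul v9 v9; ok v122 && (
  let v123 := mul v122 v1; ok v123 && (
  let v124 := mul v103 u1; ok v124 && (
  let v125 := scale ⟨1282763915264, 0, 0, 0⟩ v15; ok v125 && (
  let v126 := mul v1 v1; ok v126 && (
  let v127 := scale ⟨35184372088832, 0, 0, 0⟩ v126; ok v127 && (
  let v128 := add v125 v127; ok v128 && (
  let v129 := cst ⟨Ma, 0, 0, 0⟩; ok v129 && (
  let v130 := cst ⟨Mb, 0, 0, 0⟩; ok v130 && (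
  let v131 := scale ⟨1090049277952, 0, 0, 0⟩ v111; ok v131 && (
  let v132 := mul v131 v12; ok v132 && (
  let v133 := mul v132 v120; ok v133 && (
  let v134 := scale ⟨2199023255552, 0, 0, 0⟩ v124; ok v134 && (
  let v135 := add v123 v134; ok v135 && (
  let v136 := sub v0 v128; ok v136 && (
  let v137 := mul v135 v129; ok v137 && (
  let v138 := mul v137 v1; ok v138 && (
  let v139 := sub v136 v138; ok v139 && (
  let v140 := scale ⟨3298534883328, 0, 0, 0⟩ v1; ok v140 && (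
  let v141 := mul v1 v129; ok v141 && (
  let v142 := scale ⟨2199023255552, 0, 0, 0⟩ v141; ok v142 && (
  let v143 := add v140 v142; ok v143 && (
  let v144 := mul v143 v133; ok v144 && (
  let v145 := sub v139 v144; ok v145 && (
  let v146 := mul v143 v12; ok v146 && (
  let v147 := scale ⟨10995116277760, 0, 0, 0⟩ v146; ok v147 && (
  let v148 := sub v145 v147; ok v148 && (
  isPos 3 v148 && (
  let v149 := mul v145 v133; ok v149 && (
  let v150 := neg v149; ok v150 && (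
  let v151 := exp v150; ok v151 && (
  let v152 := sub v0 v43; ok v152 && (
  isPos 3 v152 && (
  let v153 := inv v152; ok v153 && (
  let v154 := scale ⟨549755813888, 0, 0, 0⟩ v43; ok v154 && (
  let v155 := add v0 v154; ok v155 && (
  let v156 := mul v43 v43; ok v156 && (
  let v157 := mul v156 v153; ok v157 && (
  let v158 := scale ⟨366504574976, 0, 0, 0⟩ v157; ok v158 && (
  let v159 := add v155 v158; ok v159 && (
  let v160 := mul v151 v43; ok v160 && (
  let v161 := scale ⟨549755813888, 0, 0, 0⟩ v160; ok v161 && (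
  let v162 := add v0 v161; ok v162 && (
  let v163 := mul v160 v160; ok v163 && (
  let v164 := sub v0 v160; ok v164 && (
  let v165 := inv v164; ok v165 && (
  let v166 := mul v163 v165; ok v166 && (
  let v167 := scale ⟨366504574976, 0, 0, 0⟩ v166; ok v167 && (
  let v168 := add v162 v167; ok v168 && (
  let v169 := mul v80 v11; ok v169 && (
  let v170 := mul v169 v130; ok v170 && (
  let v171 := add v169 v170; ok v171 && (
  let v172 := mul v43 v159; ok v172 && (
  let v173 := add v171 v172; ok v173 && (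
  let v174 := mul v169 v129; ok v174 && (
  let v175 := mul v160 v168; ok v175 && (
  let v176 := add v174 v175; ok v176 && (
  let v177 := mul v81 v130; ok v177 && (
  let v178 := add v177 v81; ok v178 && (
  let v179 := mul v42 v159; ok v179 && (
  let v180 := add v178 v179; ok v180 && (
  let v181 := mul v8 v180; ok v181 && (
  let v182 := neg v173; ok v182 && (
  let v183 := cst ⟨cD, 0, 0, 0⟩; ok v183 && (
  let v184 := add v182 v183; ok v184 && (
  isPos 3 v184 && (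
  let v185 := neg v176; ok v185 && (
  let v186 := add v185 v183; ok v186 && (
  isPos 3 v186 && (
  let v187 := scale ⟨1165482786816, 0, 0, 0⟩ v49; ok v187 && (
  let v188 := scale ⟨2199023255552, 0, 0, 0⟩ v173; ok v188 && (
  let v189 := add v188 v176; ok v189 && (
  let v190 := mul v1 v189; ok v190 && (
  let v191 := add v181 v190; ok v191 && (
  let v192 := mul v187 v191; ok v192 && (
  let v193 := mul v192 v13; ok v193 && (
  let v194 := mul v193 v121; ok v194 && (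
  let v195 := sub v0 v194; ok v195 && (
  isPos 3 v195 && (
  let v196 := scale ⟨2199023255552, 0, 0, 0⟩ v194; ok v196 && (
  let v197 := neg v196; ok v197 && (
  let v198 := cst ⟨1085552984064, 0, 0, 0⟩; ok v198 && (
  let v199 := add v197 v198; ok v199 && (
  let v200 := sub v106 v0; ok v200 && (
  let v201 := scale ⟨549755813888, 0, 0, 0⟩ v200; ok v201 && (
  let v202 := add v201 v0; ok v202 && (
  let v203 := add v202 v81; ok v203 && (
  let v204 := add v203 v193; ok v204 && (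
  let v205 := mul v204 v204; ok v205 && (
  let v206 := cst ⟨RH1, 0, 0, 0⟩; ok v206 && (
  let v207 := add v81 v0; ok v207 && (
  let v208 := mul v207 v207; ok v208 && (
  let v209 := sub v206 v208; ok v209 && (
  isPos 3 v209 && (
  let v210 := cst ⟨RH, 0, 0, 0⟩; ok v210 && (
  let v211 := sub v210 v94; ok v211 && (
  let v212 := sub v211 v192; ok v212 && (
  let v213 := sub v212 v205; ok v213 && (
  isPos 3 v213 && (
  let v214 := mul v120 v199; ok v214 && (
  let v215 := scale ⟨10995116277760, 0, 0, 0⟩ v214; ok v215 && (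
  let v216 := sub v215 v210; ok v216 && (
  isPos 3 v216 && (
  let v217 := scale ⟨989560045568, 0, 0, 0⟩ v214; ok v217 && (
  let v218 := scale ⟨RHq, 0, 0, 0⟩ v44; ok v218 && (
  let v219 := sub v217 v218; ok v219 && (
  isPos 3 v219 && (
  let v220 := scale ⟨11941082824704, 0, 0, 0⟩ v214; ok v220 && (
  let v221 := sub v220 v210; ok v221 && (
  let v222 := sub v221 v205; ok v222 && (
  isPos 3 v222 && (
  isPos 3 v117 && (
  let v223 := mul v120 v195; ok v223 && (
  let v224 := inv v223; ok v224 && (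
  let v225 := mul v192 v224; ok v225 && (
  let v226 := scale ⟨exK, 0, 0, 0⟩ v225; ok v226 && (
  let v227 := sub v111 v226; ok v227 && (
  let v228 := cst ⟨x0, 0, 0, 0⟩; ok v228 && (
  let v229 := sub v227 v228; ok v229 && (
  isPos 3 v229 && (
  let v230 := cst ⟨xa, 0, 0, 0⟩; ok v230 && (
  let v231 := sub v111 v230; ok v231 && (
  isPos 3 v231 && (
  let v232 := cst ⟨xb, 0, 0, 0⟩; ok v232 && (
  let v233 := sub v227 v232; ok v233 && (
  isPos 3 v233 && (
  let v234 := sub v91 v192; ok v234 && (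
  isPos 3 v234 && (
  let v235 := sub v0 v196; ok v235 && (
  let v236 := mul v120 v235; ok v236 && (
  let v237 := scale ⟨Lam0, 0, 0, 0⟩ v236; ok v237 && (
  let v238 := sub v237 v94; ok v238 && (
  let v239 := sub v238 v192; ok v239 && (
  isPos 3 v239 && (
  let v240 := mul v192 v12; ok v240 && (
  let v241 := add v124 v240; ok v241 && (
  let v242 := neg v241; ok v242 && (
  let v243 := cst ⟨Y0, 0, 0, 0⟩; ok v243 && (
  let v244 := add v242 v243; ok v244 && (
  isPos 3 v244 && (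
  let v245 := add v227 v0; ok v245 && (
  let v246 := scale ⟨1090049277952, 0, 0, 0⟩ v245; ok v246 && (
  let v247 := mul v246 v12; ok v247 && (
  let v248 := mul v247 v120; ok v248 && (
  let v249 := mul v248 v199; ok v249 && (
  let v250 := cst ⟨M1, 0, 0, 0⟩; ok v250 && (
  let v251 := cst ⟨ys, 0, 0, 0⟩; ok v251 && (
  let v252 := sub v251 v241; ok v252 && (
  isPos 3 v252 && (
  let v253 := sub v251 v10; ok v253 && (
  isPos 3 v253 && (
  let v254 := scale ⟨2199023255552, 0, 0, 0⟩ v240; ok v254 && (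
  let v255 := add v135 v254; ok v255 && (
  let v256 := mul v255 v250; ok v256 && (
  let v257 := mul v256 v1; ok v257 && (
  let v258 := sub v136 v257; ok v258 && (
  let v259 := mul v1 v250; ok v259 && (
  let v260 := scale ⟨2199023255552, 0, 0, 0⟩ v259; ok v260 && (
  let v261 := add v140 v260; ok v261 && (
  let v262 := mul v261 v249; ok v262 && (
  let v263 := sub v258 v262; ok v263 && (
  let v264 := mul v261 v12; ok v264 && (
  let v265 := scale ⟨12094627905536, 0, 0, 0⟩ v264; ok v265 && (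
  let v266 := sub v263 v265; ok v266 && (
  isPos 3 v266 && (
  let v267 := mul v263 v249; ok v267 && (
  let v268 := neg v267; ok v268 && (
  let v269 := exp v268; ok v269 && (
  let v270 := mul v240 v250; ok v270 && (
  let v271 := add v270 v240; ok v271 && (
  let v272 := mul v193 v250; ok v272 && (
  let v273 := add v272 v193; ok v273 && (
  let v274 := scale ⟨274877906944, 0, 0, 0⟩ v9; ok v274 && (
  let v275 := add v274 v0; ok v275 && (
  let v276 := mul v273 v275; ok v276 && (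
  let v277 := scale ⟨549755813888, 0, 0, 0⟩ v271; ok v277 && (
  let v278 := sub v0 v277; ok v278 && (
  isPos 3 v278 && (
  let v279 := inv v278; ok v279 && (
  let v280 := add v277 v0; ok v280 && (
  let v281 := mul v280 v279; ok v281 && (
  let v282 := mul v94 v13; ok v282 && (
  let v283 := scale ⟨2199023255552, 0, 0, 0⟩ v6; ok v283 && (
  let v284 := add v282 v283; ok v284 && (
  let v285 := mul v282 v284; ok v285 && (
  let v286 := add v106 v285; ok v286 && (
  let v287 := mul v282 v282; ok v287 && (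
  let v288 := add v106 v287; ok v288 && (
  let v289 := mul v13 v288; ok v289 && (
  let v290 := sub v286 v0; ok v290 && (
  let v291 := scale ⟨549755813888, 0, 0, 0⟩ v290; ok v291 && (
  let v292 := add v291 v0; ok v292 && (
  let v293 := mul v276 v279; ok v293 && (
  let v294 := mul v281 v269; ok v294 && (
  let v295 := scale ⟨a0, 0, 0, 0⟩ v294; ok v295 && (
  let v296 := add v292 v289; ok v296 && (
  let v297 := add v296 v193; ok v297 && (
  let v298 := mul v295 v297; ok v298 && (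
  let v299 := add v293 v298; ok v299 && (
  let v300 := neg v299; ok v300 && (
  let v301 := cst ⟨tha, 0, 0, 0⟩; ok v301 && (
  let v302 := add v300 v301; ok v302 && (
  isPos 3 v302 && (
  true))))))))))))))))))))))))))))))))))))))))))))))))))))))))))))))))))))))))))))))))))))))))))))))))))))))))))))))))))))))))))))))))))))))))))))))))))))))))))))))))))))))))))))))))))))))))))))))))))))))))))))))))))))))))))))))))))))))))))))))))))))))))))))))))))))))))))))))))))))))))))))))))))))))))))))))))))))))))))))))))))))))))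
  | _, _ => false

theorem chk_eq (O : Ops) : ∀ (r : Row) (m : List O.α),
    chk O.cst O.add O.sub O.mul O.scale O.neg O.inv O.exp O.log O.ok O.isPos O.isLt r m = true → runG O 3 (common r) m = true
  | ⟨_, _, _, _, _, _, _, _, _, _, _, _, _, _, _, _, _⟩, [_, _, _], h => h

def chkF : Row → List Pool.Agent.helper14.QF.opsF.α → Bool :=
  chk Pool.Agent.helper14.QF.opsF.cst Pool.Agent.helper14.QF.opsF.add Pool.Agent.helper14.QF.opsF.sub Pool.Agent.helper14.QF.opsF.mul Pool.Agent.helper14.QF.opsF.scale Pool.Agent.helper14.QF.opsF.neg Pool.Agent.helper14.QF.opsF.inv Pool.Agent.helper14.QF.opsF.exp Pool.Agent.helper14.QF.opsF.log Pool.Agent.helper14.QF.opsF.ok Pool.Agent.helper14.QF.opsF.isPos Pool.Agent.helper14.QF.opsF.isLt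

theorem chkF_eq : ∀ (r : Row) (m : List Pool.Agent.helper14.QF.opsF.α), chkF r m = true →
    runG Pool.Agent.helper14.QF.opsF 3 (common r) m = true := chk_eq Pool.Agent.helper14.QF.opsF

theorem common_real (r : Row) : (common r).all Pool.Agent.helper71.FF.rOK = true := rfl

end Pool.Agent.helper31.A2.Cert.F1P
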