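import Pool.Agent.helper14.RW.Eng

/-!
Generated: a program with a row of constants, and its compiled form.
-/

namespace Pool.Agent.helper31.A2.Cert.F2P

open Pool.Agent.helper31.IA (Z Op)
open Pool.Agent.helper31.IC (Ops runG TD CovD covD_split)
open Pool.Agent.helper14.RW

set_option maxRecDepth 100000

/-- a row: the numbers times `2^40` -/
structure Row where
  aS : Nat
  cD : Nat
  Ma : Nat
  Mb : Nat
  RH1 : Nat
  RH : Nat
  RHq : Nat
  exK : Nat
  x0 : Nat
  xa : Nat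
  xb : Nat
  Lam0 : Nat
  Y0 : Nat
  M1 : Nat
  ys : Nat
  a0 : Nat
  tha : Nat
deriving DecidableEq

def common (r : Row) : List Op := [
  .const ⟨1099511627776, 0, 0, 0⟩,
  .mul 1 1,
  .mul 3 3,
  .mul 5 5,
  .add 1 0,
  .log 0,
  .scale ⟨549755813888, 0, 0, 0⟩ 0,
  .exp 0,
  .neg 1,
  .exp 0,
  .mul 11 0,
  .mul 13 1,
  .mul 12 4,
  .mul 0 0,
  .mul 1 14,
  .mul 16 13,
  .mul 0 0,
  .mul 1 18,
  .mul 0 18,
  .scale ⟨549755813888, 0, 0, 0⟩ 20,
  .neg 21,
  .exp 0,
  .add 0 21,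
  .log 0,
  .add 4 0,
  .mul 25 0,
  .mul 1 1,
  .add 0 23,
  .log 0,
  .scale ⟨549755813888, 0, 0, 0⟩ 0,
  .exp 0,
  .mul 31 0,
  .scale ⟨274877906944, 0, 0, 0⟩ 28,
  .add 6 0,
  .log 0,
  .scale ⟨549755813888, 0, 0, 0⟩ 0,
  .exp 0,
  .mul 37 0,
  .const ⟨4398046511104, 0, 0, 0⟩,
  .add 40 0,
  .inv 0,
  .scale ⟨r.aS, 0, 0, 0⟩ 0,
  .scale ⟨4398046511104, 0, 0, 0⟩ 0,
  .mul 35 0,
  .mul 30 42,
  .mul 45 13,
  .scale ⟨r.cD, 0, 0, 0⟩ 44,
  .add 1 0,
  .exp 0,
  .mul 0 0,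
  .neg 2,
  .const ⟨61083746304, 0, 0, 0⟩,
  .add 1 0,
  .pos 0,
  .scale ⟨1759219023872, 0, 0, 0⟩ 39,
  .scale ⟨2748779069440, 0, 0, 0⟩ 56,
  .add 1 0,
  .mul 0 54,
  .scale ⟨274877906944, 0, 0, 0⟩ 40,
  .sub 57 0,
  .mul 13 27,
  .scale ⟨549755813888, 0, 0, 0⟩ 0,
  .scale ⟨157073539072, 0, 0, 0⟩ 42,
  .add 1 0,
  .mul 14 0,
  .add 26 0,
  .mul 53 0,
  .scale ⟨1649267441664, 0, 0, 0⟩ 16,
  .const ⟨1649267441664, 0, 0, 0⟩,
  .sub 1 0,
  .scale ⟨824633720832, 0, 0, 0⟩ 52,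
  .add 1 0,
  .mul 73 69,
  .add 1 0,
  .add 0 16,
  .mul 61 0,
  .add 9 0,
  .mul 78 64,
  .mul 0 75,
  .scale ⟨137438953472, 0, 0, 0⟩ 0,
  .mul 60 0,
  .add 4 0,
  .mul 0 81,
  .const ⟨3298534883328, 0, 0, 0⟩,
  .sub 0 16,
  .mul 25 0,
  .mul 74 74,
  .scale ⟨549755813888, 0, 0, 0⟩ 0,
  .sub 2 0,
  .mul 76 76,
  .mul 0 40,
  .sub 2 0,
  .sub 0 34,
  .mul 33 5,
  .sub 26 0,
  .add 0 37,
  .mul 41 93,
  .scale ⟨1121502363648, 0, 0, 0⟩ 0,
  .add 96 0,
  .mul 53 48,
  .scale ⟨2199023255552, 0, 0, 0⟩ 0,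
  .add 2 0,
  .mul 89 0,
  .mul 87 45,
  .add 1 0,
  .mul 12 89,
  .mul 1 1,
  .add 20 0,
  .scale ⟨1098437885952, 0, 0, 0⟩ 15,
  .mul 3 3,
  .add 2 0,
  .inv 0,
  .mul 3 0,
  .neg 0,
  .add 0 112,
  .pos 0,
  .mul 25 69,
  .scale ⟨2199023255552, 0, 0, 0⟩ 0,
  .sub 115 0,
  .sub 0 35,
  .mul 36 36,
  .sub 1 0,
  .mul 0 0,
  .pos 1,
  .inv 1,
  .mul 119 120,
  .mul 19 115,
  .scale ⟨1282763915264, 0, 0, 0⟩ 107,
  .mul 123 123,
  .scale ⟨35184372088832, 0, 0, 0⟩ 0,
  .add 2 0,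
  .const ⟨r.Ma, 0, 0, 0⟩,
  .const ⟨r.Mb, 0, 0, 0⟩,
  .scale ⟨1090049277952, 0, 0, 0⟩ 18,
  .mul 0 117,
  .mul 0 11,
  .scale ⟨2199023255552, 0, 0, 0⟩ 9,
  .add 11 0,
  .sub 134 7,
  .mul 1 7,
  .mul 0 135,
  .sub 2 0,
  .scale ⟨3298534883328, 0, 0, 0⟩ 137,
  .mul 138 11,
  .scale ⟨2199023255552, 0, 0, 0⟩ 0,
  .add 2 0,
  .mul 0 10,
  .sub 5 0,
  .mul 2 131,
  .scale ⟨10995116277760, 0, 0, 0⟩ 0,
  .sub 2 0,
  .pos 0,
  .mul 3 15,
  .neg 0,
  .exp 0,
  .sub 150 107,
  .pos 0,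
  .inv 0,
  .scale ⟨549755813888, 0, 0, 0⟩ 109,
  .add 153 0,
  .mul 111 111,
  .mul 0 3,
  .scale ⟨366504574976, 0, 0, 0⟩ 0,
  .add 3 0,
  .mul 8 115,
  .scale ⟨549755813888, 0, 0, 0⟩ 0,
  .add 160 0,
  .mul 2 2,
  .sub 162 3,
  .inv 0,
  .mul 2 0,
  .scale ⟨366504574976, 0, 0, 0⟩ 0,
  .add 5 0,
  .mul 87 155,
  .mul 0 39,
  .add 1 0,
  .mul 127 12,
  .add 1 0,
  .mul 4 44,
  .mul 14 6,
  .add 1 0,
  .mul 94 46,
  .add 0 95,
  .mul 135 19,
  .add 1 0,
  .mul 168 0,
  .neg 8,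
  .const ⟨r.cD, 0, 0, 0⟩,
  .add 1 0,
  .pos 0,
  .neg 8,
  .add 0 2,
  .pos 0,
  .scale ⟨1165482786816, 0, 0, 0⟩ 136,
  .scale ⟨2199023255552, 0, 0, 0⟩ 14,
  .add 0 12,
  .mul 187 0,
  .add 9 0,
  .mul 4 0,
  .mul 0 177,
  .mul 0 71,
  .sub 193 0,
  .pos 0,
  .scale ⟨2199023255552, 0, 0, 0⟩ 1,
  .neg 0,
  .const ⟨1085552984064, 0, 0, 0⟩,
  .add 1 0,
  .sub 92 198,
  .scale ⟨549755813888, 0, 0, 0⟩ 0,
  .add 0 200,
  .add 0 120,
  .add 0 10,
  .mul 0 0,
  .const ⟨r.RH1, 0, 0, 0⟩,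
  .add 124 205,
  .mul 0 0,
  .sub 2 0,
  .pos 0,
  .const ⟨r.RH, 0, 0, 0⟩,
  .sub 0 115,
  .sub 0 19,
  .sub 0 7,
  .pos 0,
  .mul 92 14,
  .scale ⟨10995116277760, 0, 0, 0⟩ 0,
  .sub 0 5,
  .pos 0,
  .scale ⟨989560045568, 0, 0, 0⟩ 2,
  .scale ⟨r.RHq, 0, 0, 0⟩ 172,
  .sub 1 0,
  .pos 0,
  .scale ⟨11941082824704, 0, 0, 0⟩ 5,
  .sub 0 10,
  .sub 0 16,
  .pos 0,
  .pos 104,
  .mul 101 27,
  .inv 0,
  .mul 32 0,
  .scale ⟨r.exK, 0, 0, 0⟩ 0,
  .sub 114 0,
  .const ⟨r.x0, 0, 0, 0⟩,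
  .sub 1 0,
  .pos 0,
  .const ⟨r.xa, 0, 0, 0⟩,
  .sub 118 0,
  .pos 0,
  .const ⟨r.xb, 0, 0, 0⟩,
  .sub 5 0,
  .pos 0,
  .sub 141 41,
  .pos 0,
  .sub 233 38,
  .mul 114 0,
  .scale ⟨r.Lam0, 0, 0, 0⟩ 0,
  .sub 0 142,
  .sub 0 46,
  .pos 0,
  .mul 47 225,
  .add 116 0,
  .neg 0,
  .const ⟨r.Y0, 0, 0, 0⟩,
  .add 1 0,
  .pos 0,
  .add 17 243,
  .scale ⟨1090049277952, 0, 0, 0⟩ 0,
  .mul 0 232,
  .mul 0 126,
  .mul 0 49,
  .const ⟨r.M1, 0, 0, 0⟩,
  .const ⟨r.ys, 0, 0, 0⟩,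
  .sub 0 10,
  .pos 0,
  .sub 1 254,
  .pos 0,
  .scale ⟨2199023255552, 0, 0, 0⟩ 13,
  .add 119 0,
  .mul 0 5,
  .mul 0 254,
  .sub 121 0,
  .mul 256 8,
  .scale ⟨2199023255552, 0, 0, 0⟩ 0,
  .add 120 0,
  .mul 0 12,
  .sub 4 0,
  .mul 2 249,
  .scale ⟨12094627905536, 0, 0, 0⟩ 0,
  .sub 2 0,
  .pos 0,
  .mul 3 17,
  .neg 0,
  .exp 0,
  .mul 29 19,
  .add 0 30,
  .mul 78 21,
  .add 0 79,
  .scale ⟨274877906944, 0, 0, 0⟩ 274,
  .add 0 273,
  .mul 2 0,
  .scale ⟨549755813888, 0, 0, 0⟩ 5,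
  .sub 276 0,
  .pos 0,
  .inv 0,
  .add 2 278,
  .mul 0 1,
  .mul 186 266,
  .scale ⟨2199023255552, 0, 0, 0⟩ 271,
  .add 1 0,
  .mul 2 0,
  .add 178 0,
  .mul 4 4,
  .add 180 0,
  .mul 273 0,
  .sub 3 288,
  .scale ⟨549755813888, 0, 0, 0⟩ 0,
  .add 0 290,
  .mul 16 13,
  .mul 12 24,
  .scale ⟨r.a0, 0, 0, 0⟩ 0,
  .add 3 6,
  .add 0 103,
  .mul 2 0,
  .add 5 0,
  .neg 0,
  .const ⟨r.tha, 0, 0, 0⟩,
  .add 1 0,
  .pos 0]

def chk {α : Type} (cst : Z → α) (add sub mul : α → α → α) (scale : Z → α → α)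
    (neg inv exp log : α → α) (ok : α → Bool) (isPos : Nat → α → Bool) (_isLt : α → Nat → Bool) :
    Row → List α → Bool
  | ⟨aS, cD, Ma, Mb, RH1, RH, RHq, exK, x0, xa, xb, Lam0, Y0, M1, ys, a0, tha⟩, [u0, u1, u2] =>
  let v0 := cst ⟨1099511627776, 0, 0, 0⟩; ok v0 && (
  let v1 := mul u0 u0; ok v1 && (
  let v2 := mul u1 u1; ok v2 && (
  let v3 := mul u2 u2; ok v3 && (
  let v4 := add v2 v3; ok v4 && (
  let v5 := log v4; ok v5 && (
  let v6 := scale ⟨549755813888, 0, 0, 0⟩ v5; ok v6 && (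
  let v7 := exp v6; ok v7 && (
  let v8 := neg v6; ok v8 && (
  let v9 := exp v8; ok v9 && (
  let v10 := mul u1 v9; ok v10 && (
  let v11 := mul u2 v9; ok v11 && (
  let v12 := mul u0 v7; ok v12 && (
  let v13 := mul v12 v12; ok v13 && (
  let v14 := mul v12 u0; ok v14 && (
  let v15 := mul u1 v1; ok v15 && (
  let v16 := mul v15 v15; ok v16 && (
  let v17 := mul v15 u1; ok v17 && (
  let v18 := mul v17 u0; ok v18 && (
  let v19 := scale ⟨549755813888, 0, 0, 0⟩ u1; ok v19 && (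
  let v20 := neg u1; ok v20 && (
  let v21 := exp v20; ok v21 && (
  let v22 := add v21 v0; ok v22 && (
  let v23 := log v22; ok v23 && (
  let v24 := add v19 v23; ok v24 && (
  let v25 := mul u0 v24; ok v25 && (
  let v26 := mul v24 v24; ok v26 && (
  let v27 := add v26 v3; ok v27 && (
  let v28 := log v27; ok v28 && (
  let v29 := scale ⟨549755813888, 0, 0, 0⟩ v28; ok v29 && (
  let v30 := exp v29; ok v30 && (
  let v31 := mul u0 v30; ok v31 && (
  let v32 := scale ⟨274877906944, 0, 0, 0⟩ v3; ok v32 && (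
  let v33 := add v26 v32; ok v33 && (
  let v34 := log v33; ok v34 && (
  let v35 := scale ⟨549755813888, 0, 0, 0⟩ v34; ok v35 && (
  let v36 := exp v35; ok v36 && (
  let v37 := mul u0 v36; ok v37 && (
  let v38 := cst ⟨4398046511104, 0, 0, 0⟩; ok v38 && (
  let v39 := add u1 v38; ok v39 && (
  let v40 := inv v39; ok v40 && (
  let v41 := scale ⟨aS, 0, 0, 0⟩ v40; ok v41 && (
  let v42 := scale ⟨4398046511104, 0, 0, 0⟩ v41; ok v42 && (
  let v43 := mul v7 v42; ok v43 && (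
  let v44 := mul v13 v1; ok v44 && (
  let v45 := mul u0 v31; ok v45 && (
  let v46 := scale ⟨cD, 0, 0, 0⟩ v1; ok v46 && (
  let v47 := add v45 v46; ok v47 && (
  let v48 := exp v47; ok v48 && (
  let v49 := mul v48 v48; ok v49 && (
  let v50 := neg v47; ok v50 && (
  let v51 := cst ⟨61083746304, 0, 0, 0⟩; ok v51 && (
  let v52 := add v50 v51; ok v52 && (
  isPos 3 v52 && (
  let v53 := scale ⟨1759219023872, 0, 0, 0⟩ v13; ok v53 && (
  let v54 := scale ⟨2748779069440, 0, 0, 0⟩ u2; ok v54 && (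
  let v55 := add v53 v54; ok v55 && (
  let v56 := mul v55 v1; ok v56 && (
  let v57 := scale ⟨274877906944, 0, 0, 0⟩ v16; ok v57 && (
  let v58 := sub v0 v57; ok v58 && (
  let v59 := mul v45 v31; ok v59 && (
  let v60 := scale ⟨549755813888, 0, 0, 0⟩ v59; ok v60 && (
  let v61 := scale ⟨157073539072, 0, 0, 0⟩ v18; ok v61 && (
  let v62 := add v60 v61; ok v62 && (
  let v63 := mul v48 v62; ok v63 && (
  let v64 := add v37 v63; ok v64 && (
  let v65 := mul v11 v64; ok v65 && (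
  let v66 := scale ⟨1649267441664, 0, 0, 0⟩ v49; ok v66 && (
  let v67 := cst ⟨1649267441664, 0, 0, 0⟩; ok v67 && (
  let v68 := sub v66 v67; ok v68 && (
  let v69 := scale ⟨824633720832, 0, 0, 0⟩ v16; ok v69 && (
  let v70 := add v68 v69; ok v70 && (
  let v71 := mul u2 v1; ok v71 && (
  let v72 := add v70 v71; ok v72 && (
  let v73 := add v72 v56; ok v73 && (
  let v74 := mul v12 v73; ok v74 && (
  let v75 := add v65 v74; ok v75 && (
  let v76 := mul u2 v11; ok v76 && (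
  let v77 := mul v76 v1; ok v77 && (
  let v78 := scale ⟨137438953472, 0, 0, 0⟩ v77; ok v78 && (
  let v79 := mul v18 v78; ok v79 && (
  let v80 := add v75 v79; ok v80 && (
  let v81 := mul v80 u0; ok v81 && (
  let v82 := cst ⟨3298534883328, 0, 0, 0⟩; ok v82 && (
  let v83 := sub v82 v66; ok v83 && (
  let v84 := mul v58 v83; ok v84 && (
  let v85 := mul v10 v10; ok v85 && (
  let v86 := scale ⟨549755813888, 0, 0, 0⟩ v85; ok v86 && (
  let v87 := sub v84 v86; ok v87 && (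
  let v88 := mul v11 v11; ok v88 && (
  let v89 := mul v88 v48; ok v89 && (
  let v90 := sub v87 v89; ok v90 && (
  let v91 := sub v90 v56; ok v91 && (
  let v92 := mul v58 v86; ok v92 && (
  let v93 := sub v66 v92; ok v93 && (
  let v94 := add v93 v56; ok v94 && (
  let v95 := mul v53 v1; ok v95 && (
  let v96 := scale ⟨1121502363648, 0, 0, 0⟩ v95; ok v96 && (
  let v97 := add v0 v96; ok v97 && (
  let v98 := mul v44 v49; ok v98 && (
  let v99 := scale ⟨2199023255552, 0, 0, 0⟩ v98; ok v99 && (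
  let v100 := add v97 v99; ok v100 && (
  let v101 := mul v11 v100; ok v101 && (
  let v102 := mul v14 v56; ok v102 && (
  let v103 := add v101 v102; ok v103 && (
  let v104 := mul v91 v14; ok v104 && (
  let v105 := mul v103 v103; ok v105 && (
  let v106 := add v85 v105; ok v106 && (
  let v107 := scale ⟨1098437885952, 0, 0, 0⟩ v91; ok v107 && (
  let v108 := mul v104 v104; ok v108 && (
  let v109 := add v106 v108; ok v109 && (
  let v110 := inv v109; ok v110 && (
  let v111 := mul v107 v110; ok v111 && (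
  let v112 := neg v111; ok v112 && (
  let v113 := add v112 v0; ok v113 && (
  isPos 3 v113 && (
  let v114 := mul v88 v44; ok v114 && (
  let v115 := scale ⟨2199023255552, 0, 0, 0⟩ v114; ok v115 && (
  let v116 := sub v0 v115; ok v116 && (
  let v117 := sub v116 v81; ok v117 && (
  let v118 := mul v81 v81; ok v118 && (
  let v119 := sub v117 v118; ok v119 && (
  let v120 := mul v119 v119; ok v120 && (
  isPos 3 v119 && (
  let v121 := inv v119; ok v121 && (
  let v122 := mul v2 v1; ok v122 && (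
  let v123 := mul v103 v7; ok v123 && (
  let v124 := scale ⟨1282763915264, 0, 0, 0⟩ v16; ok v124 && (
  let v125 := mul v1 v1; ok v125 && (
  let v126 := scale ⟨35184372088832, 0, 0, 0⟩ v125; ok v126 && (
  let v127 := add v124 v126; ok v127 && (
  let v128 := cst ⟨Ma, 0, 0, 0⟩; ok v128 && (
  let v129 := cst ⟨Mb, 0, 0, 0⟩; ok v129 && (
  let v130 := scale ⟨1090049277952, 0, 0, 0⟩ v111; ok v130 && (
  let v131 := mul v130 v13; ok v131 && (
  let v132 := mul v131 v120; ok v132 && (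
  let v133 := scale ⟨2199023255552, 0, 0, 0⟩ v123; ok v133 && (
  let v134 := add v122 v133; ok v134 && (
  let v135 := sub v0 v127; ok v135 && (
  let v136 := mul v134 v128; ok v136 && (
  let v137 := mul v136 v1; ok v137 && (
  let v138 := sub v135 v137; ok v138 && (
  let v139 := scale ⟨3298534883328, 0, 0, 0⟩ v1; ok v139 && (
  let v140 := mul v1 v128; ok v140 && (
  let v141 := scale ⟨2199023255552, 0, 0, 0⟩ v140; ok v141 && (
  let v142 := add v139 v141; ok v142 && (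
  let v143 := mul v142 v132; ok v143 && (
  let v144 := sub v138 v143; ok v144 && (
  let v145 := mul v142 v13; ok v145 && (
  let v146 := scale ⟨10995116277760, 0, 0, 0⟩ v145; ok v146 && (
  let v147 := sub v144 v146; ok v147 && (
  isPos 3 v147 && (
  let v148 := mul v144 v132; ok v148 && (
  let v149 := neg v148; ok v149 && (
  let v150 := exp v149; ok v150 && (
  let v151 := sub v0 v43; ok v151 && (
  isPos 3 v151 && (
  let v152 := inv v151; ok v152 && (
  let v153 := scale ⟨549755813888, 0, 0, 0⟩ v43; ok v153 && (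
  let v154 := add v0 v153; ok v154 && (
  let v155 := mul v43 v43; ok v155 && (
  let v156 := mul v155 v152; ok v156 && (
  let v157 := scale ⟨366504574976, 0, 0, 0⟩ v156; ok v157 && (
  let v158 := add v154 v157; ok v158 && (
  let v159 := mul v150 v43; ok v159 && (
  let v160 := scale ⟨549755813888, 0, 0, 0⟩ v159; ok v160 && (
  let v161 := add v0 v160; ok v161 && (
  let v162 := mul v159 v159; ok v162 && (
  let v163 := sub v0 v159; ok v163 && (
  let v164 := inv v163; ok v164 && (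
  let v165 := mul v162 v164; ok v165 && (
  let v166 := scale ⟨366504574976, 0, 0, 0⟩ v165; ok v166 && (
  let v167 := add v161 v166; ok v167 && (
  let v168 := mul v80 v12; ok v168 && (
  let v169 := mul v168 v129; ok v169 && (
  let v170 := add v168 v169; ok v170 && (
  let v171 := mul v43 v158; ok v171 && (
  let v172 := add v170 v171; ok v172 && (
  let v173 := mul v168 v128; ok v173 && (
  let v174 := mul v159 v167; ok v174 && (
  let v175 := add v173 v174; ok v175 && (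
  let v176 := mul v81 v129; ok v176 && (
  let v177 := add v176 v81; ok v177 && (
  let v178 := mul v42 v158; ok v178 && (
  let v179 := add v177 v178; ok v179 && (
  let v180 := mul v11 v179; ok v180 && (
  let v181 := neg v172; ok v181 && (
  let v182 := cst ⟨cD, 0, 0, 0⟩; ok v182 && (
  let v183 := add v181 v182; ok v183 && (
  isPos 3 v183 && (
  let v184 := neg v175; ok v184 && (
  let v185 := add v184 v182; ok v185 && (
  isPos 3 v185 && (
  let v186 := scale ⟨1165482786816, 0, 0, 0⟩ v49; ok v186 && (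
  let v187 := scale ⟨2199023255552, 0, 0, 0⟩ v172; ok v187 && (
  let v188 := add v187 v175; ok v188 && (
  let v189 := mul v1 v188; ok v189 && (
  let v190 := add v180 v189; ok v190 && (
  let v191 := mul v186 v190; ok v191 && (
  let v192 := mul v191 v14; ok v192 && (
  let v193 := mul v192 v121; ok v193 && (
  let v194 := sub v0 v193; ok v194 && (
  isPos 3 v194 && (
  let v195 := scale ⟨2199023255552, 0, 0, 0⟩ v193; ok v195 && (
  let v196 := neg v195; ok v196 && (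
  let v197 := cst ⟨1085552984064, 0, 0, 0⟩; ok v197 && (
  let v198 := add v196 v197; ok v198 && (
  let v199 := sub v106 v0; ok v199 && (
  let v200 := scale ⟨549755813888, 0, 0, 0⟩ v199; ok v200 && (
  let v201 := add v200 v0; ok v201 && (
  let v202 := add v201 v81; ok v202 && (
  let v203 := add v202 v192; ok v203 && (
  let v204 := mul v203 v203; ok v204 && (
  let v205 := cst ⟨RH1, 0, 0, 0⟩; ok v205 && (
  let v206 := add v81 v0; ok v206 && (
  let v207 := mul v206 v206; ok v207 && (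
  let v208 := sub v205 v207; ok v208 && (
  isPos 3 v208 && (
  let v209 := cst ⟨RH, 0, 0, 0⟩; ok v209 && (
  let v210 := sub v209 v94; ok v210 && (
  let v211 := sub v210 v191; ok v211 && (
  let v212 := sub v211 v204; ok v212 && (
  isPos 3 v212 && (
  let v213 := mul v120 v198; ok v213 && (
  let v214 := scale ⟨10995116277760, 0, 0, 0⟩ v213; ok v214 && (
  let v215 := sub v214 v209; ok v215 && (
  isPos 3 v215 && (
  let v216 := scale ⟨989560045568, 0, 0, 0⟩ v213; ok v216 && (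
  let v217 := scale ⟨RHq, 0, 0, 0⟩ v44; ok v217 && (
  let v218 := sub v216 v217; ok v218 && (
  isPos 3 v218 && (
  let v219 := scale ⟨11941082824704, 0, 0, 0⟩ v213; ok v219 && (
  let v220 := sub v219 v209; ok v220 && (
  let v221 := sub v220 v204; ok v221 && (
  isPos 3 v221 && (
  isPos 3 v117 && (
  let v222 := mul v120 v194; ok v222 && (
  let v223 := inv v222; ok v223 && (
  let v224 := mul v191 v223; ok v224 && (
  let v225 := scale ⟨exK, 0, 0, 0⟩ v224; ok v225 && (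
  let v226 := sub v111 v225; ok v226 && (
  let v227 := cst ⟨x0, 0, 0, 0⟩; ok v227 && (
  let v228 := sub v226 v227; ok v228 && (
  isPos 3 v228 && (
  let v229 := cst ⟨xa, 0, 0, 0⟩; ok v229 && (
  let v230 := sub v111 v229; ok v230 && (
  isPos 3 v230 && (
  let v231 := cst ⟨xb, 0, 0, 0⟩; ok v231 && (
  let v232 := sub v226 v231; ok v232 && (
  isPos 3 v232 && (
  let v233 := sub v91 v191; ok v233 && (
  isPos 3 v233 && (
  let v234 := sub v0 v195; ok v234 && (
  let v235 := mul v120 v234; ok v235 && (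
  let v236 := scale ⟨Lam0, 0, 0, 0⟩ v235; ok v236 && (
  let v237 := sub v236 v94; ok v237 && (
  let v238 := sub v237 v191; ok v238 && (
  isPos 3 v238 && (
  let v239 := mul v191 v13; ok v239 && (
  let v240 := add v123 v239; ok v240 && (
  let v241 := neg v240; ok v241 && (
  let v242 := cst ⟨Y0, 0, 0, 0⟩; ok v242 && (
  let v243 := add v241 v242; ok v243 && (
  isPos 3 v243 && (
  let v244 := add v226 v0; ok v244 && (
  let v245 := scale ⟨1090049277952, 0, 0, 0⟩ v244; ok v245 && (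
  let v246 := mul v245 v13; ok v246 && (
  let v247 := mul v246 v120; ok v247 && (
  let v248 := mul v247 v198; ok v248 && (
  let v249 := cst ⟨M1, 0, 0, 0⟩; ok v249 && (
  let v250 := cst ⟨ys, 0, 0, 0⟩; ok v250 && (
  let v251 := sub v250 v240; ok v251 && (
  isPos 3 v251 && (
  let v252 := sub v250 u2; ok v252 && (
  isPos 3 v252 && (
  let v253 := scale ⟨2199023255552, 0, 0, 0⟩ v239; ok v253 && (
  let v254 := add v134 v253; ok v254 && (
  let v255 := mul v254 v249; ok v255 && (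
  let v256 := mul v255 v1; ok v256 && (
  let v257 := sub v135 v256; ok v257 && (
  let v258 := mul v1 v249; ok v258 && (
  let v259 := scale ⟨2199023255552, 0, 0, 0⟩ v258; ok v259 && (
  let v260 := add v139 v259; ok v260 && (
  let v261 := mul v260 v248; ok v261 && (
  let v262 := sub v257 v261; ok v262 && (
  let v263 := mul v260 v13; ok v263 && (
  let v264 := scale ⟨12094627905536, 0, 0, 0⟩ v263; ok v264 && (
  let v265 := sub v262 v264; ok v265 && (
  isPos 3 v265 && (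
  let v266 := mul v262 v248; ok v266 && (
  let v267 := neg v266; ok v267 && (
  let v268 := exp v267; ok v268 && (
  let v269 := mul v239 v249; ok v269 && (
  let v270 := add v269 v239; ok v270 && (
  let v271 := mul v192 v249; ok v271 && (
  let v272 := add v271 v192; ok v272 && (
  let v273 := scale ⟨274877906944, 0, 0, 0⟩ u1; ok v273 && (
  let v274 := add v273 v0; ok v274 && (
  let v275 := mul v272 v274; ok v275 && (
  let v276 := scale ⟨549755813888, 0, 0, 0⟩ v270; ok v276 && (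
  let v277 := sub v0 v276; ok v277 && (
  isPos 3 v277 && (
  let v278 := inv v277; ok v278 && (
  let v279 := add v276 v0; ok v279 && (
  let v280 := mul v279 v278; ok v280 && (
  let v281 := mul v94 v14; ok v281 && (
  let v282 := scale ⟨2199023255552, 0, 0, 0⟩ v10; ok v282 && (
  let v283 := add v281 v282; ok v283 && (
  let v284 := mul v281 v283; ok v284 && (
  let v285 := add v106 v284; ok v285 && (
  let v286 := mul v281 v281; ok v286 && (
  let v287 := add v106 v286; ok v287 && (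
  let v288 := mul v14 v287; ok v288 && (
  let v289 := sub v285 v0; ok v289 && (
  let v290 := scale ⟨549755813888, 0, 0, 0⟩ v289; ok v290 && (
  let v291 := add v290 v0; ok v291 && (
  let v292 := mul v275 v278; ok v292 && (
  let v293 := mul v280 v268; ok v293 && (
  let v294 := scale ⟨a0, 0, 0, 0⟩ v293; ok v294 && (
  let v295 := add v291 v288; ok v295 && (
  let v296 := add v295 v192; ok v296 && (
  let v297 := mul v294 v296; ok v297 && (
  let v298 := add v292 v297; ok v298 && (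
  let v299 := neg v298; ok v299 && (
  let v300 := cst ⟨tha, 0, 0, 0⟩; ok v300 && (
  let v301 := add v299 v300; ok v301 && (
  isPos 3 v301 && (
  true)))))))))))))))))))))))))))))))))))))))))))))))))))))))))))))))))))))))))))))))))))))))))))))))))))))))))))))))))))))))))))))))))))))))))))))))))))))))))))))))))))))))))))))))))))))))))))))))))))))))))))))))))))))))))))))))))))))))))))))))))))))))))))))))))))))))))))))))))))))))))))))))))))))))))))))))))))))))))))))))))))))))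
  | _, _ => false

theorem chk_eq (O : Ops) : ∀ (r : Row) (m : List O.α),
    chk O.cst O.add O.sub O.mul O.scale O.neg O.inv O.exp O.log O.ok O.isPos O.isLt r m = true → runG O 3 (common r) m = true
  | ⟨_, _, _, _, _, _, _, _, _, _, _, _, _, _, _, _, _⟩, [_, _, _], h => h

def chkF : Row → List Pool.Agent.helper14.QF.opsF.α → Bool :=
  chk Pool.Agent.helper14.QF.opsF.cst Pool.Agent.helper14.QF.opsF.add Pool.Agent.helper14.QF.opsF.sub Pool.Agent.helper14.QF.opsF.mul Pool.Agent.helper14.QF.opsF.scale Pool.Agent.helper14.QF.opsF.neg Pool.Agent.helper14.QF.opsF.inv Pool.Agent.helper14.QF.opsF.exp Pool.Agent.helper14.QF.opsF.log Pool.Agent.helper14.QF.opsF.ok Pool.Agent.helper14.QF.opsF.isPos Pool.Agent.helper14.QF.opsF.isLt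

theorem chkF_eq : ∀ (r : Row) (m : List Pool.Agent.helper14.QF.opsF.α), chkF r m = true →
    runG Pool.Agent.helper14.QF.opsF 3 (common r) m = true := chk_eq Pool.Agent.helper14.QF.opsF

theorem common_real (r : Row) : (common r).all Pool.Agent.helper71.FF.rOK = true := rfl

end Pool.Agent.helper31.A2.Cert.F2P
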