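import Pool.Agent.helper31.A2.Cert.F2QT

/-!
Generated: certificates.
-/

namespace Pool.Agent.helper31.A2.Cert.F2Q

open Pool.Agent.helper31.IA (Z Op)
open Pool.Agent.helper31.IC (TD CovD covD_split)
open Pool.Agent.helper14.RW
open Pool.Agent.helper31.A2.Cert.F2P

mutual
theorem c0_t6 : CovD 0 (progs common T) [(63459426304, 14287831040), (627065225216, 77309411328), (283467841536, 283467841536)] :=
  covR_F chkF_eq T (.n 2 (.n 1 (.n 1 (.n 2 (.n 2 (.l 0) (.l 0)) (.l 0)) (.n 2 (.n 2 (.l 0) (.l 0)) (.l 0))) (.n 2 (.n 2 (.l 0) (.l 0)) (.n 1 (.l 0) (.l 0)))) (.n 2 (.n 1 (.l 0) (.l 0)) (.l 0)))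
    [(63459426304, 14287831040), (627065225216, 77309411328), (283467841536, 283467841536)] rfl (by decide +kernel)
theorem c0_t7 : CovD 0 (progs common T) [(63459426304, 14287831040), (781684047872, 77309411328), (283467841536, 283467841536)] :=
  covR_F chkF_eq T (.n 2 (.n 1 (.n 2 (.n 2 (.l 0) (.l 0)) (.l 0)) (.n 2 (.n 2 (.l 0) (.l 0)) (.l 0))) (.n 2 (.l 0) (.l 0)))
    [(63459426304, 14287831040), (781684047872, 77309411328), (283467841536, 283467841536)] rfl (by decide +kernel)
end

mutual
theorem c0_t8 : CovD 0 (progs common T) [(63459426304, 14287831040), (704374636544, 154618822656), (850403524608, 283467841536)] :=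
  covR_F chkF_eq T (.n 2 (.n 1 (.l 0) (.l 0)) (.n 2 (.l 0) (.n 1 (.l 0) (.l 0))))
    [(63459426304, 14287831040), (704374636544, 154618822656), (850403524608, 283467841536)] rfl (by decide +kernel)
theorem c0_t10 : CovD 0 (progs common T) [(63459426304, 14287831040), (1013612281856, 154618822656), (283467841536, 283467841536)] :=
  covR_F chkF_eq T (.n 1 (.n 2 (.n 1 (.n 2 (.n 2 (.l 0) (.l 0)) (.l 0)) (.n 2 (.n 0 (.l 0) (.l 0)) (.l 0))) (.n 2 (.l 0) (.l 0))) (.n 1 (.n 2 (.n 2 (.l 0) (.l 0)) (.l 0)) (.n 2 (.n 2 (.l 0) (.l 0)) (.l 0))))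
    [(63459426304, 14287831040), (1013612281856, 154618822656), (283467841536, 283467841536)] rfl (by decide +kernel)
end

mutual
theorem c0_t11 : CovD 0 (progs common T) [(63459426304, 14287831040), (1013612281856, 154618822656), (850403524608, 283467841536)] :=
  covR_F chkF_eq T (.n 2 (.n 1 (.l 0) (.l 0)) (.n 2 (.l 0) (.l 0)))
    [(63459426304, 14287831040), (1013612281856, 154618822656), (850403524608, 283467841536)] rfl (by decide +kernel)
theorem c0_t13 : CovD 0 (progs common T) [(63459426304, 14287831040), (1322849927168, 154618822656), (566935683072, 566935683072)] :=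
  covR_F chkF_eq T (.n 2 (.n 2 (.n 1 (.n 2 (.n 0 (.l 0) (.l 0)) (.l 0)) (.n 2 (.l 0) (.l 0))) (.n 2 (.n 1 (.l 0) (.l 0)) (.l 0))) (.n 1 (.n 2 (.l 0) (.l 0)) (.n 2 (.l 0) (.l 0))))
    [(63459426304, 14287831040), (1322849927168, 154618822656), (566935683072, 566935683072)] rfl (by decide +kernel)
end

mutual
theorem c0_t14 : CovD 0 (progs common T) [(63459426304, 14287831040), (1632087572480, 154618822656), (566935683072, 566935683072)] :=
  covR_F chkF_eq T (.n 2 (.n 1 (.n 2 (.n 2 (.l 0) (.l 0)) (.l 0)) (.n 2 (.n 2 (.l 0) (.l 0)) (.l 0))) (.n 2 (.l 0) (.l 0)))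
    [(63459426304, 14287831040), (1632087572480, 154618822656), (566935683072, 566935683072)] rfl (by decide +kernel)
theorem c0_t16 : CovD 0 (progs common T) [(63459426304, 14287831040), (2095944040448, 309237645312), (566935683072, 566935683072)] :=
  covR_F chkF_eq T (.n 1 (.n 2 (.n 1 (.n 2 (.n 0 (.l 0) (.l 0)) (.l 0)) (.n 2 (.l 0) (.l 0))) (.n 2 (.l 0) (.l 0))) (.n 2 (.n 2 (.n 1 (.l 0) (.l 0)) (.l 0)) (.n 1 (.l 0) (.l 0))))
    [(63459426304, 14287831040), (2095944040448, 309237645312), (566935683072, 566935683072)] rfl (by decide +kernel)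
end

mutual
theorem c0_t17 : CovD 0 (progs common T) [(63459426304, 14287831040), (2714419331072, 309237645312), (566935683072, 566935683072)] :=
  covR_F chkF_eq T (.n 1 (.n 2 (.n 2 (.l 0) (.l 0)) (.n 1 (.l 0) (.l 0))) (.n 2 (.n 2 (.l 0) (.l 0)) (.l 0)))
    [(63459426304, 14287831040), (2714419331072, 309237645312), (566935683072, 566935683072)] rfl (by decide +kernel)
theorem c0_t18 : CovD 0 (progs common T) [(63459426304, 14287831040), (4260607557632, 1236950581248), (566935683072, 566935683072)] :=
  covR_F chkF_eq T (.n 1 (.n 1 (.n 1 (.n 2 (.n 2 (.l 0) (.l 0)) (.l 0)) (.n 2 (.n 0 (.l 0) (.l 0)) (.l 0))) (.n 2 (.n 2 (.l 0) (.l 0)) (.n 1 (.l 0) (.l 0)))) (.n 1 (.n 2 (.n 0 (.l 0) (.l 0)) (.l 0)) (.n 2 (.l 0) (.l 0))))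
    [(63459426304, 14287831040), (4260607557632, 1236950581248), (566935683072, 566935683072)] rfl (by decide +kernel)
end

theorem c1 : CovD 0 (progs common T) [(63459426304, 14287831040), (274877906944, 274877906944), (841813590016, 292057776128)] :=
  covR_F chkF_eq T (.n 1 (.n 2 (.n 2 (.n 1 (.l 0) (.l 0)) (.l 0)) (.n 2 (.l 0) (.l 0))) (.n 2 (.n 2 (.n 1 (.l 0) (.l 0)) (.l 0)) (.n 2 (.l 0) (.l 0))))
    [(63459426304, 14287831040), (274877906944, 274877906944), (841813590016, 292057776128)] rfl (by decide +kernel)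

theorem c0_t5 : CovD 0 (progs common T) [(63459426304, 14287831040), (704374636544, 154618822656), (283467841536, 283467841536)] :=
  covD_split 1 (by decide +kernel) c0_t6 c0_t7

theorem c0_t4 : CovD 0 (progs common T) [(63459426304, 14287831040), (704374636544, 154618822656), (566935683072, 566935683072)] :=
  covD_split 2 (by decide +kernel) c0_t5 c0_t8

theorem c0_t9 : CovD 0 (progs common T) [(63459426304, 14287831040), (1013612281856, 154618822656), (566935683072, 566935683072)] :=
  covD_split 2 (by decide +kernel) c0_t10 c0_t11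

theorem c0_t3 : CovD 0 (progs common T) [(63459426304, 14287831040), (858993459200, 309237645312), (566935683072, 566935683072)] :=
  covD_split 1 (by decide +kernel) c0_t4 c0_t9

theorem c0_t12 : CovD 0 (progs common T) [(63459426304, 14287831040), (1477468749824, 309237645312), (566935683072, 566935683072)] :=
  covD_split 1 (by decide +kernel) c0_t13 c0_t14

theorem c0_t2 : CovD 0 (progs common T) [(63459426304, 14287831040), (1168231104512, 618475290624), (566935683072, 566935683072)] :=
  covD_split 1 (by decide +kernel) c0_t3 c0_t12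

theorem c0_t15 : CovD 0 (progs common T) [(63459426304, 14287831040), (2405181685760, 618475290624), (566935683072, 566935683072)] :=
  covD_split 1 (by decide +kernel) c0_t16 c0_t17

theorem c0_t1 : CovD 0 (progs common T) [(63459426304, 14287831040), (1786706395136, 1236950581248), (566935683072, 566935683072)] :=
  covD_split 1 (by decide +kernel) c0_t2 c0_t15

theorem c0 : CovD 0 (progs common T) [(63459426304, 14287831040), (3023656976384, 2473901162496), (566935683072, 566935683072)] :=
  covD_split 1 (by decide +kernel) c0_t1 c0_t18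

end Pool.Agent.helper31.A2.Cert.F2Q
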