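import Pool.Agent.helper31.A2.Cert.F2P

/-!
Generated: the rows.
-/

namespace Pool.Agent.helper31.A2.Cert.F2Q

open Pool.Agent.helper14.RW
open Pool.Agent.helper31.A2.Cert.F2P

set_option maxRecDepth 100000

def T0 : BT Row :=
  (.l ⟨144082731008, 1099511627776, 2972117368832, 1872605741056, 2303981518848, 3409130291200, 10570451386368, 1156017291264, 0, 329853698048, 0, 2419140329472, 3490734669824, 2319282339840, 1154486370304, 98515812352, 144078536704⟩)

/-- the table -/
def T : BT Row := T0

end Pool.Agent.helper31.A2.Cert.F2Q
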