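import Pool.Agent.helper31.A2.Cert.FPQT

/-!
Generated: certificates.
-/

namespace Pool.Agent.helper31.A2.Cert.FPQ

open Pool.Agent.helper31.IA (Z Op)
open Pool.Agent.helper31.IC (TD CovD covD_split)
open Pool.Agent.helper14.RW
open Pool.Agent.helper31.A2.Cert.FPP

mutual
theorem c0_t7 : CovD 0 (progs common T) [(56315510784, 7143915520), (343597383680, 343597383680), (1278893015040, 145021648896)] :=
  covR_F chkF_eq T (.n 0 (.n 1 (.n 0 (.l 6) (.l 6)) (.n 1 (.l 6) (.l 6))) (.n 1 (.n 0 (.l 6) (.n 2 (.l 0) (.l 1))) (.n 2 (.n 0 (.l 0) (.n 0 (.l 0) (.l 1))) (.l 1))))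
    [(56315510784, 7143915520), (343597383680, 343597383680), (1278893015040, 145021648896)] rfl (by decide +kernel)
theorem c0_t8 : CovD 0 (progs common T) [(56315510784, 7143915520), (343597383680, 343597383680), (1568936312832, 145021648896)] :=
  covR_F chkF_eq T (.n 0 (.n 0 (.n 2 (.n 1 (.l 6) (.l 6)) (.l 12)) (.n 1 (.l 7) (.l 12))) (.n 1 (.l 7) (.l 12)))
    [(56315510784, 7143915520), (343597383680, 343597383680), (1568936312832, 145021648896)] rfl (by decide +kernel)
end

mutual
theorem c0_t10 : CovD 0 (progs common T) [(56315510784, 7143915520), (1030792151040, 343597383680), (1278893015040, 145021648896)] :=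
  covR_F chkF_eq T (.n 0 (.n 1 (.n 1 (.n 2 (.l 0) (.l 1)) (.n 0 (.n 0 (.l 0) (.l 1)) (.l 1))) (.n 0 (.l 7) (.l 7))) (.n 1 (.n 1 (.l 1) (.l 1)) (.l 7)))
    [(56315510784, 7143915520), (1030792151040, 343597383680), (1278893015040, 145021648896)] rfl (by decide +kernel)
theorem c0_t11 : CovD 0 (progs common T) [(56315510784, 7143915520), (1030792151040, 343597383680), (1568936312832, 145021648896)] :=
  covR_F chkF_eq T (.n 0 (.n 1 (.l 12) (.l 7)) (.n 1 (.n 1 (.l 7) (.l 7)) (.n 0 (.n 1 (.l 7) (.l 8)) (.l 8))))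
    [(56315510784, 7143915520), (1030792151040, 343597383680), (1568936312832, 145021648896)] rfl (by decide +kernel)
end

mutual
theorem c0_t12 : CovD 0 (progs common T) [(56315510784, 7143915520), (687194767360, 687194767360), (2004001259520, 290043297792)] :=
  covR_F chkF_eq T (.n 1 (.n 2 (.n 0 (.l 17) (.n 2 (.l 12) (.l 13))) (.n 0 (.n 0 (.l 17) (.l 18)) (.l 18))) (.n 2 (.n 0 (.n 1 (.l 12) (.n 0 (.n 0 (.l 12) (.l 13)) (.l 13))) (.n 1 (.l 13) (.l 13))) (.n 0 (.n 1 (.l 18) (.l 18)) (.n 1 (.l 18) (.l 18)))))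
    [(56315510784, 7143915520), (687194767360, 687194767360), (2004001259520, 290043297792)] rfl (by decide +kernel)
theorem c0_t15 : CovD 0 (progs common T) [(56315510784, 7143915520), (1717986918400, 343597383680), (1423914663936, 290043297792)] :=
  covR_F chkF_eq T (.n 2 (.n 0 (.n 1 (.l 1) (.n 0 (.l 2) (.l 2))) (.n 1 (.n 1 (.l 2) (.l 2)) (.l 2))) (.n 0 (.n 1 (.n 0 (.l 7) (.l 8)) (.l 8)) (.n 0 (.l 13) (.l 13))))
    [(56315510784, 7143915520), (1717986918400, 343597383680), (1423914663936, 290043297792)] rfl (by decide +kernel)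
end

mutual
theorem c0_t16 : CovD 0 (progs common T) [(56315510784, 7143915520), (2405181685760, 343597383680), (1423914663936, 290043297792)] :=
  covR_F chkF_eq T (.n 2 (.n 0 (.l 8) (.n 1 (.l 2) (.l 3))) (.n 0 (.n 0 (.l 13) (.n 1 (.l 8) (.l 9))) (.n 1 (.l 9) (.l 9))))
    [(56315510784, 7143915520), (2405181685760, 343597383680), (1423914663936, 290043297792)] rfl (by decide +kernel)
theorem c0_t17 : CovD 0 (progs common T) [(56315510784, 7143915520), (2061584302080, 687194767360), (2004001259520, 290043297792)] :=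
  covR_F chkF_eq T (.n 1 (.n 2 (.n 0 (.n 0 (.l 18) (.l 18)) (.n 0 (.l 18) (.n 1 (.l 13) (.l 14)))) (.n 0 (.n 1 (.l 18) (.l 18)) (.n 1 (.n 0 (.l 18) (.l 19)) (.l 19)))) (.n 2 (.n 0 (.n 1 (.l 13) (.l 14)) (.l 19)) (.n 0 (.n 0 (.l 19) (.l 19)) (.l 19))))
    [(56315510784, 7143915520), (2061584302080, 687194767360), (2004001259520, 290043297792)] rfl (by decide +kernel)
end

mutual
theorem c0_t20 : CovD 0 (progs common T) [(56315510784, 7143915520), (687194767360, 687194767360), (2584087855104, 290043297792)] :=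
  covR_F chkF_eq T (.n 1 (.n 2 (.n 0 (.l 22) (.l 22)) (.n 0 (.l 26) (.l 27))) (.n 2 (.n 0 (.l 22) (.n 0 (.l 22) (.l 23))) (.n 0 (.n 0 (.l 26) (.l 27)) (.l 27))))
    [(56315510784, 7143915520), (687194767360, 687194767360), (2584087855104, 290043297792)] rfl (by decide +kernel)
theorem c0_t21 : CovD 0 (progs common T) [(56315510784, 7143915520), (687194767360, 687194767360), (3164174450688, 290043297792)] :=
  covR_F chkF_eq T (.n 1 (.n 2 (.n 0 (.l 30) (.l 30)) (.n 0 (.l 34) (.l 34))) (.n 2 (.n 0 (.l 30) (.l 30)) (.n 0 (.l 34) (.l 34))))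
    [(56315510784, 7143915520), (687194767360, 687194767360), (3164174450688, 290043297792)] rfl (by decide +kernel)
end

mutual
theorem c0_t23 : CovD 0 (progs common T) [(56315510784, 7143915520), (2061584302080, 687194767360), (2584087855104, 290043297792)] :=
  covR_F chkF_eq T (.n 1 (.n 2 (.n 0 (.n 1 (.l 22) (.l 23)) (.l 23)) (.n 0 (.n 0 (.l 27) (.l 27)) (.l 27))) (.n 2 (.n 0 (.l 23) (.l 23)) (.n 0 (.l 27) (.n 0 (.l 27) (.l 28)))))
    [(56315510784, 7143915520), (2061584302080, 687194767360), (2584087855104, 290043297792)] rfl (by decide +kernel)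
theorem c0_t24 : CovD 0 (progs common T) [(56315510784, 7143915520), (2061584302080, 687194767360), (3164174450688, 290043297792)] :=
  covR_F chkF_eq T (.n 1 (.n 2 (.n 0 (.l 30) (.l 30)) (.n 0 (.l 34) (.n 0 (.l 34) (.l 35)))) (.n 2 (.n 0 (.l 30) (.l 31)) (.n 0 (.l 34) (.l 35))))
    [(56315510784, 7143915520), (2061584302080, 687194767360), (3164174450688, 290043297792)] rfl (by decide +kernel)
end

mutual
theorem c0_t28 : CovD 0 (progs common T) [(56315510784, 7143915520), (3435973836800, 687194767360), (1423914663936, 290043297792)] :=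
  covR_F chkF_eq T (.n 1 (.n 2 (.n 0 (.l 3) (.l 9)) (.n 0 (.l 9) (.l 9))) (.n 2 (.n 0 (.l 3) (.l 4)) (.n 0 (.l 9) (.l 10))))
    [(56315510784, 7143915520), (3435973836800, 687194767360), (1423914663936, 290043297792)] rfl (by decide +kernel)
theorem c0_t29 : CovD 0 (progs common T) [(56315510784, 7143915520), (3435973836800, 687194767360), (2004001259520, 290043297792)] :=
  covR_F chkF_eq T (.n 1 (.n 2 (.n 0 (.l 14) (.n 1 (.l 14) (.l 14))) (.n 0 (.l 19) (.n 0 (.l 19) (.l 20)))) (.n 2 (.n 0 (.n 0 (.l 14) (.l 15)) (.l 15)) (.n 0 (.n 0 (.l 19) (.l 20)) (.l 20))))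
    [(56315510784, 7143915520), (3435973836800, 687194767360), (2004001259520, 290043297792)] rfl (by decide +kernel)
end

mutual
theorem c0_t30 : CovD 0 (progs common T) [(56315510784, 7143915520), (4810363371520, 687194767360), (1713957961728, 580086595584)] :=
  covR_F chkF_eq T (.n 2 (.n 1 (.n 2 (.n 0 (.l 4) (.l 4)) (.n 0 (.l 10) (.l 10))) (.n 2 (.n 0 (.l 4) (.l 5)) (.n 0 (.l 10) (.l 11)))) (.n 1 (.n 2 (.n 0 (.l 15) (.l 15)) (.n 0 (.l 20) (.l 20))) (.n 2 (.n 0 (.l 15) (.l 16)) (.n 0 (.l 20) (.l 21)))))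
    [(56315510784, 7143915520), (4810363371520, 687194767360), (1713957961728, 580086595584)] rfl (by decide +kernel)
theorem c0_t33 : CovD 0 (progs common T) [(56315510784, 7143915520), (3435973836800, 687194767360), (2584087855104, 290043297792)] :=
  covR_F chkF_eq T (.n 1 (.n 2 (.n 0 (.l 23) (.l 24)) (.n 0 (.l 27) (.l 28))) (.n 2 (.n 0 (.l 24) (.l 24)) (.n 0 (.l 28) (.l 28))))
    [(56315510784, 7143915520), (3435973836800, 687194767360), (2584087855104, 290043297792)] rfl (by decide +kernel)
end

mutual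
theorem c0_t34 : CovD 0 (progs common T) [(56315510784, 7143915520), (3435973836800, 687194767360), (3164174450688, 290043297792)] :=
  covR_F chkF_eq T (.n 1 (.n 2 (.n 0 (.n 0 (.l 30) (.l 31)) (.l 31)) (.n 0 (.l 35) (.l 35))) (.n 2 (.n 0 (.l 31) (.l 31)) (.n 0 (.l 35) (.l 35))))
    [(56315510784, 7143915520), (3435973836800, 687194767360), (3164174450688, 290043297792)] rfl (by decide +kernel)
theorem c0_t35 : CovD 0 (progs common T) [(56315510784, 7143915520), (4810363371520, 687194767360), (2874131152896, 580086595584)] :=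
  covR_F chkF_eq T (.n 2 (.n 1 (.n 2 (.n 0 (.l 24) (.l 24)) (.n 0 (.l 28) (.l 29))) (.n 2 (.n 0 (.l 24) (.l 25)) (.n 0 (.l 28) (.l 29)))) (.n 1 (.n 2 (.n 0 (.l 31) (.l 32)) (.n 0 (.l 35) (.l 36))) (.n 2 (.n 0 (.l 32) (.l 32)) (.n 0 (.l 36) (.l 36)))))
    [(56315510784, 7143915520), (4810363371520, 687194767360), (2874131152896, 580086595584)] rfl (by decide +kernel)
end

mutual
theorem c0_t41 : CovD 0 (progs common T) [(70603341824, 7143915520), (343597383680, 343597383680), (1423914663936, 290043297792)] :=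
  covR_F chkF_eq T (.n 2 (.n 0 (.n 1 (.n 2 (.n 0 (.l 0) (.l 1)) (.l 1)) (.n 2 (.l 1) (.l 1))) (.n 1 (.n 1 (.l 7) (.l 7)) (.n 1 (.l 7) (.l 7)))) (.n 0 (.n 1 (.l 7) (.n 2 (.l 7) (.l 8))) (.n 1 (.n 2 (.l 7) (.l 8)) (.n 0 (.l 13) (.l 13)))))
    [(70603341824, 7143915520), (343597383680, 343597383680), (1423914663936, 290043297792)] rfl (by decide +kernel)
theorem c0_t42 : CovD 0 (progs common T) [(70603341824, 7143915520), (1030792151040, 343597383680), (1423914663936, 290043297792)] :=
  covR_F chkF_eq T (.n 2 (.n 0 (.n 1 (.n 1 (.l 1) (.l 1)) (.n 0 (.n 1 (.l 1) (.l 2)) (.l 8))) (.n 1 (.n 2 (.n 1 (.l 1) (.l 1)) (.l 2)) (.l 8))) (.n 0 (.n 1 (.n 0 (.n 1 (.l 8) (.l 8)) (.l 13)) (.l 8)) (.n 1 (.l 13) (.l 8))))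
    [(70603341824, 7143915520), (1030792151040, 343597383680), (1423914663936, 290043297792)] rfl (by decide +kernel)
end

mutual
theorem c0_t44 : CovD 0 (progs common T) [(70603341824, 7143915520), (343597383680, 343597383680), (2004001259520, 290043297792)] :=
  covR_F chkF_eq T (.n 2 (.n 0 (.n 1 (.l 13) (.l 13)) (.n 1 (.l 13) (.l 13))) (.n 0 (.n 1 (.l 18) (.l 18)) (.n 1 (.l 19) (.l 19))))
    [(70603341824, 7143915520), (343597383680, 343597383680), (2004001259520, 290043297792)] rfl (by decide +kernel)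
theorem c0_t45 : CovD 0 (progs common T) [(70603341824, 7143915520), (1030792151040, 343597383680), (2004001259520, 290043297792)] :=
  covR_F chkF_eq T (.n 2 (.n 0 (.n 1 (.l 13) (.l 13)) (.n 1 (.l 13) (.n 0 (.l 14) (.l 14)))) (.n 0 (.n 1 (.l 18) (.l 19)) (.n 1 (.l 19) (.l 19))))
    [(70603341824, 7143915520), (1030792151040, 343597383680), (2004001259520, 290043297792)] rfl (by decide +kernel)
end

mutual
theorem c0_t47 : CovD 0 (progs common T) [(70603341824, 7143915520), (2061584302080, 687194767360), (1423914663936, 290043297792)] :=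
  covR_F chkF_eq T (.n 1 (.n 2 (.n 0 (.n 1 (.l 2) (.l 2)) (.n 1 (.l 2) (.l 3))) (.n 0 (.n 1 (.l 8) (.l 9)) (.n 1 (.n 0 (.l 9) (.l 9)) (.l 9)))) (.n 2 (.n 0 (.n 0 (.l 9) (.l 9)) (.l 9)) (.n 0 (.l 14) (.n 1 (.l 9) (.l 9)))))
    [(70603341824, 7143915520), (2061584302080, 687194767360), (1423914663936, 290043297792)] rfl (by decide +kernel)
theorem c0_t48 : CovD 0 (progs common T) [(70603341824, 7143915520), (2061584302080, 687194767360), (2004001259520, 290043297792)] :=
  covR_F chkF_eq T (.n 1 (.n 2 (.n 0 (.n 0 (.n 1 (.l 13) (.l 14)) (.l 19)) (.l 19)) (.n 0 (.n 1 (.l 19) (.l 19)) (.n 1 (.l 19) (.l 19)))) (.n 2 (.n 0 (.l 19) (.n 1 (.l 14) (.l 15))) (.n 0 (.n 1 (.l 19) (.l 20)) (.l 20))))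
    [(70603341824, 7143915520), (2061584302080, 687194767360), (2004001259520, 290043297792)] rfl (by decide +kernel)
end

mutual
theorem c0_t51 : CovD 0 (progs common T) [(70603341824, 7143915520), (687194767360, 687194767360), (2584087855104, 290043297792)] :=
  covR_F chkF_eq T (.n 1 (.n 2 (.n 0 (.l 23) (.l 23)) (.n 0 (.l 27) (.n 1 (.l 27) (.l 27)))) (.n 2 (.n 0 (.l 23) (.l 23)) (.n 0 (.l 27) (.n 0 (.l 27) (.l 28)))))
    [(70603341824, 7143915520), (687194767360, 687194767360), (2584087855104, 290043297792)] rfl (by decide +kernel)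
theorem c0_t52 : CovD 0 (progs common T) [(70603341824, 7143915520), (687194767360, 687194767360), (3164174450688, 290043297792)] :=
  covR_F chkF_eq T (.n 1 (.n 2 (.n 0 (.l 30) (.n 1 (.l 30) (.l 31))) (.n 0 (.l 34) (.n 1 (.l 35) (.l 35)))) (.n 2 (.n 0 (.l 30) (.l 31)) (.n 0 (.l 35) (.n 1 (.l 35) (.l 35)))))
    [(70603341824, 7143915520), (687194767360, 687194767360), (3164174450688, 290043297792)] rfl (by decide +kernel)
end

mutual
theorem c0_t54 : CovD 0 (progs common T) [(70603341824, 7143915520), (2061584302080, 687194767360), (2584087855104, 290043297792)] :=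
  covR_F chkF_eq T (.n 1 (.n 2 (.n 0 (.l 23) (.n 0 (.l 23) (.l 24))) (.n 0 (.n 0 (.l 27) (.l 28)) (.l 28))) (.n 2 (.n 0 (.n 0 (.l 24) (.l 24)) (.l 24)) (.n 0 (.l 28) (.l 28))))
    [(70603341824, 7143915520), (2061584302080, 687194767360), (2584087855104, 290043297792)] rfl (by decide +kernel)
theorem c0_t55 : CovD 0 (progs common T) [(70603341824, 7143915520), (2061584302080, 687194767360), (3164174450688, 290043297792)] :=
  covR_F chkF_eq T (.n 1 (.n 2 (.n 0 (.l 31) (.l 31)) (.n 0 (.n 1 (.l 35) (.l 35)) (.n 1 (.l 35) (.l 35)))) (.n 2 (.n 0 (.l 31) (.l 31)) (.n 0 (.l 35) (.n 1 (.l 35) (.l 35)))))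
    [(70603341824, 7143915520), (2061584302080, 687194767360), (3164174450688, 290043297792)] rfl (by decide +kernel)
end

mutual
theorem c0_t59 : CovD 0 (progs common T) [(70603341824, 7143915520), (3435973836800, 687194767360), (1423914663936, 290043297792)] :=
  covR_F chkF_eq T (.n 1 (.n 2 (.n 0 (.n 0 (.l 9) (.l 10)) (.l 10)) (.n 0 (.n 0 (.l 10) (.l 10)) (.l 10))) (.n 2 (.n 0 (.l 4) (.l 4)) (.n 0 (.l 10) (.l 10))))
    [(70603341824, 7143915520), (3435973836800, 687194767360), (1423914663936, 290043297792)] rfl (by decide +kernel)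
theorem c0_t60 : CovD 0 (progs common T) [(70603341824, 7143915520), (3435973836800, 687194767360), (2004001259520, 290043297792)] :=
  covR_F chkF_eq T (.n 1 (.n 2 (.n 0 (.l 15) (.l 15)) (.n 0 (.l 20) (.l 20))) (.n 2 (.n 0 (.l 15) (.n 0 (.l 15) (.l 16))) (.n 0 (.l 20) (.l 21))))
    [(70603341824, 7143915520), (3435973836800, 687194767360), (2004001259520, 290043297792)] rfl (by decide +kernel)
end

mutual
theorem c0_t61 : CovD 0 (progs common T) [(70603341824, 7143915520), (4810363371520, 687194767360), (1713957961728, 580086595584)] :=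
  covR_F chkF_eq T (.n 2 (.n 1 (.n 2 (.n 0 (.l 4) (.l 5)) (.n 0 (.l 11) (.l 11))) (.n 2 (.n 0 (.l 5) (.l 5)) (.n 0 (.l 11) (.l 11)))) (.n 1 (.n 2 (.n 0 (.l 16) (.l 16)) (.n 0 (.l 21) (.l 21))) (.n 2 (.n 0 (.l 16) (.l 16)) (.n 0 (.l 21) (.l 21)))))
    [(70603341824, 7143915520), (4810363371520, 687194767360), (1713957961728, 580086595584)] rfl (by decide +kernel)
theorem c0_t64 : CovD 0 (progs common T) [(70603341824, 7143915520), (3435973836800, 687194767360), (2584087855104, 290043297792)] :=
  covR_F chkF_eq T (.n 1 (.n 2 (.n 0 (.l 24) (.l 24)) (.n 0 (.l 28) (.l 28))) (.n 2 (.n 0 (.l 24) (.l 25)) (.n 0 (.n 0 (.l 28) (.l 29)) (.l 29))))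
    [(70603341824, 7143915520), (3435973836800, 687194767360), (2584087855104, 290043297792)] rfl (by decide +kernel)
end

mutual
theorem c0_t65 : CovD 0 (progs common T) [(70603341824, 7143915520), (3435973836800, 687194767360), (3164174450688, 290043297792)] :=
  covR_F chkF_eq T (.n 1 (.n 2 (.n 0 (.l 31) (.l 32)) (.n 0 (.l 35) (.n 1 (.l 36) (.l 36)))) (.n 2 (.n 0 (.l 32) (.l 32)) (.n 0 (.l 36) (.n 1 (.l 36) (.l 36)))))
    [(70603341824, 7143915520), (3435973836800, 687194767360), (3164174450688, 290043297792)] rfl (by decide +kernel)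
theorem c0_t67 : CovD 0 (progs common T) [(70603341824, 7143915520), (4810363371520, 687194767360), (2584087855104, 290043297792)] :=
  covR_F chkF_eq T (.n 1 (.n 2 (.n 0 (.l 25) (.l 25)) (.n 0 (.l 29) (.l 29))) (.n 2 (.n 0 (.l 25) (.l 25)) (.n 0 (.l 29) (.l 29))))
    [(70603341824, 7143915520), (4810363371520, 687194767360), (2584087855104, 290043297792)] rfl (by decide +kernel)
end

theorem c0_t68 : CovD 0 (progs common T) [(70603341824, 7143915520), (4810363371520, 687194767360), (3164174450688, 290043297792)] :=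
  covR_F chkF_eq T (.n 1 (.n 2 (.n 0 (.l 32) (.l 32)) (.n 0 (.l 36) (.n 1 (.l 36) (.l 36)))) (.n 2 (.n 0 (.l 32) (.l 33)) (.n 0 (.l 36) (.n 1 (.l 36) (.n 1 (.l 37) (.l 37))))))
    [(70603341824, 7143915520), (4810363371520, 687194767360), (3164174450688, 290043297792)] rfl (by decide +kernel)

theorem c0_t6 : CovD 0 (progs common T) [(56315510784, 7143915520), (343597383680, 343597383680), (1423914663936, 290043297792)] :=
  covD_split 2 (by decide +kernel) c0_t7 c0_t8

theorem c0_t9 : CovD 0 (progs common T) [(56315510784, 7143915520), (1030792151040, 343597383680), (1423914663936, 290043297792)] :=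
  covD_split 2 (by decide +kernel) c0_t10 c0_t11

theorem c0_t5 : CovD 0 (progs common T) [(56315510784, 7143915520), (687194767360, 687194767360), (1423914663936, 290043297792)] :=
  covD_split 1 (by decide +kernel) c0_t6 c0_t9

theorem c0_t4 : CovD 0 (progs common T) [(56315510784, 7143915520), (687194767360, 687194767360), (1713957961728, 580086595584)] :=
  covD_split 2 (by decide +kernel) c0_t5 c0_t12

theorem c0_t14 : CovD 0 (progs common T) [(56315510784, 7143915520), (2061584302080, 687194767360), (1423914663936, 290043297792)] :=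
  covD_split 1 (by decide +kernel) c0_t15 c0_t16

theorem c0_t13 : CovD 0 (progs common T) [(56315510784, 7143915520), (2061584302080, 687194767360), (1713957961728, 580086595584)] :=
  covD_split 2 (by decide +kernel) c0_t14 c0_t17

theorem c0_t3 : CovD 0 (progs common T) [(56315510784, 7143915520), (1374389534720, 1374389534720), (1713957961728, 580086595584)] :=
  covD_split 1 (by decide +kernel) c0_t4 c0_t13

theorem c0_t19 : CovD 0 (progs common T) [(56315510784, 7143915520), (687194767360, 687194767360), (2874131152896, 580086595584)] :=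
  covD_split 2 (by decide +kernel) c0_t20 c0_t21

theorem c0_t22 : CovD 0 (progs common T) [(56315510784, 7143915520), (2061584302080, 687194767360), (2874131152896, 580086595584)] :=
  covD_split 2 (by decide +kernel) c0_t23 c0_t24

theorem c0_t18 : CovD 0 (progs common T) [(56315510784, 7143915520), (1374389534720, 1374389534720), (2874131152896, 580086595584)] :=
  covD_split 1 (by decide +kernel) c0_t19 c0_t22

theorem c0_t2 : CovD 0 (progs common T) [(56315510784, 7143915520), (1374389534720, 1374389534720), (2294044557312, 1160173191168)] :=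
  covD_split 2 (by decide +kernel) c0_t3 c0_t18

theorem c0_t27 : CovD 0 (progs common T) [(56315510784, 7143915520), (3435973836800, 687194767360), (1713957961728, 580086595584)] :=
  covD_split 2 (by decide +kernel) c0_t28 c0_t29

theorem c0_t26 : CovD 0 (progs common T) [(56315510784, 7143915520), (4123168604160, 1374389534720), (1713957961728, 580086595584)] :=
  covD_split 1 (by decide +kernel) c0_t27 c0_t30

theorem c0_t32 : CovD 0 (progs common T) [(56315510784, 7143915520), (3435973836800, 687194767360), (2874131152896, 580086595584)] :=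
  covD_split 2 (by decide +kernel) c0_t33 c0_t34

theorem c0_t31 : CovD 0 (progs common T) [(56315510784, 7143915520), (4123168604160, 1374389534720), (2874131152896, 580086595584)] :=
  covD_split 1 (by decide +kernel) c0_t32 c0_t35

theorem c0_t25 : CovD 0 (progs common T) [(56315510784, 7143915520), (4123168604160, 1374389534720), (2294044557312, 1160173191168)] :=
  covD_split 2 (by decide +kernel) c0_t26 c0_t31

theorem c0_t1 : CovD 0 (progs common T) [(56315510784, 7143915520), (2748779069440, 2748779069440), (2294044557312, 1160173191168)] :=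
  covD_split 1 (by decide +kernel) c0_t2 c0_t25

theorem c0_t40 : CovD 0 (progs common T) [(70603341824, 7143915520), (687194767360, 687194767360), (1423914663936, 290043297792)] :=
  covD_split 1 (by decide +kernel) c0_t41 c0_t42

theorem c0_t43 : CovD 0 (progs common T) [(70603341824, 7143915520), (687194767360, 687194767360), (2004001259520, 290043297792)] :=
  covD_split 1 (by decide +kernel) c0_t44 c0_t45

theorem c0_t39 : CovD 0 (progs common T) [(70603341824, 7143915520), (687194767360, 687194767360), (1713957961728, 580086595584)] :=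
  covD_split 2 (by decide +kernel) c0_t40 c0_t43

theorem c0_t46 : CovD 0 (progs common T) [(70603341824, 7143915520), (2061584302080, 687194767360), (1713957961728, 580086595584)] :=
  covD_split 2 (by decide +kernel) c0_t47 c0_t48

theorem c0_t38 : CovD 0 (progs common T) [(70603341824, 7143915520), (1374389534720, 1374389534720), (1713957961728, 580086595584)] :=
  covD_split 1 (by decide +kernel) c0_t39 c0_t46

theorem c0_t50 : CovD 0 (progs common T) [(70603341824, 7143915520), (687194767360, 687194767360), (2874131152896, 580086595584)] :=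
  covD_split 2 (by decide +kernel) c0_t51 c0_t52

theorem c0_t53 : CovD 0 (progs common T) [(70603341824, 7143915520), (2061584302080, 687194767360), (2874131152896, 580086595584)] :=
  covD_split 2 (by decide +kernel) c0_t54 c0_t55

theorem c0_t49 : CovD 0 (progs common T) [(70603341824, 7143915520), (1374389534720, 1374389534720), (2874131152896, 580086595584)] :=
  covD_split 1 (by decide +kernel) c0_t50 c0_t53

theorem c0_t37 : CovD 0 (progs common T) [(70603341824, 7143915520), (1374389534720, 1374389534720), (2294044557312, 1160173191168)] :=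
  covD_split 2 (by decide +kernel) c0_t38 c0_t49

theorem c0_t58 : CovD 0 (progs common T) [(70603341824, 7143915520), (3435973836800, 687194767360), (1713957961728, 580086595584)] :=
  covD_split 2 (by decide +kernel) c0_t59 c0_t60

theorem c0_t57 : CovD 0 (progs common T) [(70603341824, 7143915520), (4123168604160, 1374389534720), (1713957961728, 580086595584)] :=
  covD_split 1 (by decide +kernel) c0_t58 c0_t61

theorem c0_t63 : CovD 0 (progs common T) [(70603341824, 7143915520), (3435973836800, 687194767360), (2874131152896, 580086595584)] :=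
  covD_split 2 (by decide +kernel) c0_t64 c0_t65

theorem c0_t66 : CovD 0 (progs common T) [(70603341824, 7143915520), (4810363371520, 687194767360), (2874131152896, 580086595584)] :=
  covD_split 2 (by decide +kernel) c0_t67 c0_t68

theorem c0_t62 : CovD 0 (progs common T) [(70603341824, 7143915520), (4123168604160, 1374389534720), (2874131152896, 580086595584)] :=
  covD_split 1 (by decide +kernel) c0_t63 c0_t66

theorem c0_t56 : CovD 0 (progs common T) [(70603341824, 7143915520), (4123168604160, 1374389534720), (2294044557312, 1160173191168)] :=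
  covD_split 2 (by decide +kernel) c0_t57 c0_t62

theorem c0_t36 : CovD 0 (progs common T) [(70603341824, 7143915520), (2748779069440, 2748779069440), (2294044557312, 1160173191168)] :=
  covD_split 1 (by decide +kernel) c0_t37 c0_t56

theorem c0 : CovD 0 (progs common T) [(63459426304, 14287831040), (2748779069440, 2748779069440), (2294044557312, 1160173191168)] :=
  covD_split 0 (by decide +kernel) c0_t1 c0_t36

end Pool.Agent.helper31.A2.Cert.FPQ
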