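import Pool.Agent.helper14.RW.Eng

/-!
Generated: a program with a row of constants, and its compiled form.
-/

namespace Pool.Agent.helper31.A2.Cert.FTP

open Pool.Agent.helper31.IA (Z Op)
open Pool.Agent.helper31.IC (Ops runG TD CovD covD_split)
open Pool.Agent.helper14.RW

set_option maxRecDepth 100000

/-- a row: the numbers times `2^40`; `x_m`: minus the negative part -/
structure Row where
  ys : Nat
  wa : Nat
  wb : Nat
  lc0 : Nat
  lc1 : Nat
  aS : Nat
  cD : Nat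
  o0 : Nat
  p0 : Nat
  p0_m : Nat
  o1 : Nat
  p1 : Nat
  p1_m : Nat
  RH1 : Nat
  RH : Nat
  RHq : Nat
  exK : Nat
  x0 : Nat
  xa : Nat
  xb : Nat
  Lam0 : Nat
  Y0 : Nat
  a0 : Nat
  tha : Nat
deriving DecidableEq

def common (r : Row) : List Op := [
  .const ⟨1099511627776, 0, 0, 0⟩,
  .mul 1 1,
  .mul 3 3,
  .mul 5 5,
  .add 1 0,
  .log 0,
  .scale ⟨549755813888, 0, 0, 0⟩ 0,
  .exp 0,
  .neg 1,
  .exp 0,
  .mul 11 0,
  .mul 13 1,
  .mul 12 4,
  .const ⟨r.ys, 0, 0, 0⟩,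
  .sub 0 16,
  .pos 0,
  .const ⟨r.wa, 0, 0, 0⟩,
  .sub 3 0,
  .pos 0,
  .const ⟨r.wb, 0, 0, 0⟩,
  .sub 0 5,
  .pos 0,
  .mul 6 6,
  .mul 7 20,
  .mul 22 19,
  .mul 0 0,
  .mul 1 24,
  .mul 0 24,
  .scale ⟨549755813888, 0, 0, 0⟩ 26,
  .neg 27,
  .exp 0,
  .add 0 27,
  .log 0,
  .add 4 0,
  .const ⟨r.lc0, 0, 0, 0⟩,
  .add 1 0,
  .mul 33 0,
  .scale ⟨r.lc1, 0, 0, 0⟩ 24,
  .add 1 0,
  .mul 36 38,
  .mul 1 1,
  .mul 1 1,
  .add 1 0,
  .log 0,
  .scale ⟨549755813888, 0, 0, 0⟩ 0,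
  .exp 0,
  .scale ⟨274877906944, 0, 0, 0⟩ 4,
  .add 6 0,
  .log 0,
  .scale ⟨549755813888, 0, 0, 0⟩ 0,
  .exp 0,
  .const ⟨4398046511104, 0, 0, 0⟩,
  .add 50 0,
  .inv 0,
  .scale ⟨r.aS, 0, 0, 0⟩ 0,
  .scale ⟨4398046511104, 0, 0, 0⟩ 0,
  .mul 45 0,
  .mul 34 52,
  .mul 55 12,
  .scale ⟨r.cD, 0, 0, 0⟩ 54,
  .add 1 0,
  .exp 0,
  .mul 0 0,
  .neg 2,
  .const ⟨61083746304, 0, 0, 0⟩,
  .add 1 0,
  .pos 0,
  .scale ⟨1759219023872, 0, 0, 0⟩ 43,
  .scale ⟨2748779069440, 0, 0, 0⟩ 66,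
  .add 1 0,
  .mul 0 64,
  .scale ⟨274877906944, 0, 0, 0⟩ 44,
  .sub 67 0,
  .mul 13 26,
  .scale ⟨549755813888, 0, 0, 0⟩ 0,
  .scale ⟨157073539072, 0, 0, 0⟩ 46,
  .add 1 0,
  .mul 14 0,
  .add 26 0,
  .mul 63 0,
  .scale ⟨1649267441664, 0, 0, 0⟩ 16,
  .const ⟨1649267441664, 0, 0, 0⟩,
  .sub 1 0,
  .scale ⟨824633720832, 0, 0, 0⟩ 56,
  .add 1 0,
  .mul 83 79,
  .add 1 0,
  .add 0 16,
  .mul 71 0,
  .add 9 0,
  .mul 88 74,
  .mul 0 85,
  .scale ⟨137438953472, 0, 0, 0⟩ 0,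
  .mul 64 0,
  .add 4 0,
  .mul 0 91,
  .const ⟨3298534883328, 0, 0, 0⟩,
  .sub 0 16,
  .mul 25 0,
  .mul 84 84,
  .scale ⟨549755813888, 0, 0, 0⟩ 0,
  .sub 2 0,
  .mul 86 86,
  .mul 0 40,
  .sub 2 0,
  .sub 0 34,
  .mul 33 5,
  .sub 26 0,
  .add 0 37,
  .mul 41 103,
  .scale ⟨1121502363648, 0, 0, 0⟩ 0,
  .add 106 0,
  .mul 53 48,
  .scale ⟨2199023255552, 0, 0, 0⟩ 0,
  .add 2 0,
  .mul 99 0,
  .mul 91 45,
  .add 1 0,
  .mul 12 93,
  .mul 1 1,
  .add 20 0,
  .scale ⟨1098437885952, 0, 0, 0⟩ 15,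
  .mul 3 3,
  .add 2 0,
  .inv 0,
  .mul 3 0,
  .neg 0,
  .add 0 122,
  .pos 0,
  .mul 25 69,
  .scale ⟨2199023255552, 0, 0, 0⟩ 0,
  .sub 125 0,
  .sub 0 35,
  .mul 36 36,
  .sub 1 0,
  .mul 0 0,
  .pos 1,
  .inv 1,
  .mul 129 130,
  .mul 19 125,
  .scale ⟨1282763915264, 0, 0, 0⟩ 111,
  .mul 133 133,
  .scale ⟨35184372088832, 0, 0, 0⟩ 0,
  .add 2 0,
  .inv 125,
  .mul 0 7,
  .scale ⟨r.o0, 0, 0, 0⟩ 0,
  .scale ⟨1106574835712, 0, 0, 0⟩ 0,
  .const ⟨r.p0, r.p0_m, 0, 0⟩,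
  .add 1 0,
  .scale ⟨r.o1, 0, 0, 0⟩ 4,
  .scale ⟨1106574835712, 0, 0, 0⟩ 0,
  .const ⟨r.p1, r.p1_m, 0, 0⟩,
  .add 1 0,
  .pos 4,
  .pos 0,
  .scale ⟨1090049277952, 0, 0, 0⟩ 26,
  .mul 0 129,
  .mul 0 19,
  .scale ⟨2199023255552, 0, 0, 0⟩ 17,
  .add 19 0,
  .sub 152 15,
  .mul 1 10,
  .mul 0 153,
  .sub 2 0,
  .scale ⟨3298534883328, 0, 0, 0⟩ 155,
  .mul 156 14,
  .scale ⟨2199023255552, 0, 0, 0⟩ 0,
  .add 2 0,
  .mul 0 10,
  .sub 5 0,
  .mul 2 143,
  .scale ⟨10995116277760, 0, 0, 0⟩ 0,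
  .sub 2 0,
  .pos 0,
  .mul 3 15,
  .neg 0,
  .exp 0,
  .sub 168 115,
  .pos 0,
  .inv 0,
  .scale ⟨549755813888, 0, 0, 0⟩ 117,
  .add 171 0,
  .mul 119 119,
  .mul 0 3,
  .scale ⟨366504574976, 0, 0, 0⟩ 0,
  .add 3 0,
  .mul 8 123,
  .scale ⟨549755813888, 0, 0, 0⟩ 0,
  .add 178 0,
  .mul 2 2,
  .sub 180 3,
  .inv 0,
  .mul 2 0,
  .scale ⟨366504574976, 0, 0, 0⟩ 0,
  .add 5 0,
  .mul 95 173,
  .mul 0 39,
  .add 1 0,
  .mul 135 12,
  .add 1 0,
  .mul 4 47,
  .mul 14 6,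
  .add 1 0,
  .mul 102 46,
  .add 0 103,
  .mul 143 19,
  .add 1 0,
  .mul 186 0,
  .neg 8,
  .const ⟨r.cD, 0, 0, 0⟩,
  .add 1 0,
  .pos 0,
  .neg 8,
  .add 0 2,
  .pos 0,
  .scale ⟨1165482786816, 0, 0, 0⟩ 144,
  .scale ⟨2199023255552, 0, 0, 0⟩ 14,
  .add 0 12,
  .mul 205 0,
  .add 9 0,
  .mul 4 0,
  .mul 0 189,
  .mul 0 79,
  .sub 211 0,
  .pos 0,
  .scale ⟨2199023255552, 0, 0, 0⟩ 1,
  .neg 0,
  .const ⟨1085552984064, 0, 0, 0⟩,
  .add 1 0,
  .sub 100 216,
  .scale ⟨549755813888, 0, 0, 0⟩ 0,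
  .add 0 218,
  .add 0 128,
  .add 0 10,
  .mul 0 0,
  .const ⟨r.RH1, 0, 0, 0⟩,
  .add 132 223,
  .mul 0 0,
  .sub 2 0,
  .pos 0,
  .const ⟨r.RH, 0, 0, 0⟩,
  .sub 0 123,
  .sub 0 19,
  .sub 0 7,
  .pos 0,
  .mul 100 14,
  .scale ⟨10995116277760, 0, 0, 0⟩ 0,
  .sub 0 5,
  .pos 0,
  .scale ⟨989560045568, 0, 0, 0⟩ 2,
  .scale ⟨r.RHq, 0, 0, 0⟩ 180,
  .sub 1 0,
  .pos 0,
  .scale ⟨11941082824704, 0, 0, 0⟩ 5,
  .sub 0 10,
  .sub 0 16,
  .pos 0,
  .pos 112,
  .mul 109 27,
  .inv 0,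
  .mul 32 0,
  .scale ⟨r.exK, 0, 0, 0⟩ 0,
  .sub 122 0,
  .const ⟨r.x0, 0, 0, 0⟩,
  .sub 1 0,
  .pos 0,
  .const ⟨r.xa, 0, 0, 0⟩,
  .sub 126 0,
  .pos 0,
  .const ⟨r.xb, 0, 0, 0⟩,
  .sub 5 0,
  .pos 0,
  .sub 149 41,
  .pos 0,
  .sub 251 38,
  .mul 122 0,
  .scale ⟨r.Lam0, 0, 0, 0⟩ 0,
  .sub 0 150,
  .sub 0 46,
  .pos 0,
  .mul 47 237,
  .add 124 0,
  .neg 0,
  .const ⟨r.Y0, 0, 0, 0⟩,
  .add 1 0,
  .pos 0,
  .add 17 261,
  .scale ⟨1090049277952, 0, 0, 0⟩ 0,
  .mul 0 244,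
  .mul 0 134,
  .mul 0 49,
  .scale ⟨1085552984064, 0, 0, 0⟩ 50,
  .mul 248 137,
  .mul 0 1,
  .mul 254 254,
  .sub 1 0,
  .pos 0,
  .mul 259 50,
  .sub 255 0,
  .pos 0,
  .mul 261 49,
  .sub 257 0,
  .pos 0,
  .sub 262 17,
  .pos 0,
  .inv 9,
  .scale ⟨549755813888, 0, 0, 0⟩ 0,
  .const ⟨549755813888, 0, 0, 0⟩,
  .add 1 0,
  .mul 140 0,
  .add 0 139,
  .pos 0,
  .scale ⟨2199023255552, 0, 0, 0⟩ 25,
  .add 131 0,
  .mul 0 2,
  .mul 0 284,
  .sub 133 0,
  .mul 286 5,
  .scale ⟨2199023255552, 0, 0, 0⟩ 0,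
  .add 132 0,
  .mul 0 24,
  .sub 4 0,
  .mul 2 273,
  .scale ⟨12094627905536, 0, 0, 0⟩ 0,
  .sub 2 0,
  .pos 0,
  .mul 3 29,
  .neg 0,
  .exp 0,
  .mul 41 16,
  .add 0 42,
  .mul 90 18,
  .add 0 91,
  .scale ⟨274877906944, 0, 0, 0⟩ 304,
  .add 0 303,
  .mul 2 0,
  .scale ⟨549755813888, 0, 0, 0⟩ 5,
  .sub 306 0,
  .pos 0,
  .inv 0,
  .add 2 308,
  .mul 0 1,
  .mul 206 290,
  .scale ⟨2199023255552, 0, 0, 0⟩ 301,
  .add 1 0,
  .mul 2 0,
  .add 198 0,
  .mul 4 4,
  .add 200 0,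
  .mul 297 0,
  .sub 3 318,
  .scale ⟨549755813888, 0, 0, 0⟩ 0,
  .add 0 320,
  .mul 16 13,
  .mul 12 24,
  .scale ⟨r.a0, 0, 0, 0⟩ 0,
  .add 3 6,
  .add 0 115,
  .mul 2 0,
  .add 5 0,
  .neg 0,
  .const ⟨r.tha, 0, 0, 0⟩,
  .add 1 0,
  .pos 0,
  .scale ⟨3454218010624, 0, 0, 0⟩ 330,
  .mul 0 139,
  .scale ⟨3454218010624, 0, 0, 0⟩ 334,
  .mul 0 287,
  .add 2 0,
  .scale ⟨617925836800, 0, 0, 0⟩ 282,
  .mul 280 280,
  .scale ⟨582741917696, 0, 0, 0⟩ 0,
  .add 2 0,
  .scale ⟨472790335488, 0, 0, 0⟩ 318,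
  .add 1 0,
  .scale ⟨3454218010624, 0, 0, 0⟩ 0,
  .add 7 0,
  .mul 325 290,
  .scale ⟨175922741248, 0, 0, 0⟩ 0,
  .add 2 0,
  .scale ⟨1165482786816, 0, 0, 0⟩ 290,
  .scale ⟨307864010752, 0, 0, 0⟩ 326,
  .add 1 0,
  .mul 218 0,
  .add 4 0,
  .scale ⟨10851745529856, 0, 0, 0⟩ 351,
  .scale ⟨615726972928, 0, 0, 0⟩ 15,
  .scale ⟨329853698048, 0, 0, 0⟩ 332,
  .add 1 0,
  .mul 3 0,
  .add 5 0,
  .scale ⟨1110506995712, 0, 0, 0⟩ 0,
  .add 166 0,
  .neg 0,
  .const ⟨989560045568, 0, 0, 0⟩,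
  .add 1 0,
  .pos 0]

def chk {α : Type} (cst : Z → α) (add sub mul : α → α → α) (scale : Z → α → α)
    (neg inv exp log : α → α) (ok : α → Bool) (isPos : Nat → α → Bool) (_isLt : α → Nat → Bool) :
    Row → List α → Bool
  | ⟨ys, wa, wb, lc0, lc1, aS, cD, o0, p0, p0_m, o1, p1, p1_m, RH1, RH, RHq, exK, x0, xa, xb, Lam0, Y0, a0, tha⟩, [u0, u1, u2] =>
  let v0 := cst ⟨1099511627776, 0, 0, 0⟩; ok v0 && (
  let v1 := mul u0 u0; ok v1 && (
  let v2 := mul u1 u1; ok v2 && (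
  let v3 := mul u2 u2; ok v3 && (
  let v4 := add v2 v3; ok v4 && (
  let v5 := log v4; ok v5 && (
  let v6 := scale ⟨549755813888, 0, 0, 0⟩ v5; ok v6 && (
  let v7 := exp v6; ok v7 && (
  let v8 := neg v6; ok v8 && (
  let v9 := exp v8; ok v9 && (
  let v10 := mul u1 v9; ok v10 && (
  let v11 := mul u2 v9; ok v11 && (
  let v12 := mul u0 v7; ok v12 && (
  let v13 := cst ⟨ys, 0, 0, 0⟩; ok v13 && (
  let v14 := sub v13 u2; ok v14 && (
  isPos 3 v14 && (
  let v15 := cst ⟨wa, 0, 0, 0⟩; ok v15 && (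
  let v16 := sub v12 v15; ok v16 && (
  isPos 3 v16 && (
  let v17 := cst ⟨wb, 0, 0, 0⟩; ok v17 && (
  let v18 := sub v17 v12; ok v18 && (
  isPos 3 v18 && (
  let v19 := mul v12 v12; ok v19 && (
  let v20 := mul v12 u0; ok v20 && (
  let v21 := mul u1 v1; ok v21 && (
  let v22 := mul v21 v21; ok v22 && (
  let v23 := mul v21 u1; ok v23 && (
  let v24 := mul v23 u0; ok v24 && (
  let v25 := scale ⟨549755813888, 0, 0, 0⟩ u1; ok v25 && (
  let v26 := neg u1; ok v26 && (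
  let v27 := exp v26; ok v27 && (
  let v28 := add v27 v0; ok v28 && (
  let v29 := log v28; ok v29 && (
  let v30 := add v25 v29; ok v30 && (
  let v31 := cst ⟨lc0, 0, 0, 0⟩; ok v31 && (
  let v32 := add v30 v31; ok v32 && (
  let v33 := mul u0 v32; ok v33 && (
  let v34 := scale ⟨lc1, 0, 0, 0⟩ v9; ok v34 && (
  let v35 := add v33 v34; ok v35 && (
  let v36 := mul u0 u2; ok v36 && (
  let v37 := mul v35 v35; ok v37 && (
  let v38 := mul v36 v36; ok v38 && (
  let v39 := add v37 v38; ok v39 && (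
  let v40 := log v39; ok v40 && (
  let v41 := scale ⟨549755813888, 0, 0, 0⟩ v40; ok v41 && (
  let v42 := exp v41; ok v42 && (
  let v43 := scale ⟨274877906944, 0, 0, 0⟩ v38; ok v43 && (
  let v44 := add v37 v43; ok v44 && (
  let v45 := log v44; ok v45 && (
  let v46 := scale ⟨549755813888, 0, 0, 0⟩ v45; ok v46 && (
  let v47 := exp v46; ok v47 && (
  let v48 := cst ⟨4398046511104, 0, 0, 0⟩; ok v48 && (
  let v49 := add u1 v48; ok v49 && (
  let v50 := inv v49; ok v50 && (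
  let v51 := scale ⟨aS, 0, 0, 0⟩ v50; ok v51 && (
  let v52 := scale ⟨4398046511104, 0, 0, 0⟩ v51; ok v52 && (
  let v53 := mul v7 v52; ok v53 && (
  let v54 := mul v19 v1; ok v54 && (
  let v55 := mul u0 v42; ok v55 && (
  let v56 := scale ⟨cD, 0, 0, 0⟩ v1; ok v56 && (
  let v57 := add v55 v56; ok v57 && (
  let v58 := exp v57; ok v58 && (
  let v59 := mul v58 v58; ok v59 && (
  let v60 := neg v57; ok v60 && (
  let v61 := cst ⟨61083746304, 0, 0, 0⟩; ok v61 && (
  let v62 := add v60 v61; ok v62 && (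
  isPos 3 v62 && (
  let v63 := scale ⟨1759219023872, 0, 0, 0⟩ v19; ok v63 && (
  let v64 := scale ⟨2748779069440, 0, 0, 0⟩ u2; ok v64 && (
  let v65 := add v63 v64; ok v65 && (
  let v66 := mul v65 v1; ok v66 && (
  let v67 := scale ⟨274877906944, 0, 0, 0⟩ v22; ok v67 && (
  let v68 := sub v0 v67; ok v68 && (
  let v69 := mul v55 v42; ok v69 && (
  let v70 := scale ⟨549755813888, 0, 0, 0⟩ v69; ok v70 && (
  let v71 := scale ⟨157073539072, 0, 0, 0⟩ v24; ok v71 && (
  let v72 := add v70 v71; ok v72 && (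
  let v73 := mul v58 v72; ok v73 && (
  let v74 := add v47 v73; ok v74 && (
  let v75 := mul v11 v74; ok v75 && (
  let v76 := scale ⟨1649267441664, 0, 0, 0⟩ v59; ok v76 && (
  let v77 := cst ⟨1649267441664, 0, 0, 0⟩; ok v77 && (
  let v78 := sub v76 v77; ok v78 && (
  let v79 := scale ⟨824633720832, 0, 0, 0⟩ v22; ok v79 && (
  let v80 := add v78 v79; ok v80 && (
  let v81 := mul u2 v1; ok v81 && (
  let v82 := add v80 v81; ok v82 && (
  let v83 := add v82 v66; ok v83 && (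
  let v84 := mul v12 v83; ok v84 && (
  let v85 := add v75 v84; ok v85 && (
  let v86 := mul u2 v11; ok v86 && (
  let v87 := mul v86 v1; ok v87 && (
  let v88 := scale ⟨137438953472, 0, 0, 0⟩ v87; ok v88 && (
  let v89 := mul v24 v88; ok v89 && (
  let v90 := add v85 v89; ok v90 && (
  let v91 := mul v90 u0; ok v91 && (
  let v92 := cst ⟨3298534883328, 0, 0, 0⟩; ok v92 && (
  let v93 := sub v92 v76; ok v93 && (
  let v94 := mul v68 v93; ok v94 && (
  let v95 := mul v10 v10; ok v95 && (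
  let v96 := scale ⟨549755813888, 0, 0, 0⟩ v95; ok v96 && (
  let v97 := sub v94 v96; ok v97 && (
  let v98 := mul v11 v11; ok v98 && (
  let v99 := mul v98 v58; ok v99 && (
  let v100 := sub v97 v99; ok v100 && (
  let v101 := sub v100 v66; ok v101 && (
  let v102 := mul v68 v96; ok v102 && (
  let v103 := sub v76 v102; ok v103 && (
  let v104 := add v103 v66; ok v104 && (
  let v105 := mul v63 v1; ok v105 && (
  let v106 := scale ⟨1121502363648, 0, 0, 0⟩ v105; ok v106 && (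
  let v107 := add v0 v106; ok v107 && (
  let v108 := mul v54 v59; ok v108 && (
  let v109 := scale ⟨2199023255552, 0, 0, 0⟩ v108; ok v109 && (
  let v110 := add v107 v109; ok v110 && (
  let v111 := mul v11 v110; ok v111 && (
  let v112 := mul v20 v66; ok v112 && (
  let v113 := add v111 v112; ok v113 && (
  let v114 := mul v101 v20; ok v114 && (
  let v115 := mul v113 v113; ok v115 && (
  let v116 := add v95 v115; ok v116 && (
  let v117 := scale ⟨1098437885952, 0, 0, 0⟩ v101; ok v117 && (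
  let v118 := mul v114 v114; ok v118 && (
  let v119 := add v116 v118; ok v119 && (
  let v120 := inv v119; ok v120 && (
  let v121 := mul v117 v120; ok v121 && (
  let v122 := neg v121; ok v122 && (
  let v123 := add v122 v0; ok v123 && (
  isPos 3 v123 && (
  let v124 := mul v98 v54; ok v124 && (
  let v125 := scale ⟨2199023255552, 0, 0, 0⟩ v124; ok v125 && (
  let v126 := sub v0 v125; ok v126 && (
  let v127 := sub v126 v91; ok v127 && (
  let v128 := mul v91 v91; ok v128 && (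
  let v129 := sub v127 v128; ok v129 && (
  let v130 := mul v129 v129; ok v130 && (
  isPos 3 v129 && (
  let v131 := inv v129; ok v131 && (
  let v132 := mul v2 v1; ok v132 && (
  let v133 := mul v113 v7; ok v133 && (
  let v134 := scale ⟨1282763915264, 0, 0, 0⟩ v22; ok v134 && (
  let v135 := mul v1 v1; ok v135 && (
  let v136 := scale ⟨35184372088832, 0, 0, 0⟩ v135; ok v136 && (
  let v137 := add v134 v136; ok v137 && (
  let v138 := inv v12; ok v138 && (
  let v139 := mul v138 v131; ok v139 && (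
  let v140 := scale ⟨o0, 0, 0, 0⟩ v139; ok v140 && (
  let v141 := scale ⟨1106574835712, 0, 0, 0⟩ v140; ok v141 && (
  let v142 := cst ⟨p0, p0_m, 0, 0⟩; ok v142 && (
  let v143 := add v141 v142; ok v143 && (
  let v144 := scale ⟨o1, 0, 0, 0⟩ v139; ok v144 && (
  let v145 := scale ⟨1106574835712, 0, 0, 0⟩ v144; ok v145 && (
  let v146 := cst ⟨p1, p1_m, 0, 0⟩; ok v146 && (
  let v147 := add v145 v146; ok v147 && (
  isPos 3 v143 && (
  isPos 3 v147 && (
  let v148 := scale ⟨1090049277952, 0, 0, 0⟩ v121; ok v148 && (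
  let v149 := mul v148 v19; ok v149 && (
  let v150 := mul v149 v130; ok v150 && (
  let v151 := scale ⟨2199023255552, 0, 0, 0⟩ v133; ok v151 && (
  let v152 := add v132 v151; ok v152 && (
  let v153 := sub v0 v137; ok v153 && (
  let v154 := mul v152 v143; ok v154 && (
  let v155 := mul v154 v1; ok v155 && (
  let v156 := sub v153 v155; ok v156 && (
  let v157 := scale ⟨3298534883328, 0, 0, 0⟩ v1; ok v157 && (
  let v158 := mul v1 v143; ok v158 && (
  let v159 := scale ⟨2199023255552, 0, 0, 0⟩ v158; ok v159 && (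
  let v160 := add v157 v159; ok v160 && (
  let v161 := mul v160 v150; ok v161 && (
  let v162 := sub v156 v161; ok v162 && (
  let v163 := mul v160 v19; ok v163 && (
  let v164 := scale ⟨10995116277760, 0, 0, 0⟩ v163; ok v164 && (
  let v165 := sub v162 v164; ok v165 && (
  isPos 3 v165 && (
  let v166 := mul v162 v150; ok v166 && (
  let v167 := neg v166; ok v167 && (
  let v168 := exp v167; ok v168 && (
  let v169 := sub v0 v53; ok v169 && (
  isPos 3 v169 && (
  let v170 := inv v169; ok v170 && (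
  let v171 := scale ⟨549755813888, 0, 0, 0⟩ v53; ok v171 && (
  let v172 := add v0 v171; ok v172 && (
  let v173 := mul v53 v53; ok v173 && (
  let v174 := mul v173 v170; ok v174 && (
  let v175 := scale ⟨366504574976, 0, 0, 0⟩ v174; ok v175 && (
  let v176 := add v172 v175; ok v176 && (
  let v177 := mul v168 v53; ok v177 && (
  let v178 := scale ⟨549755813888, 0, 0, 0⟩ v177; ok v178 && (
  let v179 := add v0 v178; ok v179 && (
  let v180 := mul v177 v177; ok v180 && (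
  let v181 := sub v0 v177; ok v181 && (
  let v182 := inv v181; ok v182 && (
  let v183 := mul v180 v182; ok v183 && (
  let v184 := scale ⟨366504574976, 0, 0, 0⟩ v183; ok v184 && (
  let v185 := add v179 v184; ok v185 && (
  let v186 := mul v90 v12; ok v186 && (
  let v187 := mul v186 v147; ok v187 && (
  let v188 := add v186 v187; ok v188 && (
  let v189 := mul v53 v176; ok v189 && (
  let v190 := add v188 v189; ok v190 && (
  let v191 := mul v186 v143; ok v191 && (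
  let v192 := mul v177 v185; ok v192 && (
  let v193 := add v191 v192; ok v193 && (
  let v194 := mul v91 v147; ok v194 && (
  let v195 := add v194 v91; ok v195 && (
  let v196 := mul v52 v176; ok v196 && (
  let v197 := add v195 v196; ok v197 && (
  let v198 := mul v11 v197; ok v198 && (
  let v199 := neg v190; ok v199 && (
  let v200 := cst ⟨cD, 0, 0, 0⟩; ok v200 && (
  let v201 := add v199 v200; ok v201 && (
  isPos 3 v201 && (
  let v202 := neg v193; ok v202 && (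
  let v203 := add v202 v200; ok v203 && (
  isPos 3 v203 && (
  let v204 := scale ⟨1165482786816, 0, 0, 0⟩ v59; ok v204 && (
  let v205 := scale ⟨2199023255552, 0, 0, 0⟩ v190; ok v205 && (
  let v206 := add v205 v193; ok v206 && (
  let v207 := mul v1 v206; ok v207 && (
  let v208 := add v198 v207; ok v208 && (
  let v209 := mul v204 v208; ok v209 && (
  let v210 := mul v209 v20; ok v210 && (
  let v211 := mul v210 v131; ok v211 && (
  let v212 := sub v0 v211; ok v212 && (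
  isPos 3 v212 && (
  let v213 := scale ⟨2199023255552, 0, 0, 0⟩ v211; ok v213 && (
  let v214 := neg v213; ok v214 && (
  let v215 := cst ⟨1085552984064, 0, 0, 0⟩; ok v215 && (
  let v216 := add v214 v215; ok v216 && (
  let v217 := sub v116 v0; ok v217 && (
  let v218 := scale ⟨549755813888, 0, 0, 0⟩ v217; ok v218 && (
  let v219 := add v218 v0; ok v219 && (
  let v220 := add v219 v91; ok v220 && (
  let v221 := add v220 v210; ok v221 && (
  let v222 := mul v221 v221; ok v222 && (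
  let v223 := cst ⟨RH1, 0, 0, 0⟩; ok v223 && (
  let v224 := add v91 v0; ok v224 && (
  let v225 := mul v224 v224; ok v225 && (
  let v226 := sub v223 v225; ok v226 && (
  isPos 3 v226 && (
  let v227 := cst ⟨RH, 0, 0, 0⟩; ok v227 && (
  let v228 := sub v227 v104; ok v228 && (
  let v229 := sub v228 v209; ok v229 && (
  let v230 := sub v229 v222; ok v230 && (
  isPos 3 v230 && (
  let v231 := mul v130 v216; ok v231 && (
  let v232 := scale ⟨10995116277760, 0, 0, 0⟩ v231; ok v232 && (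
  let v233 := sub v232 v227; ok v233 && (
  isPos 3 v233 && (
  let v234 := scale ⟨989560045568, 0, 0, 0⟩ v231; ok v234 && (
  let v235 := scale ⟨RHq, 0, 0, 0⟩ v54; ok v235 && (
  let v236 := sub v234 v235; ok v236 && (
  isPos 3 v236 && (
  let v237 := scale ⟨11941082824704, 0, 0, 0⟩ v231; ok v237 && (
  let v238 := sub v237 v227; ok v238 && (
  let v239 := sub v238 v222; ok v239 && (
  isPos 3 v239 && (
  isPos 3 v127 && (
  let v240 := mul v130 v212; ok v240 && (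
  let v241 := inv v240; ok v241 && (
  let v242 := mul v209 v241; ok v242 && (
  let v243 := scale ⟨exK, 0, 0, 0⟩ v242; ok v243 && (
  let v244 := sub v121 v243; ok v244 && (
  let v245 := cst ⟨x0, 0, 0, 0⟩; ok v245 && (
  let v246 := sub v244 v245; ok v246 && (
  isPos 3 v246 && (
  let v247 := cst ⟨xa, 0, 0, 0⟩; ok v247 && (
  let v248 := sub v121 v247; ok v248 && (
  isPos 3 v248 && (
  let v249 := cst ⟨xb, 0, 0, 0⟩; ok v249 && (
  let v250 := sub v244 v249; ok v250 && (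
  isPos 3 v250 && (
  let v251 := sub v101 v209; ok v251 && (
  isPos 3 v251 && (
  let v252 := sub v0 v213; ok v252 && (
  let v253 := mul v130 v252; ok v253 && (
  let v254 := scale ⟨Lam0, 0, 0, 0⟩ v253; ok v254 && (
  let v255 := sub v254 v104; ok v255 && (
  let v256 := sub v255 v209; ok v256 && (
  isPos 3 v256 && (
  let v257 := mul v209 v19; ok v257 && (
  let v258 := add v133 v257; ok v258 && (
  let v259 := neg v258; ok v259 && (
  let v260 := cst ⟨Y0, 0, 0, 0⟩; ok v260 && (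
  let v261 := add v259 v260; ok v261 && (
  isPos 3 v261 && (
  let v262 := add v244 v0; ok v262 && (
  let v263 := scale ⟨1090049277952, 0, 0, 0⟩ v262; ok v263 && (
  let v264 := mul v263 v19; ok v264 && (
  let v265 := mul v264 v130; ok v265 && (
  let v266 := mul v265 v216; ok v266 && (
  let v267 := scale ⟨1085552984064, 0, 0, 0⟩ v216; ok v267 && (
  let v268 := mul v19 v130; ok v268 && (
  let v269 := mul v268 v267; ok v269 && (
  let v270 := mul v15 v15; ok v270 && (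
  let v271 := sub v269 v270; ok v271 && (
  isPos 3 v271 && (
  let v272 := mul v12 v221; ok v272 && (
  let v273 := sub v17 v272; ok v273 && (
  isPos 3 v273 && (
  let v274 := mul v12 v224; ok v274 && (
  let v275 := sub v17 v274; ok v275 && (
  isPos 3 v275 && (
  let v276 := sub v13 v258; ok v276 && (
  isPos 3 v276 && (
  let v277 := inv v267; ok v277 && (
  let v278 := scale ⟨549755813888, 0, 0, 0⟩ v277; ok v278 && (
  let v279 := cst ⟨549755813888, 0, 0, 0⟩; ok v279 && (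
  let v280 := add v278 v279; ok v280 && (
  let v281 := mul v140 v280; ok v281 && (
  let v282 := add v281 v142; ok v282 && (
  isPos 3 v282 && (
  let v283 := scale ⟨2199023255552, 0, 0, 0⟩ v257; ok v283 && (
  let v284 := add v152 v283; ok v284 && (
  let v285 := mul v284 v282; ok v285 && (
  let v286 := mul v285 v1; ok v286 && (
  let v287 := sub v153 v286; ok v287 && (
  let v288 := mul v1 v282; ok v288 && (
  let v289 := scale ⟨2199023255552, 0, 0, 0⟩ v288; ok v289 && (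
  let v290 := add v157 v289; ok v290 && (
  let v291 := mul v290 v266; ok v291 && (
  let v292 := sub v287 v291; ok v292 && (
  let v293 := mul v290 v19; ok v293 && (
  let v294 := scale ⟨12094627905536, 0, 0, 0⟩ v293; ok v294 && (
  let v295 := sub v292 v294; ok v295 && (
  isPos 3 v295 && (
  let v296 := mul v292 v266; ok v296 && (
  let v297 := neg v296; ok v297 && (
  let v298 := exp v297; ok v298 && (
  let v299 := mul v257 v282; ok v299 && (
  let v300 := add v299 v257; ok v300 && (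
  let v301 := mul v210 v282; ok v301 && (
  let v302 := add v301 v210; ok v302 && (
  let v303 := scale ⟨274877906944, 0, 0, 0⟩ u1; ok v303 && (
  let v304 := add v303 v0; ok v304 && (
  let v305 := mul v302 v304; ok v305 && (
  let v306 := scale ⟨549755813888, 0, 0, 0⟩ v300; ok v306 && (
  let v307 := sub v0 v306; ok v307 && (
  isPos 3 v307 && (
  let v308 := inv v307; ok v308 && (
  let v309 := add v306 v0; ok v309 && (
  let v310 := mul v309 v308; ok v310 && (
  let v311 := mul v104 v20; ok v311 && (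
  let v312 := scale ⟨2199023255552, 0, 0, 0⟩ v10; ok v312 && (
  let v313 := add v311 v312; ok v313 && (
  let v314 := mul v311 v313; ok v314 && (
  let v315 := add v116 v314; ok v315 && (
  let v316 := mul v311 v311; ok v316 && (
  let v317 := add v116 v316; ok v317 && (
  let v318 := mul v20 v317; ok v318 && (
  let v319 := sub v315 v0; ok v319 && (
  let v320 := scale ⟨549755813888, 0, 0, 0⟩ v319; ok v320 && (
  let v321 := add v320 v0; ok v321 && (
  let v322 := mul v305 v308; ok v322 && (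
  let v323 := mul v310 v298; ok v323 && (
  let v324 := scale ⟨a0, 0, 0, 0⟩ v323; ok v324 && (
  let v325 := add v321 v318; ok v325 && (
  let v326 := add v325 v210; ok v326 && (
  let v327 := mul v324 v326; ok v327 && (
  let v328 := add v322 v327; ok v328 && (
  let v329 := neg v328; ok v329 && (
  let v330 := cst ⟨tha, 0, 0, 0⟩; ok v330 && (
  let v331 := add v329 v330; ok v331 && (
  isPos 3 v331 && (
  let v332 := scale ⟨3454218010624, 0, 0, 0⟩ v1; ok v332 && (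
  let v333 := mul v332 v193; ok v333 && (
  let v334 := scale ⟨3454218010624, 0, 0, 0⟩ u0; ok v334 && (
  let v335 := mul v334 v47; ok v335 && (
  let v336 := add v333 v335; ok v336 && (
  let v337 := scale ⟨617925836800, 0, 0, 0⟩ v54; ok v337 && (
  let v338 := mul v57 v57; ok v338 && (
  let v339 := scale ⟨582741917696, 0, 0, 0⟩ v338; ok v339 && (
  let v340 := add v337 v339; ok v340 && (
  let v341 := scale ⟨472790335488, 0, 0, 0⟩ v22; ok v341 && (
  let v342 := add v340 v341; ok v342 && (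
  let v343 := scale ⟨3454218010624, 0, 0, 0⟩ v342; ok v343 && (
  let v344 := add v336 v343; ok v344 && (
  let v345 := mul v19 v54; ok v345 && (
  let v346 := scale ⟨175922741248, 0, 0, 0⟩ v345; ok v346 && (
  let v347 := add v344 v346; ok v347 && (
  let v348 := scale ⟨1165482786816, 0, 0, 0⟩ v57; ok v348 && (
  let v349 := scale ⟨307864010752, 0, 0, 0⟩ v22; ok v349 && (
  let v350 := add v348 v349; ok v350 && (
  let v351 := mul v132 v350; ok v351 && (
  let v352 := add v347 v351; ok v352 && (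
  let v353 := scale ⟨10851745529856, 0, 0, 0⟩ v1; ok v353 && (
  let v354 := scale ⟨615726972928, 0, 0, 0⟩ v338; ok v354 && (
  let v355 := scale ⟨329853698048, 0, 0, 0⟩ v22; ok v355 && (
  let v356 := add v354 v355; ok v356 && (
  let v357 := mul v353 v356; ok v357 && (
  let v358 := add v352 v357; ok v358 && (
  let v359 := scale ⟨1110506995712, 0, 0, 0⟩ v358; ok v359 && (
  let v360 := add v193 v359; ok v360 && (
  let v361 := neg v360; ok v361 && (
  let v362 := cst ⟨989560045568, 0, 0, 0⟩; ok v362 && (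
  let v363 := add v361 v362; ok v363 && (
  isPos 3 v363 && (
  true))))))))))))))))))))))))))))))))))))))))))))))))))))))))))))))))))))))))))))))))))))))))))))))))))))))))))))))))))))))))))))))))))))))))))))))))))))))))))))))))))))))))))))))))))))))))))))))))))))))))))))))))))))))))))))))))))))))))))))))))))))))))))))))))))))))))))))))))))))))))))))))))))))))))))))))))))))))))))))))))))))))))))))))))))))))))))))))))))))))))))))))))))))))))))))))))))))))))))))))
  | _, _ => false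

theorem chk_eq (O : Ops) : ∀ (r : Row) (m : List O.α),
    chk O.cst O.add O.sub O.mul O.scale O.neg O.inv O.exp O.log O.ok O.isPos O.isLt r m = true → runG O 3 (common r) m = true
  | ⟨_, _, _, _, _, _, _, _, _, _, _, _, _, _, _, _, _, _, _, _, _, _, _, _⟩, [_, _, _], h => h

def chkF : Row → List Pool.Agent.helper14.QF.opsF.α → Bool :=
  chk Pool.Agent.helper14.QF.opsF.cst Pool.Agent.helper14.QF.opsF.add Pool.Agent.helper14.QF.opsF.sub Pool.Agent.helper14.QF.opsF.mul Pool.Agent.helper14.QF.opsF.scale Pool.Agent.helper14.QF.opsF.neg Pool.Agent.helper14.QF.opsF.inv Pool.Agent.helper14.QF.opsF.exp Pool.Agent.helper14.QF.opsF.log Pool.Agent.helper14.QF.opsF.ok Pool.Agent.helper14.QF.opsF.isPos Pool.Agent.helper14.QF.opsF.isLt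

theorem chkF_eq : ∀ (r : Row) (m : List Pool.Agent.helper14.QF.opsF.α), chkF r m = true →
    runG Pool.Agent.helper14.QF.opsF 3 (common r) m = true := chk_eq Pool.Agent.helper14.QF.opsF

theorem common_real (r : Row) : (common r).all Pool.Agent.helper71.FF.rOK = true := rfl

end Pool.Agent.helper31.A2.Cert.FTP
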