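import Pool.Agent.helper31.A2.Cert.FTQT

/-!
Generated: certificates.
-/

namespace Pool.Agent.helper31.A2.Cert.FTQ

open Pool.Agent.helper31.IA (Z Op)
open Pool.Agent.helper31.IC (TD CovD covD_split)
open Pool.Agent.helper14.RW
open Pool.Agent.helper31.A2.Cert.FTP

mutual
theorem c0_t1 : CovD 0 (progs common T) [(56315510784, 7143915520), (2748779069440, 2748779069440), (3454217682944, 65536)] :=
  covR_F chkF_eq T (.n 1 (.n 1 (.n 1 (.n 0 (.l 0) (.l 0)) (.n 0 (.l 0) (.l 0))) (.n 1 (.n 0 (.l 0) (.l 1)) (.n 0 (.l 0) (.l 1)))) (.n 1 (.n 1 (.n 0 (.l 1) (.l 1)) (.n 0 (.l 1) (.l 1))) (.n 1 (.n 0 (.l 1) (.l 2)) (.n 0 (.l 2) (.l 2)))))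
    [(56315510784, 7143915520), (2748779069440, 2748779069440), (3454217682944, 65536)] rfl (by decide +kernel)
theorem c0_t3 : CovD 0 (progs common T) [(70603341824, 7143915520), (1374389534720, 1374389534720), (3454217682944, 65536)] :=
  covR_F chkF_eq T (.n 1 (.n 1 (.n 0 (.l 0) (.n 1 (.l 1) (.l 1))) (.n 0 (.l 1) (.l 1))) (.n 1 (.n 0 (.l 1) (.l 1)) (.n 0 (.l 1) (.l 1))))
    [(70603341824, 7143915520), (1374389534720, 1374389534720), (3454217682944, 65536)] rfl (by decide +kernel)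
end

theorem c0_t4 : CovD 0 (progs common T) [(70603341824, 7143915520), (4123168604160, 1374389534720), (3454217682944, 65536)] :=
  covR_F chkF_eq T (.n 1 (.n 1 (.n 0 (.l 1) (.l 2)) (.n 0 (.l 2) (.l 2))) (.n 1 (.n 0 (.l 2) (.l 2)) (.n 0 (.l 2) (.n 1 (.l 2) (.l 3)))))
    [(70603341824, 7143915520), (4123168604160, 1374389534720), (3454217682944, 65536)] rfl (by decide +kernel)

theorem c0_t2 : CovD 0 (progs common T) [(70603341824, 7143915520), (2748779069440, 2748779069440), (3454217682944, 65536)] :=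
  covD_split 1 (by decide +kernel) c0_t3 c0_t4

theorem c0 : CovD 0 (progs common T) [(63459426304, 14287831040), (2748779069440, 2748779069440), (3454217682944, 65536)] :=
  covD_split 0 (by decide +kernel) c0_t1 c0_t2

end Pool.Agent.helper31.A2.Cert.FTQ
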