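import Pool.Agent.helper31.A2.Cert.FTP

/-!
Generated: the rows.
-/

namespace Pool.Agent.helper31.A2.Cert.FTQ

open Pool.Agent.helper14.RW
open Pool.Agent.helper31.A2.Cert.FTP

set_option maxRecDepth 100000

def T0 : BT Row :=
  (.n 
  (.n 
  (.l ⟨3529432326144, 119168565248, 233589178368, 1724298297344, 147848167424, 144082731008, 1099511627776, 1017907249152, 508953624576, 0, 1034818682880, 0, 192736657408, 2303981518848, 3409130291200, 10570451386368, 1156017291264, 0, 329853698048, 0, 2419140329472, 3490734669824, 98515812352, 144078536704⟩) 
  (.l ⟨3529432326144, 233572401152, 457833447424, 1724298297344, 147848167424, 144082731008, 1099511627776, 1287684882432, 0, 633239240704, 1278826512384, 0, 1271310319616, 2303981518848, 3409130291200, 10570451386368, 1156017291264, 0, 329853698048, 0, 2419140329472, 3490734669824, 98515812352, 144078536704⟩)) 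
  (.n 
  (.l ⟨3529432326144, 166832635904, 327021494272, 1724298297344, 147848167424, 144082731008, 1099511627776, 1168499539968, 0, 173409304576, 1187558457344, 0, 869462441984, 2303981518848, 3409130291200, 10570451386368, 1156017291264, 0, 329853698048, 0, 2419140329472, 3490734669824, 98515812352, 144078536704⟩) 
  (.l ⟨3529432326144, 327004717056, 640956760064, 1724298297344, 147848167424, 144082731008, 1099511627776, 1208764858368, 0, 431912648704, 1145145655296, 0, 884763262976, 2303981518848, 3409130291200, 10570451386368, 1156017291264, 0, 329853698048, 0, 2419140329472, 3490734669824, 98515812352, 144078536704⟩)))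

/-- the table -/
def T : BT Row := T0

end Pool.Agent.helper31.A2.Cert.FTQ
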