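import Pool.Agent.helper31.A2.Cert.L10T

/-!
Generated: certificates.
-/

namespace Pool.Agent.helper31.A2.Cert.L10

open Pool.Agent.helper31.IA (Z Op)
open Pool.Agent.helper31.IC (TD CovD covD_split)
open Pool.Agent.helper14.RW
open Pool.Agent.helper31.A2.Cert.L1P

theorem c0 : CovD 0 (progs common T) [(63459426304, 14287831040), (412316860416, 412316860416), (549755813888, 549755813888)] :=
  covR_F chkF_eq T (.n 2 (.n 2 (.n 1 (.l 0) (.l 0)) (.l 0)) (.n 2 (.l 0) (.n 2 (.l 0) (.n 2 (.l 0) (.n 2 (.l 0) (.n 2 (.l 0) (.n 2 (.l 0) (.n 2 (.l 0) (.l 0)))))))))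
    [(63459426304, 14287831040), (412316860416, 412316860416), (549755813888, 549755813888)] rfl (by decide +kernel)


end Pool.Agent.helper31.A2.Cert.L10
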