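import Pool.Agent.helper31.A2.Cert.L1P

/-!
Generated: the rows.
-/

namespace Pool.Agent.helper31.A2.Cert.L10

open Pool.Agent.helper14.RW
open Pool.Agent.helper31.A2.Cert.L1P

set_option maxRecDepth 100000

def T0 : BT Row :=
  (.l ⟨3568580952064, 2319282339840, 2308974837760, 1098437885952, 98515812352, 4900557684736, 21842056183808, 232699985920, 1156151508992, 3807488507904, 31406948352, 1960853897216, 1872605741056, 1171004588032, 19790823424, 79725330432, 98512666624⟩)

/-- the table -/
def T : BT Row := T0

end Pool.Agent.helper31.A2.Cert.L10
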