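import Pool.Agent.helper31.A2.Cert.L1P

/-!
Generated: the rows.
-/

namespace Pool.Agent.helper31.A2.Cert.L13

open Pool.Agent.helper14.RW
open Pool.Agent.helper31.A2.Cert.L1P

set_option maxRecDepth 100000

def T0 : BT Row :=
  (.l ⟨7754563452928, 1099511627776, 2308974837760, 3761317609472, 62679678976, 8999030226944, 73653320417280, 166396428288, 1307012235264, 7951058206720, 24696061952, 4659838189568, 1099511627776, 1171004588032, 19790823424, 58988691456, 62677581824⟩)

/-- the table -/
def T : BT Row := T0

end Pool.Agent.helper31.A2.Cert.L13
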