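import Pool.Agent.helper31.A2.Cert.L1P

/-!
Generated: the rows.
-/

namespace Pool.Agent.helper31.A2.Cert.L14

open Pool.Agent.helper14.RW
open Pool.Agent.helper31.A2.Cert.L1P

set_option maxRecDepth 100000

def T0 : BT Row :=
  (.l ⟨9178881982464, 1099511627776, 2308974837760, 4659838189568, 58988691456, 10424959369216, 98843840479232, 168275476480, 1363652116480, 9385577283584, 24696061952, 5540373594112, 1099511627776, 1171004588032, 19790823424, 56237228032, 58986594304⟩)

/-- the table -/
def T : BT Row := T0

end Pool.Agent.helper31.A2.Cert.L14
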