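import Pool.Agent.helper14.RW.Eng

/-!
Generated: a program with a row of constants, and its compiled form.
-/

namespace Pool.Agent.helper31.A2.Cert.L1P

open Pool.Agent.helper31.IA (Z Op)
open Pool.Agent.helper31.IC (Ops runG TD CovD covD_split)
open Pool.Agent.helper14.RW

set_option maxRecDepth 100000

/-- a row: the numbers times `2^40` -/
structure Row where
  RW : Nat
  Mo : Nat
  ys2 : Nat
  L1 : Nat
  a : Nat
  RH : Nat
  RHq : Nat
  dq : Nat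
  ex0 : Nat
  La1 : Nat
  Yd : Nat
  Ld : Nat
  M1 : Nat
  yE2 : Nat
  Yc : Nat
  a1 : Nat
  tha : Nat
deriving DecidableEq

def common (r : Row) : List Op := [
  .const ⟨1099511627776, 0, 0, 0⟩,
  .mul 1 1,
  .mul 4 3,
  .mul 5 5,
  .mul 5 5,
  .neg 1,
  .add 0 5,
  .mul 2 0,
  .mul 8 9,
  .mul 0 0,
  .mul 1 10,
  .mul 1 9,
  .mul 9 10,
  .mul 0 0,
  .scale ⟨1282763915264, 0, 0, 0⟩ 0,
  .mul 13 13,
  .scale ⟨35184372088832, 0, 0, 0⟩ 0,
  .add 2 0,
  .scale ⟨r.RW, 0, 0, 0⟩ 6,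
  .scale ⟨r.RW, 0, 0, 0⟩ 0,
  .add 0 19,
  .scale ⟨r.Mo, 0, 0, 0⟩ 12,
  .scale ⟨r.Mo, 0, 0, 0⟩ 20,
  .mul 20 10,
  .const ⟨r.ys2, 0, 0, 0⟩,
  .add 1 0,
  .scale ⟨2660818223104, 0, 0, 0⟩ 24,
  .scale ⟨r.L1, 0, 0, 0⟩ 17,
  .sub 27 10,
  .mul 3 6,
  .sub 1 0,
  .scale ⟨3298534883328, 0, 0, 0⟩ 29,
  .scale ⟨2199023255552, 0, 0, 0⟩ 9,
  .add 1 0,
  .mul 0 6,
  .sub 4 0,
  .mul 2 26,
  .scale ⟨10995116277760, 0, 0, 0⟩ 0,
  .sub 2 0,
  .pos 0,
  .mul 3 11,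
  .neg 0,
  .exp 0,
  .mul 33 21,
  .mul 0 21,
  .mul 46 33,
  .scale ⟨r.L1, 0, 0, 0⟩ 0,
  .scale ⟨2199023255552, 0, 0, 0⟩ 0,
  .sub 26 0,
  .scale ⟨r.RW, 0, 0, 0⟩ 3,
  .scale ⟨2199023255552, 0, 0, 0⟩ 0,
  .add 30 0,
  .scale ⟨549755813888, 0, 0, 0⟩ 0,
  .add 51 0,
  .const ⟨4398046511104, 0, 0, 0⟩,
  .add 51 0,
  .inv 0,
  .mul 3 0,
  .scale ⟨r.a, 0, 0, 0⟩ 0,
  .scale ⟨4398046511104, 0, 0, 0⟩ 0,
  .mul 0 60,
  .sub 59 0,
  .pos 0,
  .inv 0,
  .const ⟨2199023255552, 0, 0, 0⟩,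
  .scale ⟨274877906944, 0, 0, 0⟩ 55,
  .sub 1 0,
  .mul 57 57,
  .scale ⟨5727322112, 0, 0, 0⟩ 0,
  .add 2 0,
  .mul 4 4,
  .mul 0 5,
  .mul 0 0,
  .scale ⟨900726784, 0, 0, 0⟩ 0,
  .add 4 0,
  .scale ⟨r.RW, 0, 0, 0⟩ 63,
  .add 1 0,
  .mul 65 54,
  .scale ⟨659707396096, 0, 0, 0⟩ 0,
  .add 33 0,
  .exp 0,
  .add 4 0,
  .sub 0 79,
  .mul 81 60,
  .mul 0 60,
  .mul 24 21,
  .mul 3 0,
  .add 2 0,
  .mul 0 87,
  .mul 45 27,
  .sub 87 0,
  .inv 0,
  .mul 2 0,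
  .mul 89 0,
  .add 65 0,
  .sub 73 89,
  .const ⟨1108101562368, 0, 0, 0⟩,
  .add 1 0,
  .log 0,
  .scale ⟨549755813888, 0, 0, 0⟩ 0,
  .exp 0,
  .mul 0 100,
  .mul 0 98,
  .scale ⟨549755813888, 0, 0, 0⟩ 0,
  .const ⟨1116004679680, 0, 0, 0⟩,
  .add 1 0,
  .scale ⟨549755813888, 0, 0, 0⟩ 93,
  .mul 0 57,
  .scale ⟨2253999046656, 0, 0, 0⟩ 108,
  .add 8 0,
  .mul 2 0,
  .scale ⟨13744734208, 0, 0, 0⟩ 111,
  .add 11 0,
  .mul 0 25,
  .add 3 0,
  .mul 111 26,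
  .scale ⟨1869170606080, 0, 0, 0⟩ 0,
  .scale ⟨2418926419968, 0, 0, 0⟩ 22,
  .add 1 0,
  .mul 113 0,
  .add 5 0,
  .mul 15 0,
  .mul 0 110,
  .mul 1 110,
  .const ⟨1085552984064, 0, 0, 0⟩,
  .scale ⟨2199023255552, 0, 0, 0⟩ 1,
  .sub 1 0,
  .sub 124 3,
  .pos 0,
  .pos 1,
  .add 4 125,
  .mul 0 0,
  .const ⟨r.RH, 0, 0, 0⟩,
  .const ⟨r.RW, 0, 0, 0⟩,
  .sub 1 0,
  .sub 0 11,
  .sub 0 4,
  .pos 0,
  .scale ⟨10995116277760, 0, 0, 0⟩ 8,
  .sub 0 5,
  .pos 0,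
  .scale ⟨989560045568, 0, 0, 0⟩ 10,
  .scale ⟨r.RHq, 0, 0, 0⟩ 124,
  .sub 1 0,
  .pos 0,
  .scale ⟨11941082824704, 0, 0, 0⟩ 13,
  .sub 0 10,
  .sub 0 12,
  .pos 0,
  .const ⟨r.L1, 0, 0, 0⟩,
  .sub 0 22,
  .pos 0,
  .scale ⟨r.dq, 0, 0, 0⟩ 17,
  .scale ⟨r.ex0, 0, 0, 0⟩ 24,
  .sub 1 0,
  .pos 0,
  .sub 145 22,
  .scale ⟨r.La1, 0, 0, 0⟩ 0,
  .sub 0 18,
  .sub 0 29,
  .pos 0,
  .neg 36,
  .const ⟨10994319360, 0, 0, 0⟩,
  .add 1 0,
  .pos 0,
  .neg 60,
  .const ⟨36649828352, 0, 0, 0⟩,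
  .add 1 0,
  .pos 0,
  .neg 55,
  .const ⟨21989687296, 0, 0, 0⟩,
  .add 1 0,
  .pos 0,
  .mul 38 157,
  .neg 0,
  .const ⟨5496635392, 0, 0, 0⟩,
  .add 1 0,
  .pos 0,
  .neg 42,
  .const ⟨r.Yd, 0, 0, 0⟩,
  .add 1 0,
  .pos 0,
  .mul 156 41,
  .scale ⟨r.Ld, 0, 0, 0⟩ 0,
  .scale ⟨r.M1, 0, 0, 0⟩ 166,
  .scale ⟨r.M1, 0, 0, 0⟩ 48,
  .add 0 49,
  .scale ⟨r.M1, 0, 0, 0⟩ 49,
  .add 0 50,
  .const ⟨r.yE2, 0, 0, 0⟩,
  .sub 0 166,
  .pos 0,
  .const ⟨r.Yc, 0, 0, 0⟩,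
  .sub 0 55,
  .pos 0,
  .mul 151 8,
  .sub 149 0,
  .scale ⟨2199023255552, 0, 0, 0⟩ 10,
  .add 148 0,
  .mul 0 13,
  .sub 3 0,
  .mul 2 173,
  .scale ⟨12094627905536, 0, 0, 0⟩ 0,
  .sub 2 0,
  .pos 0,
  .mul 3 18,
  .neg 0,
  .exp 0,
  .scale ⟨549755813888, 0, 0, 0⟩ 18,
  .sub 189 0,
  .pos 0,
  .inv 0,
  .add 2 191,
  .mul 0 1,
  .mul 21 2,
  .scale ⟨274877906944, 0, 0, 0⟩ 192,
  .add 0 195,
  .mul 2 0,
  .scale ⟨r.a1, 0, 0, 0⟩ 9,
  .mul 5 0,
  .add 179 80,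
  .mul 190 0,
  .add 0 201,
  .mul 3 0,
  .add 6 0,
  .neg 0,
  .const ⟨r.tha, 0, 0, 0⟩,
  .add 1 0,
  .pos 0]

def chk {α : Type} (cst : Z → α) (add sub mul : α → α → α) (scale : Z → α → α)
    (neg inv exp log : α → α) (ok : α → Bool) (isPos : Nat → α → Bool) (_isLt : α → Nat → Bool) :
    Row → List α → Bool
  | ⟨RW, Mo, ys2, L1, a, RH, RHq, dq, ex0, La1, Yd, Ld, M1, yE2, Yc, a1, tha⟩, [u0, u1, u2] =>
  let v0 := cst ⟨1099511627776, 0, 0, 0⟩; ok v0 && (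
  let v1 := mul u0 u0; ok v1 && (
  let v2 := mul u2 u1; ok v2 && (
  let v3 := mul u2 u2; ok v3 && (
  let v4 := mul u1 u1; ok v4 && (
  let v5 := neg v3; ok v5 && (
  let v6 := add v5 v0; ok v6 && (
  let v7 := mul v4 v6; ok v7 && (
  let v8 := mul u0 u1; ok v8 && (
  let v9 := mul v8 v8; ok v9 && (
  let v10 := mul v8 u0; ok v10 && (
  let v11 := mul v9 v1; ok v11 && (
  let v12 := mul v2 v1; ok v12 && (
  let v13 := mul v12 v12; ok v13 && (
  let v14 := scale ⟨1282763915264, 0, 0, 0⟩ v13; ok v14 && (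
  let v15 := mul v1 v1; ok v15 && (
  let v16 := scale ⟨35184372088832, 0, 0, 0⟩ v15; ok v16 && (
  let v17 := add v14 v16; ok v17 && (
  let v18 := scale ⟨RW, 0, 0, 0⟩ v11; ok v18 && (
  let v19 := scale ⟨RW, 0, 0, 0⟩ v18; ok v19 && (
  let v20 := add v19 v0; ok v20 && (
  let v21 := scale ⟨Mo, 0, 0, 0⟩ v8; ok v21 && (
  let v22 := scale ⟨Mo, 0, 0, 0⟩ v1; ok v22 && (
  let v23 := mul v2 v12; ok v23 && (
  let v24 := cst ⟨ys2, 0, 0, 0⟩; ok v24 && (
  let v25 := add v23 v24; ok v25 && (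
  let v26 := scale ⟨2660818223104, 0, 0, 0⟩ v1; ok v26 && (
  let v27 := scale ⟨L1, 0, 0, 0⟩ v9; ok v27 && (
  let v28 := sub v0 v17; ok v28 && (
  let v29 := mul v25 v22; ok v29 && (
  let v30 := sub v28 v29; ok v30 && (
  let v31 := scale ⟨3298534883328, 0, 0, 0⟩ v1; ok v31 && (
  let v32 := scale ⟨2199023255552, 0, 0, 0⟩ v22; ok v32 && (
  let v33 := add v31 v32; ok v33 && (
  let v34 := mul v33 v27; ok v34 && (
  let v35 := sub v30 v34; ok v35 && (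
  let v36 := mul v33 v9; ok v36 && (
  let v37 := scale ⟨10995116277760, 0, 0, 0⟩ v36; ok v37 && (
  let v38 := sub v35 v37; ok v38 && (
  isPos 3 v38 && (
  let v39 := mul v35 v27; ok v39 && (
  let v40 := neg v39; ok v40 && (
  let v41 := exp v40; ok v41 && (
  let v42 := mul v8 v20; ok v42 && (
  let v43 := mul v42 v21; ok v43 && (
  let v44 := mul u2 v10; ok v44 && (
  let v45 := scale ⟨L1, 0, 0, 0⟩ v44; ok v45 && (
  let v46 := scale ⟨2199023255552, 0, 0, 0⟩ v45; ok v46 && (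
  let v47 := sub v20 v46; ok v47 && (
  let v48 := scale ⟨RW, 0, 0, 0⟩ v44; ok v48 && (
  let v49 := scale ⟨2199023255552, 0, 0, 0⟩ v48; ok v49 && (
  let v50 := add v19 v49; ok v50 && (
  let v51 := scale ⟨549755813888, 0, 0, 0⟩ v50; ok v51 && (
  let v52 := add v0 v51; ok v52 && (
  let v53 := cst ⟨4398046511104, 0, 0, 0⟩; ok v53 && (
  let v54 := add v2 v53; ok v54 && (
  let v55 := inv v54; ok v55 && (
  let v56 := mul v52 v55; ok v56 && (
  let v57 := scale ⟨a, 0, 0, 0⟩ v56; ok v57 && (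
  let v58 := scale ⟨4398046511104, 0, 0, 0⟩ v57; ok v58 && (
  let v59 := mul v58 u1; ok v59 && (
  let v60 := sub v0 v59; ok v60 && (
  isPos 3 v60 && (
  let v61 := inv v60; ok v61 && (
  let v62 := cst ⟨2199023255552, 0, 0, 0⟩; ok v62 && (
  let v63 := scale ⟨274877906944, 0, 0, 0⟩ v7; ok v63 && (
  let v64 := sub v62 v63; ok v64 && (
  let v65 := mul v7 v7; ok v65 && (
  let v66 := scale ⟨5727322112, 0, 0, 0⟩ v65; ok v66 && (
  let v67 := add v64 v66; ok v67 && (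
  let v68 := mul v63 v63; ok v68 && (
  let v69 := mul v68 v63; ok v69 && (
  let v70 := mul v69 v69; ok v70 && (
  let v71 := scale ⟨900726784, 0, 0, 0⟩ v70; ok v71 && (
  let v72 := add v67 v71; ok v72 && (
  let v73 := scale ⟨RW, 0, 0, 0⟩ v9; ok v73 && (
  let v74 := add v72 v73; ok v74 && (
  let v75 := mul v9 v20; ok v75 && (
  let v76 := scale ⟨659707396096, 0, 0, 0⟩ v75; ok v76 && (
  let v77 := add v43 v76; ok v77 && (
  let v78 := exp v77; ok v78 && (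
  let v79 := add v74 v78; ok v79 && (
  let v80 := sub v79 v0; ok v80 && (
  let v81 := mul u0 v20; ok v81 && (
  let v82 := mul v81 v21; ok v82 && (
  let v83 := mul v58 v61; ok v83 && (
  let v84 := mul v80 v83; ok v84 && (
  let v85 := add v82 v84; ok v85 && (
  let v86 := mul v85 u1; ok v86 && (
  let v87 := mul v41 v59; ok v87 && (
  let v88 := sub v0 v87; ok v88 && (
  let v89 := inv v88; ok v89 && (
  let v90 := mul v87 v89; ok v90 && (
  let v91 := mul v1 v90; ok v91 && (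
  let v92 := add v26 v91; ok v92 && (
  let v93 := sub v19 v3; ok v93 && (
  let v94 := cst ⟨1108101562368, 0, 0, 0⟩; ok v94 && (
  let v95 := add v93 v94; ok v95 && (
  let v96 := log v95; ok v96 && (
  let v97 := scale ⟨549755813888, 0, 0, 0⟩ v96; ok v97 && (
  let v98 := exp v97; ok v98 && (
  let v99 := mul v98 u1; ok v99 && (
  let v100 := mul v99 v1; ok v100 && (
  let v101 := scale ⟨549755813888, 0, 0, 0⟩ v100; ok v101 && (
  let v102 := cst ⟨1116004679680, 0, 0, 0⟩; ok v102 && (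
  let v103 := add v101 v102; ok v103 && (
  let v104 := scale ⟨549755813888, 0, 0, 0⟩ v10; ok v104 && (
  let v105 := mul v104 v47; ok v105 && (
  let v106 := scale ⟨2253999046656, 0, 0, 0⟩ u2; ok v106 && (
  let v107 := add v98 v106; ok v107 && (
  let v108 := mul v105 v107; ok v108 && (
  let v109 := scale ⟨13744734208, 0, 0, 0⟩ u2; ok v109 && (
  let v110 := add v98 v109; ok v110 && (
  let v111 := mul v110 v85; ok v111 && (
  let v112 := add v108 v111; ok v112 && (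
  let v113 := mul v1 v86; ok v113 && (
  let v114 := scale ⟨1869170606080, 0, 0, 0⟩ v113; ok v114 && (
  let v115 := scale ⟨2418926419968, 0, 0, 0⟩ v92; ok v115 && (
  let v116 := add v114 v115; ok v116 && (
  let v117 := mul v3 v116; ok v117 && (
  let v118 := add v112 v117; ok v118 && (
  let v119 := mul v103 v118; ok v119 && (
  let v120 := mul v119 v9; ok v120 && (
  let v121 := mul v119 v10; ok v121 && (
  let v122 := cst ⟨1085552984064, 0, 0, 0⟩; ok v122 && (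
  let v123 := scale ⟨2199023255552, 0, 0, 0⟩ v121; ok v123 && (
  let v124 := sub v122 v123; ok v124 && (
  let v125 := sub v0 v121; ok v125 && (
  isPos 3 v125 && (
  isPos 3 v124 && (
  let v126 := add v121 v0; ok v126 && (
  let v127 := mul v126 v126; ok v127 && (
  let v128 := cst ⟨RH, 0, 0, 0⟩; ok v128 && (
  let v129 := cst ⟨RW, 0, 0, 0⟩; ok v129 && (
  let v130 := sub v128 v129; ok v130 && (
  let v131 := sub v130 v119; ok v131 && (
  let v132 := sub v131 v127; ok v132 && (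
  isPos 3 v132 && (
  let v133 := scale ⟨10995116277760, 0, 0, 0⟩ v124; ok v133 && (
  let v134 := sub v133 v128; ok v134 && (
  isPos 3 v134 && (
  let v135 := scale ⟨989560045568, 0, 0, 0⟩ v124; ok v135 && (
  let v136 := scale ⟨RHq, 0, 0, 0⟩ v11; ok v136 && (
  let v137 := sub v135 v136; ok v137 && (
  isPos 3 v137 && (
  let v138 := scale ⟨11941082824704, 0, 0, 0⟩ v124; ok v138 && (
  let v139 := sub v138 v128; ok v139 && (
  let v140 := sub v139 v127; ok v140 && (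
  isPos 3 v140 && (
  let v141 := cst ⟨L1, 0, 0, 0⟩; ok v141 && (
  let v142 := sub v141 v119; ok v142 && (
  isPos 3 v142 && (
  let v143 := scale ⟨dq, 0, 0, 0⟩ v125; ok v143 && (
  let v144 := scale ⟨ex0, 0, 0, 0⟩ v119; ok v144 && (
  let v145 := sub v143 v144; ok v145 && (
  isPos 3 v145 && (
  let v146 := sub v0 v123; ok v146 && (
  let v147 := scale ⟨La1, 0, 0, 0⟩ v146; ok v147 && (
  let v148 := sub v147 v129; ok v148 && (
  let v149 := sub v148 v119; ok v149 && (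
  isPos 3 v149 && (
  let v150 := neg v113; ok v150 && (
  let v151 := cst ⟨10994319360, 0, 0, 0⟩; ok v151 && (
  let v152 := add v150 v151; ok v152 && (
  isPos 3 v152 && (
  let v153 := neg v92; ok v153 && (
  let v154 := cst ⟨36649828352, 0, 0, 0⟩; ok v154 && (
  let v155 := add v153 v154; ok v155 && (
  isPos 3 v155 && (
  let v156 := neg v100; ok v156 && (
  let v157 := cst ⟨21989687296, 0, 0, 0⟩; ok v157 && (
  let v158 := add v156 v157; ok v158 && (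
  isPos 3 v158 && (
  let v159 := mul v120 v1; ok v159 && (
  let v160 := neg v159; ok v160 && (
  let v161 := cst ⟨5496635392, 0, 0, 0⟩; ok v161 && (
  let v162 := add v160 v161; ok v162 && (
  isPos 3 v162 && (
  let v163 := neg v120; ok v163 && (
  let v164 := cst ⟨Yd, 0, 0, 0⟩; ok v164 && (
  let v165 := add v163 v164; ok v165 && (
  isPos 3 v165 && (
  let v166 := mul v9 v124; ok v166 && (
  let v167 := scale ⟨Ld, 0, 0, 0⟩ v166; ok v167 && (
  let v168 := scale ⟨M1, 0, 0, 0⟩ v1; ok v168 && (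
  let v169 := scale ⟨M1, 0, 0, 0⟩ v120; ok v169 && (
  let v170 := add v169 v120; ok v170 && (
  let v171 := scale ⟨M1, 0, 0, 0⟩ v121; ok v171 && (
  let v172 := add v171 v121; ok v172 && (
  let v173 := cst ⟨yE2, 0, 0, 0⟩; ok v173 && (
  let v174 := sub v173 v7; ok v174 && (
  isPos 3 v174 && (
  let v175 := cst ⟨Yc, 0, 0, 0⟩; ok v175 && (
  let v176 := sub v175 v120; ok v176 && (
  isPos 3 v176 && (
  let v177 := mul v25 v168; ok v177 && (
  let v178 := sub v28 v177; ok v178 && (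
  let v179 := scale ⟨2199023255552, 0, 0, 0⟩ v168; ok v179 && (
  let v180 := add v31 v179; ok v180 && (
  let v181 := mul v180 v167; ok v181 && (
  let v182 := sub v178 v181; ok v182 && (
  let v183 := mul v180 v9; ok v183 && (
  let v184 := scale ⟨12094627905536, 0, 0, 0⟩ v183; ok v184 && (
  let v185 := sub v182 v184; ok v185 && (
  isPos 3 v185 && (
  let v186 := mul v182 v167; ok v186 && (
  let v187 := neg v186; ok v187 && (
  let v188 := exp v187; ok v188 && (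
  let v189 := scale ⟨549755813888, 0, 0, 0⟩ v170; ok v189 && (
  let v190 := sub v0 v189; ok v190 && (
  isPos 3 v190 && (
  let v191 := inv v190; ok v191 && (
  let v192 := add v189 v0; ok v192 && (
  let v193 := mul v192 v191; ok v193 && (
  let v194 := mul v172 v191; ok v194 && (
  let v195 := scale ⟨274877906944, 0, 0, 0⟩ v2; ok v195 && (
  let v196 := add v195 v0; ok v196 && (
  let v197 := mul v194 v196; ok v197 && (
  let v198 := scale ⟨a1, 0, 0, 0⟩ v188; ok v198 && (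
  let v199 := mul v193 v198; ok v199 && (
  let v200 := add v20 v119; ok v200 && (
  let v201 := mul v10 v200; ok v201 && (
  let v202 := add v201 v0; ok v202 && (
  let v203 := mul v199 v202; ok v203 && (
  let v204 := add v197 v203; ok v204 && (
  let v205 := neg v204; ok v205 && (
  let v206 := cst ⟨tha, 0, 0, 0⟩; ok v206 && (
  let v207 := add v205 v206; ok v207 && (
  isPos 3 v207 && (
  true)))))))))))))))))))))))))))))))))))))))))))))))))))))))))))))))))))))))))))))))))))))))))))))))))))))))))))))))))))))))))))))))))))))))))))))))))))))))))))))))))))))))))))))))))))))))))))))))))))))))))))))))))))))))))))))))))))))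
  | _, _ => false

theorem chk_eq (O : Ops) : ∀ (r : Row) (m : List O.α),
    chk O.cst O.add O.sub O.mul O.scale O.neg O.inv O.exp O.log O.ok O.isPos O.isLt r m = true → runG O 3 (common r) m = true
  | ⟨_, _, _, _, _, _, _, _, _, _, _, _, _, _, _, _, _⟩, [_, _, _], h => h

def chkF : Row → List Pool.Agent.helper14.QF.opsF.α → Bool :=
  chk Pool.Agent.helper14.QF.opsF.cst Pool.Agent.helper14.QF.opsF.add Pool.Agent.helper14.QF.opsF.sub Pool.Agent.helper14.QF.opsF.mul Pool.Agent.helper14.QF.opsF.scale Pool.Agent.helper14.QF.opsF.neg Pool.Agent.helper14.QF.opsF.inv Pool.Agent.helper14.QF.opsF.exp Pool.Agent.helper14.QF.opsF.log Pool.Agent.helper14.QF.opsF.ok Pool.Agent.helper14.QF.opsF.isPos Pool.Agent.helper14.QF.opsF.isLt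

theorem chkF_eq : ∀ (r : Row) (m : List Pool.Agent.helper14.QF.opsF.α), chkF r m = true →
    runG Pool.Agent.helper14.QF.opsF 3 (common r) m = true := chk_eq Pool.Agent.helper14.QF.opsF

theorem common_real (r : Row) : (common r).all Pool.Agent.helper71.FF.rOK = true := rfl

end Pool.Agent.helper31.A2.Cert.L1P
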