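import Pool.Agent.helper31.A2.Cert.L20C0

/-!
Generated: certificates, assembled.
-/

namespace Pool.Agent.helper31.A2.Cert.L20

open Pool.Agent.helper31.IA (Z Op)
open Pool.Agent.helper31.IC (TD CovD covD_split)
open Pool.Agent.helper14.RW
open Pool.Agent.helper31.A2.Cert.L2P

theorem all_0 : CovD 0 (progs common T) [(63459426304, 14287831040), (3023656976384, 2473901162496), (566935683072, 566935683072)] := c0

theorem all_1 : CovD 0 (progs common T) [(63459426304, 14287831040), (274877906944, 274877906944), (841813590016, 292057776128)] := c1

end Pool.Agent.helper31.A2.Cert.L20
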