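import Pool.Agent.helper31.A2.Cert.L2P

/-!
Generated: the rows.
-/

namespace Pool.Agent.helper31.A2.Cert.L21

open Pool.Agent.helper14.RW
open Pool.Agent.helper31.A2.Cert.L2P

set_option maxRecDepth 100000

def T0 : BT Row :=
  (.l ⟨4976524918784, 1872605741056, 2308974837760, 1960853897216, 79725330432, 6256693608448, 35603399835648, 191897796608, 1202590842880, 5167919398912, 27380416512, 2857294102528, 1099511627776, 1134695546880, 19790823424, 69055021056, 79723233280⟩)

/-- the table -/
def T : BT Row := T0

end Pool.Agent.helper31.A2.Cert.L21
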