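import Pool.Agent.helper31.A2.Cert.L22T

/-!
Generated: certificates.
-/

namespace Pool.Agent.helper31.A2.Cert.L22

open Pool.Agent.helper31.IA (Z Op)
open Pool.Agent.helper31.IC (TD CovD covD_split)
open Pool.Agent.helper14.RW
open Pool.Agent.helper31.A2.Cert.L2P

mutual
theorem c0_t9 : CovD 0 (progs common T) [(63459426304, 14287831040), (588410519552, 38654705664), (70866960384, 70866960384)] :=
  covR_F chkF_eq T (.n 0 (.n 2 (.n 1 (.n 2 (.l 0) (.l 0)) (.n 2 (.l 0) (.l 0))) (.n 2 (.n 1 (.l 0) (.l 0)) (.l 0))) (.n 2 (.n 1 (.n 2 (.l 0) (.l 0)) (.n 2 (.l 0) (.l 0))) (.n 2 (.n 1 (.l 0) (.l 0)) (.l 0))))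
    [(63459426304, 14287831040), (588410519552, 38654705664), (70866960384, 70866960384)] rfl (by decide +kernel)
theorem c0_t10 : CovD 0 (progs common T) [(63459426304, 14287831040), (588410519552, 38654705664), (212600881152, 70866960384)] :=
  covR_F chkF_eq T (.n 1 (.n 2 (.l 0) (.l 0)) (.n 2 (.l 0) (.l 0)))
    [(63459426304, 14287831040), (588410519552, 38654705664), (212600881152, 70866960384)] rfl (by decide +kernel)
end

mutual
theorem c0_t12 : CovD 0 (progs common T) [(63459426304, 14287831040), (665719930880, 38654705664), (70866960384, 70866960384)] :=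
  covR_F chkF_eq T (.n 0 (.n 2 (.n 1 (.n 2 (.l 0) (.l 0)) (.n 2 (.l 0) (.l 0))) (.n 2 (.n 1 (.l 0) (.l 0)) (.l 0))) (.n 2 (.n 1 (.n 2 (.l 0) (.l 0)) (.n 2 (.l 0) (.l 0))) (.n 2 (.n 0 (.l 0) (.l 0)) (.l 0))))
    [(63459426304, 14287831040), (665719930880, 38654705664), (70866960384, 70866960384)] rfl (by decide +kernel)
theorem c0_t13 : CovD 0 (progs common T) [(63459426304, 14287831040), (665719930880, 38654705664), (212600881152, 70866960384)] :=
  covR_F chkF_eq T (.n 1 (.n 2 (.l 0) (.l 0)) (.n 2 (.l 0) (.l 0)))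
    [(63459426304, 14287831040), (665719930880, 38654705664), (212600881152, 70866960384)] rfl (by decide +kernel)
end

mutual
theorem c0_t14 : CovD 0 (progs common T) [(63459426304, 14287831040), (627065225216, 77309411328), (425201762304, 141733920768)] :=
  covR_F chkF_eq T (.n 2 (.n 1 (.l 0) (.l 0)) (.l 0))
    [(63459426304, 14287831040), (627065225216, 77309411328), (425201762304, 141733920768)] rfl (by decide +kernel)
theorem c0_t17 : CovD 0 (progs common T) [(63459426304, 14287831040), (743029342208, 38654705664), (141733920768, 141733920768)] :=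
  covR_F chkF_eq T (.n 2 (.n 0 (.n 2 (.n 2 (.l 0) (.l 0)) (.n 2 (.l 0) (.l 0))) (.n 2 (.n 2 (.l 0) (.l 0)) (.n 2 (.l 0) (.l 0)))) (.n 1 (.n 2 (.l 0) (.l 0)) (.n 2 (.l 0) (.l 0))))
    [(63459426304, 14287831040), (743029342208, 38654705664), (141733920768, 141733920768)] rfl (by decide +kernel)
end

mutual
theorem c0_t18 : CovD 0 (progs common T) [(63459426304, 14287831040), (820338753536, 38654705664), (141733920768, 141733920768)] :=
  covR_F chkF_eq T (.n 2 (.n 0 (.n 2 (.n 2 (.l 0) (.l 0)) (.n 2 (.l 0) (.l 0))) (.n 2 (.n 2 (.l 0) (.l 0)) (.n 2 (.l 0) (.l 0)))) (.n 2 (.l 0) (.l 0)))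
    [(63459426304, 14287831040), (820338753536, 38654705664), (141733920768, 141733920768)] rfl (by decide +kernel)
theorem c0_t19 : CovD 0 (progs common T) [(63459426304, 14287831040), (781684047872, 77309411328), (425201762304, 141733920768)] :=
  covR_F chkF_eq T (.n 2 (.n 1 (.l 0) (.l 0)) (.l 0))
    [(63459426304, 14287831040), (781684047872, 77309411328), (425201762304, 141733920768)] rfl (by decide +kernel)
end

mutual
theorem c0_t20 : CovD 0 (progs common T) [(63459426304, 14287831040), (704374636544, 154618822656), (850403524608, 283467841536)] :=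
  covR_F chkF_eq T (.n 2 (.n 1 (.l 0) (.l 0)) (.l 0))
    [(63459426304, 14287831040), (704374636544, 154618822656), (850403524608, 283467841536)] rfl (by decide +kernel)
theorem c0_t25 : CovD 0 (progs common T) [(63459426304, 14287831040), (897648164864, 38654705664), (141733920768, 141733920768)] :=
  covR_F chkF_eq T (.n 2 (.n 0 (.n 2 (.n 2 (.l 0) (.l 0)) (.n 2 (.l 0) (.l 0))) (.n 2 (.n 2 (.l 0) (.l 0)) (.n 2 (.l 0) (.l 0)))) (.n 2 (.l 0) (.l 0)))
    [(63459426304, 14287831040), (897648164864, 38654705664), (141733920768, 141733920768)] rfl (by decide +kernel)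
end

mutual
theorem c0_t26 : CovD 0 (progs common T) [(63459426304, 14287831040), (974957576192, 38654705664), (141733920768, 141733920768)] :=
  covR_F chkF_eq T (.n 2 (.n 0 (.n 2 (.n 1 (.l 0) (.l 0)) (.n 2 (.l 0) (.l 0))) (.n 2 (.n 1 (.l 0) (.l 0)) (.n 2 (.l 0) (.l 0)))) (.n 2 (.l 0) (.l 0)))
    [(63459426304, 14287831040), (974957576192, 38654705664), (141733920768, 141733920768)] rfl (by decide +kernel)
theorem c0_t27 : CovD 0 (progs common T) [(63459426304, 14287831040), (936302870528, 77309411328), (425201762304, 141733920768)] :=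
  covR_F chkF_eq T (.n 2 (.n 1 (.l 0) (.l 0)) (.l 0))
    [(63459426304, 14287831040), (936302870528, 77309411328), (425201762304, 141733920768)] rfl (by decide +kernel)
end

mutual
theorem c0_t28 : CovD 0 (progs common T) [(63459426304, 14287831040), (1090921693184, 77309411328), (283467841536, 283467841536)] :=
  covR_F chkF_eq T (.n 2 (.n 2 (.n 0 (.n 2 (.n 1 (.l 0) (.l 0)) (.n 2 (.n 1 (.l 0) (.l 0)) (.l 0))) (.n 2 (.n 1 (.l 0) (.l 0)) (.n 2 (.n 1 (.l 0) (.l 0)) (.l 0)))) (.n 2 (.n 1 (.l 0) (.l 0)) (.l 0))) (.n 2 (.n 1 (.l 0) (.l 0)) (.l 0)))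
    [(63459426304, 14287831040), (1090921693184, 77309411328), (283467841536, 283467841536)] rfl (by decide +kernel)
theorem c0_t29 : CovD 0 (progs common T) [(63459426304, 14287831040), (1013612281856, 154618822656), (850403524608, 283467841536)] :=
  covR_F chkF_eq T (.n 2 (.n 1 (.l 0) (.l 0)) (.l 0))
    [(63459426304, 14287831040), (1013612281856, 154618822656), (850403524608, 283467841536)] rfl (by decide +kernel)
end

mutual
theorem c0_t33 : CovD 0 (progs common T) [(63459426304, 14287831040), (1245540515840, 77309411328), (283467841536, 283467841536)] :=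
  covR_F chkF_eq T (.n 2 (.n 2 (.n 1 (.n 2 (.l 0) (.l 0)) (.n 2 (.l 0) (.l 0))) (.n 2 (.n 1 (.l 0) (.l 0)) (.l 0))) (.n 2 (.n 1 (.l 0) (.l 0)) (.l 0)))
    [(63459426304, 14287831040), (1245540515840, 77309411328), (283467841536, 283467841536)] rfl (by decide +kernel)
theorem c0_t34 : CovD 0 (progs common T) [(63459426304, 14287831040), (1400159338496, 77309411328), (283467841536, 283467841536)] :=
  covR_F chkF_eq T (.n 2 (.n 2 (.n 1 (.n 2 (.l 0) (.l 0)) (.n 2 (.l 0) (.l 0))) (.n 2 (.l 0) (.l 0))) (.n 2 (.n 1 (.l 0) (.l 0)) (.l 0)))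
    [(63459426304, 14287831040), (1400159338496, 77309411328), (283467841536, 283467841536)] rfl (by decide +kernel)
end

mutual
theorem c0_t35 : CovD 0 (progs common T) [(63459426304, 14287831040), (1322849927168, 154618822656), (850403524608, 283467841536)] :=
  covR_F chkF_eq T (.n 2 (.n 1 (.l 0) (.l 0)) (.l 0))
    [(63459426304, 14287831040), (1322849927168, 154618822656), (850403524608, 283467841536)] rfl (by decide +kernel)
theorem c0_t37 : CovD 0 (progs common T) [(63459426304, 14287831040), (1632087572480, 154618822656), (283467841536, 283467841536)] :=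
  covR_F chkF_eq T (.n 1 (.n 2 (.n 2 (.n 2 (.l 0) (.n 0 (.l 0) (.l 0))) (.n 2 (.l 0) (.l 0))) (.n 2 (.n 1 (.l 0) (.l 0)) (.l 0))) (.n 2 (.n 2 (.n 2 (.l 0) (.l 0)) (.n 2 (.l 0) (.l 0))) (.n 2 (.n 0 (.l 0) (.l 0)) (.l 0))))
    [(63459426304, 14287831040), (1632087572480, 154618822656), (283467841536, 283467841536)] rfl (by decide +kernel)
end

mutual
theorem c0_t38 : CovD 0 (progs common T) [(63459426304, 14287831040), (1632087572480, 154618822656), (850403524608, 283467841536)] :=
  covR_F chkF_eq T (.n 2 (.n 1 (.l 0) (.l 0)) (.l 0))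
    [(63459426304, 14287831040), (1632087572480, 154618822656), (850403524608, 283467841536)] rfl (by decide +kernel)
theorem c0_t41 : CovD 0 (progs common T) [(63459426304, 14287831040), (1941325217792, 154618822656), (566935683072, 566935683072)] :=
  covR_F chkF_eq T (.n 2 (.n 1 (.n 2 (.n 2 (.n 2 (.l 0) (.l 0)) (.n 2 (.l 0) (.l 0))) (.n 2 (.l 0) (.l 0))) (.n 2 (.n 2 (.n 2 (.l 0) (.l 0)) (.n 2 (.l 0) (.l 0))) (.n 2 (.l 0) (.l 0)))) (.n 2 (.n 1 (.l 0) (.l 0)) (.l 0)))
    [(63459426304, 14287831040), (1941325217792, 154618822656), (566935683072, 566935683072)] rfl (by decide +kernel)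
end

mutual
theorem c0_t42 : CovD 0 (progs common T) [(63459426304, 14287831040), (2250562863104, 154618822656), (566935683072, 566935683072)] :=
  covR_F chkF_eq T (.n 2 (.n 2 (.n 1 (.n 2 (.n 0 (.l 0) (.l 0)) (.n 2 (.l 0) (.l 0))) (.n 0 (.n 2 (.l 0) (.l 0)) (.n 2 (.l 0) (.l 0)))) (.n 2 (.n 1 (.l 0) (.l 0)) (.l 0))) (.n 2 (.n 1 (.l 0) (.l 0)) (.l 0)))
    [(63459426304, 14287831040), (2250562863104, 154618822656), (566935683072, 566935683072)] rfl (by decide +kernel)
theorem c0_t44 : CovD 0 (progs common T) [(63459426304, 14287831040), (2559800508416, 154618822656), (566935683072, 566935683072)] :=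
  covR_F chkF_eq T (.n 2 (.n 2 (.n 2 (.n 0 (.n 1 (.l 0) (.l 0)) (.n 1 (.l 0) (.l 0))) (.n 2 (.n 0 (.l 0) (.l 0)) (.l 0))) (.n 2 (.n 1 (.l 0) (.l 0)) (.l 0))) (.n 2 (.n 1 (.l 0) (.l 0)) (.l 0)))
    [(63459426304, 14287831040), (2559800508416, 154618822656), (566935683072, 566935683072)] rfl (by decide +kernel)
end

mutual
theorem c0_t45 : CovD 0 (progs common T) [(63459426304, 14287831040), (2869038153728, 154618822656), (566935683072, 566935683072)] :=
  covR_F chkF_eq T (.n 2 (.n 2 (.n 2 (.n 0 (.l 0) (.l 0)) (.n 2 (.n 0 (.l 0) (.l 0)) (.l 0))) (.n 2 (.n 0 (.l 0) (.l 0)) (.l 0))) (.n 2 (.n 1 (.l 0) (.l 0)) (.l 0)))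
    [(63459426304, 14287831040), (2869038153728, 154618822656), (566935683072, 566935683072)] rfl (by decide +kernel)
theorem c0_t49 : CovD 0 (progs common T) [(63459426304, 14287831040), (3178275799040, 154618822656), (566935683072, 566935683072)] :=
  covR_F chkF_eq T (.n 2 (.n 2 (.n 0 (.n 2 (.l 0) (.l 0)) (.n 2 (.l 0) (.l 0))) (.n 2 (.n 0 (.l 0) (.l 0)) (.l 0))) (.n 2 (.n 1 (.l 0) (.l 0)) (.l 0)))
    [(63459426304, 14287831040), (3178275799040, 154618822656), (566935683072, 566935683072)] rfl (by decide +kernel)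
end

mutual
theorem c0_t50 : CovD 0 (progs common T) [(63459426304, 14287831040), (3487513444352, 154618822656), (566935683072, 566935683072)] :=
  covR_F chkF_eq T (.n 2 (.n 2 (.n 0 (.n 2 (.l 0) (.l 0)) (.n 2 (.l 0) (.l 0))) (.n 2 (.n 0 (.l 0) (.l 0)) (.l 0))) (.n 2 (.n 0 (.l 0) (.l 0)) (.l 0)))
    [(63459426304, 14287831040), (3487513444352, 154618822656), (566935683072, 566935683072)] rfl (by decide +kernel)
theorem c0_t52 : CovD 0 (progs common T) [(63459426304, 14287831040), (3796751089664, 154618822656), (566935683072, 566935683072)] :=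
  covR_F chkF_eq T (.n 2 (.n 2 (.n 0 (.n 2 (.l 0) (.l 0)) (.n 0 (.l 0) (.l 0))) (.n 2 (.n 0 (.l 0) (.l 0)) (.l 0))) (.n 2 (.n 0 (.l 0) (.l 0)) (.l 0)))
    [(63459426304, 14287831040), (3796751089664, 154618822656), (566935683072, 566935683072)] rfl (by decide +kernel)
end

mutual
theorem c0_t53 : CovD 0 (progs common T) [(63459426304, 14287831040), (4105988734976, 154618822656), (566935683072, 566935683072)] :=
  covR_F chkF_eq T (.n 2 (.n 2 (.n 0 (.n 0 (.l 0) (.l 0)) (.n 0 (.l 0) (.l 0))) (.n 2 (.n 0 (.l 0) (.l 0)) (.l 0))) (.n 2 (.n 0 (.l 0) (.l 0)) (.l 0)))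
    [(63459426304, 14287831040), (4105988734976, 154618822656), (566935683072, 566935683072)] rfl (by decide +kernel)
theorem c0_t55 : CovD 0 (progs common T) [(56315510784, 7143915520), (4879082848256, 618475290624), (566935683072, 566935683072)] :=
  covR_F chkF_eq T (.n 1 (.n 2 (.n 2 (.n 1 (.n 0 (.l 0) (.l 0)) (.l 0)) (.n 2 (.n 0 (.l 0) (.l 0)) (.l 0))) (.n 2 (.n 1 (.l 0) (.l 0)) (.l 0))) (.n 2 (.n 1 (.n 2 (.l 0) (.l 0)) (.n 2 (.l 0) (.l 0))) (.n 2 (.n 0 (.l 0) (.l 0)) (.l 0))))
    [(56315510784, 7143915520), (4879082848256, 618475290624), (566935683072, 566935683072)] rfl (by decide +kernel)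
end

mutual
theorem c0_t56 : CovD 0 (progs common T) [(70603341824, 7143915520), (4879082848256, 618475290624), (566935683072, 566935683072)] :=
  covR_F chkF_eq T (.n 1 (.n 2 (.n 1 (.n 2 (.n 0 (.l 0) (.l 0)) (.l 0)) (.n 2 (.l 0) (.l 0))) (.n 2 (.n 0 (.l 0) (.l 0)) (.l 0))) (.n 2 (.n 0 (.n 2 (.l 0) (.l 0)) (.n 2 (.l 0) (.l 0))) (.n 2 (.l 0) (.l 0))))
    [(70603341824, 7143915520), (4879082848256, 618475290624), (566935683072, 566935683072)] rfl (by decide +kernel)
theorem c1 : CovD 0 (progs common T) [(63459426304, 14287831040), (274877906944, 274877906944), (841813590016, 292057776128)] :=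
  covR_F chkF_eq T (.n 1 (.n 1 (.n 2 (.n 0 (.l 0) (.l 0)) (.l 0)) (.n 2 (.n 1 (.l 0) (.l 0)) (.l 0))) (.n 2 (.n 1 (.n 0 (.l 0) (.l 0)) (.l 0)) (.l 0)))
    [(63459426304, 14287831040), (274877906944, 274877906944), (841813590016, 292057776128)] rfl (by decide +kernel)
end

theorem c0_t8 : CovD 0 (progs common T) [(63459426304, 14287831040), (588410519552, 38654705664), (141733920768, 141733920768)] :=
  covD_split 2 (by decide +kernel) c0_t9 c0_t10

theorem c0_t11 : CovD 0 (progs common T) [(63459426304, 14287831040), (665719930880, 38654705664), (141733920768, 141733920768)] :=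
  covD_split 2 (by decide +kernel) c0_t12 c0_t13

theorem c0_t7 : CovD 0 (progs common T) [(63459426304, 14287831040), (627065225216, 77309411328), (141733920768, 141733920768)] :=
  covD_split 1 (by decide +kernel) c0_t8 c0_t11

theorem c0_t6 : CovD 0 (progs common T) [(63459426304, 14287831040), (627065225216, 77309411328), (283467841536, 283467841536)] :=
  covD_split 2 (by decide +kernel) c0_t7 c0_t14

theorem c0_t16 : CovD 0 (progs common T) [(63459426304, 14287831040), (781684047872, 77309411328), (141733920768, 141733920768)] :=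
  covD_split 1 (by decide +kernel) c0_t17 c0_t18

theorem c0_t15 : CovD 0 (progs common T) [(63459426304, 14287831040), (781684047872, 77309411328), (283467841536, 283467841536)] :=
  covD_split 2 (by decide +kernel) c0_t16 c0_t19

theorem c0_t5 : CovD 0 (progs common T) [(63459426304, 14287831040), (704374636544, 154618822656), (283467841536, 283467841536)] :=
  covD_split 1 (by decide +kernel) c0_t6 c0_t15

theorem c0_t4 : CovD 0 (progs common T) [(63459426304, 14287831040), (704374636544, 154618822656), (566935683072, 566935683072)] :=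
  covD_split 2 (by decide +kernel) c0_t5 c0_t20

theorem c0_t24 : CovD 0 (progs common T) [(63459426304, 14287831040), (936302870528, 77309411328), (141733920768, 141733920768)] :=
  covD_split 1 (by decide +kernel) c0_t25 c0_t26

theorem c0_t23 : CovD 0 (progs common T) [(63459426304, 14287831040), (936302870528, 77309411328), (283467841536, 283467841536)] :=
  covD_split 2 (by decide +kernel) c0_t24 c0_t27

theorem c0_t22 : CovD 0 (progs common T) [(63459426304, 14287831040), (1013612281856, 154618822656), (283467841536, 283467841536)] :=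
  covD_split 1 (by decide +kernel) c0_t23 c0_t28

theorem c0_t21 : CovD 0 (progs common T) [(63459426304, 14287831040), (1013612281856, 154618822656), (566935683072, 566935683072)] :=
  covD_split 2 (by decide +kernel) c0_t22 c0_t29

theorem c0_t3 : CovD 0 (progs common T) [(63459426304, 14287831040), (858993459200, 309237645312), (566935683072, 566935683072)] :=
  covD_split 1 (by decide +kernel) c0_t4 c0_t21

theorem c0_t32 : CovD 0 (progs common T) [(63459426304, 14287831040), (1322849927168, 154618822656), (283467841536, 283467841536)] :=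
  covD_split 1 (by decide +kernel) c0_t33 c0_t34

theorem c0_t31 : CovD 0 (progs common T) [(63459426304, 14287831040), (1322849927168, 154618822656), (566935683072, 566935683072)] :=
  covD_split 2 (by decide +kernel) c0_t32 c0_t35

theorem c0_t36 : CovD 0 (progs common T) [(63459426304, 14287831040), (1632087572480, 154618822656), (566935683072, 566935683072)] :=
  covD_split 2 (by decide +kernel) c0_t37 c0_t38

theorem c0_t30 : CovD 0 (progs common T) [(63459426304, 14287831040), (1477468749824, 309237645312), (566935683072, 566935683072)] :=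
  covD_split 1 (by decide +kernel) c0_t31 c0_t36

theorem c0_t2 : CovD 0 (progs common T) [(63459426304, 14287831040), (1168231104512, 618475290624), (566935683072, 566935683072)] :=
  covD_split 1 (by decide +kernel) c0_t3 c0_t30

theorem c0_t40 : CovD 0 (progs common T) [(63459426304, 14287831040), (2095944040448, 309237645312), (566935683072, 566935683072)] :=
  covD_split 1 (by decide +kernel) c0_t41 c0_t42

theorem c0_t43 : CovD 0 (progs common T) [(63459426304, 14287831040), (2714419331072, 309237645312), (566935683072, 566935683072)] :=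
  covD_split 1 (by decide +kernel) c0_t44 c0_t45

theorem c0_t39 : CovD 0 (progs common T) [(63459426304, 14287831040), (2405181685760, 618475290624), (566935683072, 566935683072)] :=
  covD_split 1 (by decide +kernel) c0_t40 c0_t43

theorem c0_t1 : CovD 0 (progs common T) [(63459426304, 14287831040), (1786706395136, 1236950581248), (566935683072, 566935683072)] :=
  covD_split 1 (by decide +kernel) c0_t2 c0_t39

theorem c0_t48 : CovD 0 (progs common T) [(63459426304, 14287831040), (3332894621696, 309237645312), (566935683072, 566935683072)] :=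
  covD_split 1 (by decide +kernel) c0_t49 c0_t50

theorem c0_t51 : CovD 0 (progs common T) [(63459426304, 14287831040), (3951369912320, 309237645312), (566935683072, 566935683072)] :=
  covD_split 1 (by decide +kernel) c0_t52 c0_t53

theorem c0_t47 : CovD 0 (progs common T) [(63459426304, 14287831040), (3642132267008, 618475290624), (566935683072, 566935683072)] :=
  covD_split 1 (by decide +kernel) c0_t48 c0_t51

theorem c0_t54 : CovD 0 (progs common T) [(63459426304, 14287831040), (4879082848256, 618475290624), (566935683072, 566935683072)] :=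
  covD_split 0 (by decide +kernel) c0_t55 c0_t56

theorem c0_t46 : CovD 0 (progs common T) [(63459426304, 14287831040), (4260607557632, 1236950581248), (566935683072, 566935683072)] :=
  covD_split 1 (by decide +kernel) c0_t47 c0_t54

theorem c0 : CovD 0 (progs common T) [(63459426304, 14287831040), (3023656976384, 2473901162496), (566935683072, 566935683072)] :=
  covD_split 1 (by decide +kernel) c0_t1 c0_t46

end Pool.Agent.helper31.A2.Cert.L22
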