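import Pool.Agent.helper31.A2.Cert.L2P

/-!
Generated: the rows.
-/

namespace Pool.Agent.helper31.A2.Cert.L22

open Pool.Agent.helper14.RW
open Pool.Agent.helper31.A2.Cert.L2P

set_option maxRecDepth 100000

def T0 : BT Row :=
  (.l ⟨6356283162624, 1099511627776, 2308974837760, 2857294102528, 69055021056, 7614977015808, 52739782475776, 174181056512, 1253056708608, 6546603900928, 26038239232, 3761317609472, 1099511627776, 1134695546880, 19790823424, 62679678976, 69052923904⟩)

/-- the table -/
def T : BT Row := T0

end Pool.Agent.helper31.A2.Cert.L22
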