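import Pool.Agent.helper14.RW.Eng

/-!
Generated: a program with a row of constants, and its compiled form.
-/

namespace Pool.Agent.helper31.A2.Cert.L2P

open Pool.Agent.helper31.IA (Z Op)
open Pool.Agent.helper31.IC (Ops runG TD CovD covD_split)
open Pool.Agent.helper14.RW

set_option maxRecDepth 100000

/-- a row: the numbers times `2^40` -/
structure Row where
  RW : Nat
  Mo : Nat
  ys2 : Nat
  L1 : Nat
  a : Nat
  RH : Nat
  RHq : Nat
  dq : Nat
  ex0 : Nat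
  La1 : Nat
  Yd : Nat
  Ld : Nat
  M1 : Nat
  yE1 : Nat
  Yc : Nat
  a1 : Nat
  tha : Nat
deriving DecidableEq

def common (r : Row) : List Op := [
  .const ⟨1099511627776, 0, 0, 0⟩,
  .mul 1 1,
  .mul 4 4,
  .mul 4 4,
  .add 0 1,
  .log 0,
  .scale ⟨549755813888, 0, 0, 0⟩ 0,
  .exp 0,
  .neg 1,
  .exp 0,
  .mul 11 0,
  .mul 0 0,
  .mul 12 4,
  .mul 0 0,
  .mul 1 14,
  .mul 1 13,
  .mul 17 14,
  .mul 0 0,
  .scale ⟨1282763915264, 0, 0, 0⟩ 0,
  .mul 17 17,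
  .scale ⟨35184372088832, 0, 0, 0⟩ 0,
  .add 2 0,
  .scale ⟨r.RW, 0, 0, 0⟩ 6,
  .scale ⟨r.RW, 0, 0, 0⟩ 0,
  .add 0 23,
  .scale ⟨r.Mo, 0, 0, 0⟩ 12,
  .scale ⟨r.Mo, 0, 0, 0⟩ 24,
  .mul 28 10,
  .const ⟨r.ys2, 0, 0, 0⟩,
  .add 1 0,
  .scale ⟨2660818223104, 0, 0, 0⟩ 28,
  .scale ⟨r.L1, 0, 0, 0⟩ 17,
  .sub 31 10,
  .mul 3 6,
  .sub 1 0,
  .scale ⟨3298534883328, 0, 0, 0⟩ 33,
  .scale ⟨2199023255552, 0, 0, 0⟩ 9,
  .add 1 0,
  .mul 0 6,
  .sub 4 0,
  .mul 2 26,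
  .scale ⟨10995116277760, 0, 0, 0⟩ 0,
  .sub 2 0,
  .pos 0,
  .mul 3 11,
  .neg 0,
  .exp 0,
  .mul 33 21,
  .mul 0 21,
  .mul 37 33,
  .scale ⟨r.L1, 0, 0, 0⟩ 0,
  .scale ⟨2199023255552, 0, 0, 0⟩ 0,
  .sub 26 0,
  .scale ⟨r.RW, 0, 0, 0⟩ 3,
  .scale ⟨2199023255552, 0, 0, 0⟩ 0,
  .add 30 0,
  .scale ⟨549755813888, 0, 0, 0⟩ 0,
  .add 55 0,
  .const ⟨4398046511104, 0, 0, 0⟩,
  .add 59 0,
  .inv 0,
  .mul 3 0,
  .scale ⟨r.a, 0, 0, 0⟩ 0,
  .scale ⟨4398046511104, 0, 0, 0⟩ 0,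
  .mul 0 55,
  .sub 63 0,
  .pos 0,
  .inv 0,
  .const ⟨2199023255552, 0, 0, 0⟩,
  .scale ⟨274877906944, 0, 0, 0⟩ 64,
  .sub 1 0,
  .mul 66 66,
  .scale ⟨5727322112, 0, 0, 0⟩ 0,
  .add 2 0,
  .mul 4 4,
  .mul 0 5,
  .mul 0 0,
  .scale ⟨900726784, 0, 0, 0⟩ 0,
  .add 4 0,
  .scale ⟨r.RW, 0, 0, 0⟩ 63,
  .add 1 0,
  .mul 65 54,
  .scale ⟨659707396096, 0, 0, 0⟩ 0,
  .add 33 0,
  .exp 0,
  .add 4 0,
  .sub 0 83,
  .mul 85 60,
  .mul 0 60,
  .mul 24 21,
  .mul 3 0,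
  .add 2 0,
  .mul 0 82,
  .mul 45 27,
  .sub 91 0,
  .inv 0,
  .mul 2 0,
  .mul 93 0,
  .add 65 0,
  .sub 73 85,
  .const ⟨1108101562368, 0, 0, 0⟩,
  .add 1 0,
  .log 0,
  .scale ⟨549755813888, 0, 0, 0⟩ 0,
  .exp 0,
  .mul 0 95,
  .mul 0 102,
  .scale ⟨549755813888, 0, 0, 0⟩ 0,
  .const ⟨1116004679680, 0, 0, 0⟩,
  .add 1 0,
  .scale ⟨549755813888, 0, 0, 0⟩ 93,
  .mul 0 57,
  .scale ⟨2253999046656, 0, 0, 0⟩ 99,
  .add 8 0,
  .mul 2 0,
  .scale ⟨13744734208, 0, 0, 0⟩ 102,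
  .add 11 0,
  .mul 0 25,
  .add 3 0,
  .mul 115 26,
  .scale ⟨1869170606080, 0, 0, 0⟩ 0,
  .scale ⟨2418926419968, 0, 0, 0⟩ 22,
  .add 1 0,
  .mul 109 0,
  .add 5 0,
  .mul 15 0,
  .mul 0 110,
  .mul 1 110,
  .const ⟨1085552984064, 0, 0, 0⟩,
  .scale ⟨2199023255552, 0, 0, 0⟩ 1,
  .sub 1 0,
  .sub 128 3,
  .pos 0,
  .pos 1,
  .add 4 129,
  .mul 0 0,
  .const ⟨r.RH, 0, 0, 0⟩,
  .const ⟨r.RW, 0, 0, 0⟩,
  .sub 1 0,
  .sub 0 11,
  .sub 0 4,
  .pos 0,
  .scale ⟨10995116277760, 0, 0, 0⟩ 8,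
  .sub 0 5,
  .pos 0,
  .scale ⟨989560045568, 0, 0, 0⟩ 10,
  .scale ⟨r.RHq, 0, 0, 0⟩ 124,
  .sub 1 0,
  .pos 0,
  .scale ⟨11941082824704, 0, 0, 0⟩ 13,
  .sub 0 10,
  .sub 0 12,
  .pos 0,
  .const ⟨r.L1, 0, 0, 0⟩,
  .sub 0 22,
  .pos 0,
  .scale ⟨r.dq, 0, 0, 0⟩ 17,
  .scale ⟨r.ex0, 0, 0, 0⟩ 24,
  .sub 1 0,
  .pos 0,
  .sub 149 22,
  .scale ⟨r.La1, 0, 0, 0⟩ 0,
  .sub 0 18,
  .sub 0 29,
  .pos 0,
  .neg 36,
  .const ⟨10994319360, 0, 0, 0⟩,
  .add 1 0,
  .pos 0,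
  .neg 60,
  .const ⟨36649828352, 0, 0, 0⟩,
  .add 1 0,
  .pos 0,
  .neg 55,
  .const ⟨21989687296, 0, 0, 0⟩,
  .add 1 0,
  .pos 0,
  .mul 38 161,
  .neg 0,
  .const ⟨5496635392, 0, 0, 0⟩,
  .add 1 0,
  .pos 0,
  .neg 42,
  .const ⟨r.Yd, 0, 0, 0⟩,
  .add 1 0,
  .pos 0,
  .mul 156 41,
  .scale ⟨r.Ld, 0, 0, 0⟩ 0,
  .scale ⟨r.M1, 0, 0, 0⟩ 170,
  .scale ⟨r.M1, 0, 0, 0⟩ 48,
  .add 0 49,
  .scale ⟨r.M1, 0, 0, 0⟩ 49,
  .add 0 50,
  .const ⟨r.yE1, 0, 0, 0⟩,
  .sub 0 180,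
  .pos 0,
  .const ⟨r.Yc, 0, 0, 0⟩,
  .sub 0 55,
  .pos 0,
  .mul 151 8,
  .sub 149 0,
  .scale ⟨2199023255552, 0, 0, 0⟩ 10,
  .add 148 0,
  .mul 0 13,
  .sub 3 0,
  .mul 2 173,
  .scale ⟨12094627905536, 0, 0, 0⟩ 0,
  .sub 2 0,
  .pos 0,
  .mul 3 18,
  .neg 0,
  .exp 0,
  .scale ⟨549755813888, 0, 0, 0⟩ 18,
  .sub 193 0,
  .pos 0,
  .inv 0,
  .add 2 195,
  .mul 0 1,
  .mul 21 2,
  .scale ⟨274877906944, 0, 0, 0⟩ 200,
  .add 0 199,
  .mul 2 0,
  .scale ⟨r.a1, 0, 0, 0⟩ 9,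
  .mul 5 0,
  .add 179 80,
  .mul 190 0,
  .add 0 205,
  .mul 3 0,
  .add 6 0,
  .neg 0,
  .const ⟨r.tha, 0, 0, 0⟩,
  .add 1 0,
  .pos 0]

def chk {α : Type} (cst : Z → α) (add sub mul : α → α → α) (scale : Z → α → α)
    (neg inv exp log : α → α) (ok : α → Bool) (isPos : Nat → α → Bool) (_isLt : α → Nat → Bool) :
    Row → List α → Bool
  | ⟨RW, Mo, ys2, L1, a, RH, RHq, dq, ex0, La1, Yd, Ld, M1, yE1, Yc, a1, tha⟩, [u0, u1, u2] =>
  let v0 := cst ⟨1099511627776, 0, 0, 0⟩; ok v0 && (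
  let v1 := mul u0 u0; ok v1 && (
  let v2 := mul u2 u2; ok v2 && (
  let v3 := mul u1 u1; ok v3 && (
  let v4 := add v3 v2; ok v4 && (
  let v5 := log v4; ok v5 && (
  let v6 := scale ⟨549755813888, 0, 0, 0⟩ v5; ok v6 && (
  let v7 := exp v6; ok v7 && (
  let v8 := neg v6; ok v8 && (
  let v9 := exp v8; ok v9 && (
  let v10 := mul u1 v9; ok v10 && (
  let v11 := mul v10 v10; ok v11 && (
  let v12 := mul u0 v7; ok v12 && (
  let v13 := mul v12 v12; ok v13 && (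
  let v14 := mul v12 u0; ok v14 && (
  let v15 := mul v13 v1; ok v15 && (
  let v16 := mul u1 v1; ok v16 && (
  let v17 := mul v16 v16; ok v17 && (
  let v18 := scale ⟨1282763915264, 0, 0, 0⟩ v17; ok v18 && (
  let v19 := mul v1 v1; ok v19 && (
  let v20 := scale ⟨35184372088832, 0, 0, 0⟩ v19; ok v20 && (
  let v21 := add v18 v20; ok v21 && (
  let v22 := scale ⟨RW, 0, 0, 0⟩ v15; ok v22 && (
  let v23 := scale ⟨RW, 0, 0, 0⟩ v22; ok v23 && (
  let v24 := add v23 v0; ok v24 && (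
  let v25 := scale ⟨Mo, 0, 0, 0⟩ v12; ok v25 && (
  let v26 := scale ⟨Mo, 0, 0, 0⟩ v1; ok v26 && (
  let v27 := mul u1 v16; ok v27 && (
  let v28 := cst ⟨ys2, 0, 0, 0⟩; ok v28 && (
  let v29 := add v27 v28; ok v29 && (
  let v30 := scale ⟨2660818223104, 0, 0, 0⟩ v1; ok v30 && (
  let v31 := scale ⟨L1, 0, 0, 0⟩ v13; ok v31 && (
  let v32 := sub v0 v21; ok v32 && (
  let v33 := mul v29 v26; ok v33 && (
  let v34 := sub v32 v33; ok v34 && (
  let v35 := scale ⟨3298534883328, 0, 0, 0⟩ v1; ok v35 && (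
  let v36 := scale ⟨2199023255552, 0, 0, 0⟩ v26; ok v36 && (
  let v37 := add v35 v36; ok v37 && (
  let v38 := mul v37 v31; ok v38 && (
  let v39 := sub v34 v38; ok v39 && (
  let v40 := mul v37 v13; ok v40 && (
  let v41 := scale ⟨10995116277760, 0, 0, 0⟩ v40; ok v41 && (
  let v42 := sub v39 v41; ok v42 && (
  isPos 3 v42 && (
  let v43 := mul v39 v31; ok v43 && (
  let v44 := neg v43; ok v44 && (
  let v45 := exp v44; ok v45 && (
  let v46 := mul v12 v24; ok v46 && (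
  let v47 := mul v46 v25; ok v47 && (
  let v48 := mul v10 v14; ok v48 && (
  let v49 := scale ⟨L1, 0, 0, 0⟩ v48; ok v49 && (
  let v50 := scale ⟨2199023255552, 0, 0, 0⟩ v49; ok v50 && (
  let v51 := sub v24 v50; ok v51 && (
  let v52 := scale ⟨RW, 0, 0, 0⟩ v48; ok v52 && (
  let v53 := scale ⟨2199023255552, 0, 0, 0⟩ v52; ok v53 && (
  let v54 := add v23 v53; ok v54 && (
  let v55 := scale ⟨549755813888, 0, 0, 0⟩ v54; ok v55 && (
  let v56 := add v0 v55; ok v56 && (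
  let v57 := cst ⟨4398046511104, 0, 0, 0⟩; ok v57 && (
  let v58 := add u1 v57; ok v58 && (
  let v59 := inv v58; ok v59 && (
  let v60 := mul v56 v59; ok v60 && (
  let v61 := scale ⟨a, 0, 0, 0⟩ v60; ok v61 && (
  let v62 := scale ⟨4398046511104, 0, 0, 0⟩ v61; ok v62 && (
  let v63 := mul v62 v7; ok v63 && (
  let v64 := sub v0 v63; ok v64 && (
  isPos 3 v64 && (
  let v65 := inv v64; ok v65 && (
  let v66 := cst ⟨2199023255552, 0, 0, 0⟩; ok v66 && (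
  let v67 := scale ⟨274877906944, 0, 0, 0⟩ v2; ok v67 && (
  let v68 := sub v66 v67; ok v68 && (
  let v69 := mul v2 v2; ok v69 && (
  let v70 := scale ⟨5727322112, 0, 0, 0⟩ v69; ok v70 && (
  let v71 := add v68 v70; ok v71 && (
  let v72 := mul v67 v67; ok v72 && (
  let v73 := mul v72 v67; ok v73 && (
  let v74 := mul v73 v73; ok v74 && (
  let v75 := scale ⟨900726784, 0, 0, 0⟩ v74; ok v75 && (
  let v76 := add v71 v75; ok v76 && (
  let v77 := scale ⟨RW, 0, 0, 0⟩ v13; ok v77 && (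
  let v78 := add v76 v77; ok v78 && (
  let v79 := mul v13 v24; ok v79 && (
  let v80 := scale ⟨659707396096, 0, 0, 0⟩ v79; ok v80 && (
  let v81 := add v47 v80; ok v81 && (
  let v82 := exp v81; ok v82 && (
  let v83 := add v78 v82; ok v83 && (
  let v84 := sub v83 v0; ok v84 && (
  let v85 := mul u0 v24; ok v85 && (
  let v86 := mul v85 v25; ok v86 && (
  let v87 := mul v62 v65; ok v87 && (
  let v88 := mul v84 v87; ok v88 && (
  let v89 := add v86 v88; ok v89 && (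
  let v90 := mul v89 v7; ok v90 && (
  let v91 := mul v45 v63; ok v91 && (
  let v92 := sub v0 v91; ok v92 && (
  let v93 := inv v92; ok v93 && (
  let v94 := mul v91 v93; ok v94 && (
  let v95 := mul v1 v94; ok v95 && (
  let v96 := add v30 v95; ok v96 && (
  let v97 := sub v23 v11; ok v97 && (
  let v98 := cst ⟨1108101562368, 0, 0, 0⟩; ok v98 && (
  let v99 := add v97 v98; ok v99 && (
  let v100 := log v99; ok v100 && (
  let v101 := scale ⟨549755813888, 0, 0, 0⟩ v100; ok v101 && (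
  let v102 := exp v101; ok v102 && (
  let v103 := mul v102 v7; ok v103 && (
  let v104 := mul v103 v1; ok v104 && (
  let v105 := scale ⟨549755813888, 0, 0, 0⟩ v104; ok v105 && (
  let v106 := cst ⟨1116004679680, 0, 0, 0⟩; ok v106 && (
  let v107 := add v105 v106; ok v107 && (
  let v108 := scale ⟨549755813888, 0, 0, 0⟩ v14; ok v108 && (
  let v109 := mul v108 v51; ok v109 && (
  let v110 := scale ⟨2253999046656, 0, 0, 0⟩ v10; ok v110 && (
  let v111 := add v102 v110; ok v111 && (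
  let v112 := mul v109 v111; ok v112 && (
  let v113 := scale ⟨13744734208, 0, 0, 0⟩ v10; ok v113 && (
  let v114 := add v102 v113; ok v114 && (
  let v115 := mul v114 v89; ok v115 && (
  let v116 := add v112 v115; ok v116 && (
  let v117 := mul v1 v90; ok v117 && (
  let v118 := scale ⟨1869170606080, 0, 0, 0⟩ v117; ok v118 && (
  let v119 := scale ⟨2418926419968, 0, 0, 0⟩ v96; ok v119 && (
  let v120 := add v118 v119; ok v120 && (
  let v121 := mul v11 v120; ok v121 && (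
  let v122 := add v116 v121; ok v122 && (
  let v123 := mul v107 v122; ok v123 && (
  let v124 := mul v123 v13; ok v124 && (
  let v125 := mul v123 v14; ok v125 && (
  let v126 := cst ⟨1085552984064, 0, 0, 0⟩; ok v126 && (
  let v127 := scale ⟨2199023255552, 0, 0, 0⟩ v125; ok v127 && (
  let v128 := sub v126 v127; ok v128 && (
  let v129 := sub v0 v125; ok v129 && (
  isPos 3 v129 && (
  isPos 3 v128 && (
  let v130 := add v125 v0; ok v130 && (
  let v131 := mul v130 v130; ok v131 && (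
  let v132 := cst ⟨RH, 0, 0, 0⟩; ok v132 && (
  let v133 := cst ⟨RW, 0, 0, 0⟩; ok v133 && (
  let v134 := sub v132 v133; ok v134 && (
  let v135 := sub v134 v123; ok v135 && (
  let v136 := sub v135 v131; ok v136 && (
  isPos 3 v136 && (
  let v137 := scale ⟨10995116277760, 0, 0, 0⟩ v128; ok v137 && (
  let v138 := sub v137 v132; ok v138 && (
  isPos 3 v138 && (
  let v139 := scale ⟨989560045568, 0, 0, 0⟩ v128; ok v139 && (
  let v140 := scale ⟨RHq, 0, 0, 0⟩ v15; ok v140 && (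
  let v141 := sub v139 v140; ok v141 && (
  isPos 3 v141 && (
  let v142 := scale ⟨11941082824704, 0, 0, 0⟩ v128; ok v142 && (
  let v143 := sub v142 v132; ok v143 && (
  let v144 := sub v143 v131; ok v144 && (
  isPos 3 v144 && (
  let v145 := cst ⟨L1, 0, 0, 0⟩; ok v145 && (
  let v146 := sub v145 v123; ok v146 && (
  isPos 3 v146 && (
  let v147 := scale ⟨dq, 0, 0, 0⟩ v129; ok v147 && (
  let v148 := scale ⟨ex0, 0, 0, 0⟩ v123; ok v148 && (
  let v149 := sub v147 v148; ok v149 && (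
  isPos 3 v149 && (
  let v150 := sub v0 v127; ok v150 && (
  let v151 := scale ⟨La1, 0, 0, 0⟩ v150; ok v151 && (
  let v152 := sub v151 v133; ok v152 && (
  let v153 := sub v152 v123; ok v153 && (
  isPos 3 v153 && (
  let v154 := neg v117; ok v154 && (
  let v155 := cst ⟨10994319360, 0, 0, 0⟩; ok v155 && (
  let v156 := add v154 v155; ok v156 && (
  isPos 3 v156 && (
  let v157 := neg v96; ok v157 && (
  let v158 := cst ⟨36649828352, 0, 0, 0⟩; ok v158 && (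
  let v159 := add v157 v158; ok v159 && (
  isPos 3 v159 && (
  let v160 := neg v104; ok v160 && (
  let v161 := cst ⟨21989687296, 0, 0, 0⟩; ok v161 && (
  let v162 := add v160 v161; ok v162 && (
  isPos 3 v162 && (
  let v163 := mul v124 v1; ok v163 && (
  let v164 := neg v163; ok v164 && (
  let v165 := cst ⟨5496635392, 0, 0, 0⟩; ok v165 && (
  let v166 := add v164 v165; ok v166 && (
  isPos 3 v166 && (
  let v167 := neg v124; ok v167 && (
  let v168 := cst ⟨Yd, 0, 0, 0⟩; ok v168 && (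
  let v169 := add v167 v168; ok v169 && (
  isPos 3 v169 && (
  let v170 := mul v13 v128; ok v170 && (
  let v171 := scale ⟨Ld, 0, 0, 0⟩ v170; ok v171 && (
  let v172 := scale ⟨M1, 0, 0, 0⟩ v1; ok v172 && (
  let v173 := scale ⟨M1, 0, 0, 0⟩ v124; ok v173 && (
  let v174 := add v173 v124; ok v174 && (
  let v175 := scale ⟨M1, 0, 0, 0⟩ v125; ok v175 && (
  let v176 := add v175 v125; ok v176 && (
  let v177 := cst ⟨yE1, 0, 0, 0⟩; ok v177 && (
  let v178 := sub v177 u2; ok v178 && (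
  isPos 3 v178 && (
  let v179 := cst ⟨Yc, 0, 0, 0⟩; ok v179 && (
  let v180 := sub v179 v124; ok v180 && (
  isPos 3 v180 && (
  let v181 := mul v29 v172; ok v181 && (
  let v182 := sub v32 v181; ok v182 && (
  let v183 := scale ⟨2199023255552, 0, 0, 0⟩ v172; ok v183 && (
  let v184 := add v35 v183; ok v184 && (
  let v185 := mul v184 v171; ok v185 && (
  let v186 := sub v182 v185; ok v186 && (
  let v187 := mul v184 v13; ok v187 && (
  let v188 := scale ⟨12094627905536, 0, 0, 0⟩ v187; ok v188 && (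
  let v189 := sub v186 v188; ok v189 && (
  isPos 3 v189 && (
  let v190 := mul v186 v171; ok v190 && (
  let v191 := neg v190; ok v191 && (
  let v192 := exp v191; ok v192 && (
  let v193 := scale ⟨549755813888, 0, 0, 0⟩ v174; ok v193 && (
  let v194 := sub v0 v193; ok v194 && (
  isPos 3 v194 && (
  let v195 := inv v194; ok v195 && (
  let v196 := add v193 v0; ok v196 && (
  let v197 := mul v196 v195; ok v197 && (
  let v198 := mul v176 v195; ok v198 && (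
  let v199 := scale ⟨274877906944, 0, 0, 0⟩ u1; ok v199 && (
  let v200 := add v199 v0; ok v200 && (
  let v201 := mul v198 v200; ok v201 && (
  let v202 := scale ⟨a1, 0, 0, 0⟩ v192; ok v202 && (
  let v203 := mul v197 v202; ok v203 && (
  let v204 := add v24 v123; ok v204 && (
  let v205 := mul v14 v204; ok v205 && (
  let v206 := add v205 v0; ok v206 && (
  let v207 := mul v203 v206; ok v207 && (
  let v208 := add v201 v207; ok v208 && (
  let v209 := neg v208; ok v209 && (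
  let v210 := cst ⟨tha, 0, 0, 0⟩; ok v210 && (
  let v211 := add v209 v210; ok v211 && (
  isPos 3 v211 && (
  true)))))))))))))))))))))))))))))))))))))))))))))))))))))))))))))))))))))))))))))))))))))))))))))))))))))))))))))))))))))))))))))))))))))))))))))))))))))))))))))))))))))))))))))))))))))))))))))))))))))))))))))))))))))))))))))))))))))))))
  | _, _ => false

theorem chk_eq (O : Ops) : ∀ (r : Row) (m : List O.α),
    chk O.cst O.add O.sub O.mul O.scale O.neg O.inv O.exp O.log O.ok O.isPos O.isLt r m = true → runG O 3 (common r) m = true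
  | ⟨_, _, _, _, _, _, _, _, _, _, _, _, _, _, _, _, _⟩, [_, _, _], h => h

def chkF : Row → List Pool.Agent.helper14.QF.opsF.α → Bool :=
  chk Pool.Agent.helper14.QF.opsF.cst Pool.Agent.helper14.QF.opsF.add Pool.Agent.helper14.QF.opsF.sub Pool.Agent.helper14.QF.opsF.mul Pool.Agent.helper14.QF.opsF.scale Pool.Agent.helper14.QF.opsF.neg Pool.Agent.helper14.QF.opsF.inv Pool.Agent.helper14.QF.opsF.exp Pool.Agent.helper14.QF.opsF.log Pool.Agent.helper14.QF.opsF.ok Pool.Agent.helper14.QF.opsF.isPos Pool.Agent.helper14.QF.opsF.isLt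

theorem chkF_eq : ∀ (r : Row) (m : List Pool.Agent.helper14.QF.opsF.α), chkF r m = true →
    runG Pool.Agent.helper14.QF.opsF 3 (common r) m = true := chk_eq Pool.Agent.helper14.QF.opsF

theorem common_real (r : Row) : (common r).all Pool.Agent.helper71.FF.rOK = true := rfl

end Pool.Agent.helper31.A2.Cert.L2P
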