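import Pool.Agent.helper31.A2.Cert.LP1C0

/-!
Generated: certificates, assembled.
-/

namespace Pool.Agent.helper31.A2.Cert.LP1

open Pool.Agent.helper31.IA (Z Op)
open Pool.Agent.helper31.IC (TD CovD covD_split)
open Pool.Agent.helper14.RW
open Pool.Agent.helper31.A2.Cert.LPP

theorem all_0 : CovD 0 (progs common T) [(63459426304, 14287831040), (2748779069440, 2748779069440), (2328006492160, 1194135126016)] := c0

end Pool.Agent.helper31.A2.Cert.LP1
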