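import Pool.Agent.helper31.A2.Cert.LP1T

/-!
Generated: certificates.
-/

namespace Pool.Agent.helper31.A2.Cert.LP1

open Pool.Agent.helper31.IA (Z Op)
open Pool.Agent.helper31.IC (TD CovD covD_split)
open Pool.Agent.helper14.RW
open Pool.Agent.helper31.A2.Cert.LPP

mutual
theorem c0_t6 : CovD 0 (progs common T) [(56315510784, 7143915520), (343597383680, 343597383680), (1432405147648, 298533781504)] :=
  covR_F chkF_eq T (.n 2 (.n 0 (.n 2 (.n 1 (.l 21) (.l 21)) (.l 21)) (.n 1 (.n 2 (.l 21) (.l 22)) (.n 2 (.l 21) (.l 22)))) (.n 0 (.n 2 (.n 1 (.l 27) (.l 28)) (.l 28)) (.n 0 (.l 28) (.l 28))))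
    [(56315510784, 7143915520), (343597383680, 343597383680), (1432405147648, 298533781504)] rfl (by decide +kernel)
theorem c0_t7 : CovD 0 (progs common T) [(56315510784, 7143915520), (1030792151040, 343597383680), (1432405147648, 298533781504)] :=
  covR_F chkF_eq T (.n 2 (.n 0 (.n 1 (.n 1 (.n 2 (.l 21) (.l 22)) (.n 2 (.l 21) (.l 22))) (.n 0 (.l 22) (.l 22))) (.n 1 (.n 0 (.l 22) (.l 22)) (.l 22))) (.n 0 (.n 1 (.l 28) (.l 28)) (.n 1 (.l 28) (.n 0 (.n 0 (.l 28) (.l 29)) (.l 29)))))
    [(56315510784, 7143915520), (1030792151040, 343597383680), (1432405147648, 298533781504)] rfl (by decide +kernel)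
end

mutual
theorem c0_t8 : CovD 0 (progs common T) [(56315510784, 7143915520), (687194767360, 687194767360), (2029472710656, 298533781504)] :=
  covR_F chkF_eq T (.n 1 (.n 2 (.n 0 (.l 33) (.n 2 (.l 33) (.l 34))) (.n 0 (.n 0 (.l 38) (.l 39)) (.l 39))) (.n 2 (.n 0 (.n 1 (.l 33) (.n 0 (.l 33) (.l 34))) (.n 1 (.l 34) (.l 34))) (.n 0 (.n 0 (.l 39) (.l 39)) (.l 39))))
    [(56315510784, 7143915520), (687194767360, 687194767360), (2029472710656, 298533781504)] rfl (by decide +kernel)
theorem c0_t11 : CovD 0 (progs common T) [(56315510784, 7143915520), (1717986918400, 343597383680), (1432405147648, 298533781504)] :=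
  covR_F chkF_eq T (.n 2 (.n 0 (.n 1 (.l 22) (.n 0 (.l 23) (.l 23))) (.n 1 (.n 0 (.l 23) (.l 23)) (.l 23))) (.n 0 (.n 1 (.n 0 (.l 28) (.l 29)) (.l 29)) (.n 0 (.l 29) (.l 29))))
    [(56315510784, 7143915520), (1717986918400, 343597383680), (1432405147648, 298533781504)] rfl (by decide +kernel)
end

mutual
theorem c0_t12 : CovD 0 (progs common T) [(56315510784, 7143915520), (2405181685760, 343597383680), (1432405147648, 298533781504)] :=
  covR_F chkF_eq T (.n 2 (.n 0 (.n 1 (.l 23) (.l 23)) (.n 1 (.l 23) (.l 24))) (.n 0 (.n 0 (.l 29) (.n 1 (.l 29) (.l 30))) (.n 1 (.l 30) (.l 30))))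
    [(56315510784, 7143915520), (2405181685760, 343597383680), (1432405147648, 298533781504)] rfl (by decide +kernel)
theorem c0_t13 : CovD 0 (progs common T) [(56315510784, 7143915520), (2061584302080, 687194767360), (2029472710656, 298533781504)] :=
  covR_F chkF_eq T (.n 1 (.n 2 (.n 0 (.n 0 (.l 34) (.l 34)) (.n 0 (.l 34) (.n 1 (.l 34) (.l 35)))) (.n 0 (.l 39) (.n 0 (.n 0 (.l 39) (.l 40)) (.l 40)))) (.n 2 (.n 0 (.n 0 (.l 34) (.l 35)) (.l 35)) (.n 0 (.n 0 (.l 40) (.l 40)) (.l 40))))
    [(56315510784, 7143915520), (2061584302080, 687194767360), (2029472710656, 298533781504)] rfl (by decide +kernel)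
end

mutual
theorem c0_t16 : CovD 0 (progs common T) [(56315510784, 7143915520), (687194767360, 687194767360), (2626540273664, 298533781504)] :=
  covR_F chkF_eq T (.n 1 (.n 2 (.n 0 (.l 43) (.l 43)) (.n 0 (.l 47) (.l 48))) (.n 2 (.n 0 (.l 43) (.n 0 (.l 43) (.l 44))) (.n 0 (.n 0 (.l 47) (.l 48)) (.l 48))))
    [(56315510784, 7143915520), (687194767360, 687194767360), (2626540273664, 298533781504)] rfl (by decide +kernel)
theorem c0_t17 : CovD 0 (progs common T) [(56315510784, 7143915520), (687194767360, 687194767360), (3223607836672, 298533781504)] :=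
  covR_F chkF_eq T (.n 1 (.n 2 (.n 0 (.l 51) (.l 51)) (.n 0 (.l 54) (.l 54))) (.n 2 (.n 0 (.l 51) (.l 51)) (.n 0 (.l 54) (.l 54))))
    [(56315510784, 7143915520), (687194767360, 687194767360), (3223607836672, 298533781504)] rfl (by decide +kernel)
end

mutual
theorem c0_t19 : CovD 0 (progs common T) [(56315510784, 7143915520), (2061584302080, 687194767360), (2626540273664, 298533781504)] :=
  covR_F chkF_eq T (.n 1 (.n 2 (.n 0 (.n 0 (.l 43) (.l 44)) (.l 44)) (.n 0 (.l 48) (.l 48))) (.n 2 (.n 0 (.l 44) (.l 44)) (.n 0 (.l 48) (.l 48))))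
    [(56315510784, 7143915520), (2061584302080, 687194767360), (2626540273664, 298533781504)] rfl (by decide +kernel)
theorem c0_t20 : CovD 0 (progs common T) [(56315510784, 7143915520), (2061584302080, 687194767360), (3223607836672, 298533781504)] :=
  covR_F chkF_eq T (.n 1 (.n 2 (.n 0 (.l 51) (.l 51)) (.n 0 (.l 54) (.l 55))) (.n 2 (.n 0 (.l 51) (.l 52)) (.n 0 (.l 54) (.l 55))))
    [(56315510784, 7143915520), (2061584302080, 687194767360), (3223607836672, 298533781504)] rfl (by decide +kernel)
end

mutual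
theorem c0_t24 : CovD 0 (progs common T) [(56315510784, 7143915520), (3435973836800, 687194767360), (1432405147648, 298533781504)] :=
  covR_F chkF_eq T (.n 1 (.n 2 (.n 0 (.n 1 (.l 24) (.l 24)) (.n 1 (.l 24) (.l 24))) (.n 0 (.l 30) (.l 30))) (.n 2 (.n 0 (.l 24) (.l 25)) (.n 0 (.l 30) (.l 31))))
    [(56315510784, 7143915520), (3435973836800, 687194767360), (1432405147648, 298533781504)] rfl (by decide +kernel)
theorem c0_t25 : CovD 0 (progs common T) [(56315510784, 7143915520), (3435973836800, 687194767360), (2029472710656, 298533781504)] :=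
  covR_F chkF_eq T (.n 1 (.n 2 (.n 0 (.l 35) (.l 35)) (.n 0 (.l 40) (.n 0 (.l 40) (.l 41)))) (.n 2 (.n 0 (.n 0 (.l 35) (.l 36)) (.l 36)) (.n 0 (.n 0 (.l 40) (.l 41)) (.l 41))))
    [(56315510784, 7143915520), (3435973836800, 687194767360), (2029472710656, 298533781504)] rfl (by decide +kernel)
end

mutual
theorem c0_t26 : CovD 0 (progs common T) [(56315510784, 7143915520), (4810363371520, 687194767360), (1730938929152, 597067563008)] :=
  covR_F chkF_eq T (.n 2 (.n 1 (.n 2 (.n 0 (.l 25) (.l 25)) (.n 0 (.l 31) (.l 31))) (.n 2 (.n 0 (.l 25) (.l 26)) (.n 0 (.l 31) (.l 32)))) (.n 1 (.n 2 (.n 0 (.l 36) (.l 36)) (.n 0 (.l 41) (.l 41))) (.n 2 (.n 0 (.l 36) (.l 37)) (.n 0 (.l 41) (.l 42)))))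
    [(56315510784, 7143915520), (4810363371520, 687194767360), (1730938929152, 597067563008)] rfl (by decide +kernel)
theorem c0_t28 : CovD 0 (progs common T) [(56315510784, 7143915520), (3435973836800, 687194767360), (2925074055168, 597067563008)] :=
  covR_F chkF_eq T (.n 2 (.n 1 (.n 2 (.n 0 (.l 44) (.l 45)) (.n 0 (.l 48) (.l 49))) (.n 2 (.n 0 (.l 45) (.l 45)) (.n 0 (.l 49) (.l 49)))) (.n 1 (.n 2 (.n 0 (.l 52) (.l 52)) (.n 0 (.l 55) (.l 57))) (.n 2 (.n 0 (.l 52) (.l 52)) (.n 0 (.l 55) (.l 57)))))
    [(56315510784, 7143915520), (3435973836800, 687194767360), (2925074055168, 597067563008)] rfl (by decide +kernel)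
end

mutual
theorem c0_t29 : CovD 0 (progs common T) [(56315510784, 7143915520), (4810363371520, 687194767360), (2925074055168, 597067563008)] :=
  covR_F chkF_eq T (.n 2 (.n 1 (.n 2 (.n 0 (.l 45) (.l 45)) (.n 0 (.l 49) (.l 49))) (.n 2 (.n 0 (.l 45) (.l 46)) (.n 0 (.l 49) (.l 53)))) (.n 1 (.n 2 (.n 0 (.l 52) (.l 56)) (.n 0 (.l 55) (.l 58))) (.n 2 (.n 0 (.l 53) (.l 56)) (.n 0 (.l 58) (.l 58)))))
    [(56315510784, 7143915520), (4810363371520, 687194767360), (2925074055168, 597067563008)] rfl (by decide +kernel)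
theorem c0_t35 : CovD 0 (progs common T) [(70603341824, 7143915520), (343597383680, 343597383680), (1432405147648, 298533781504)] :=
  covR_F chkF_eq T (.n 2 (.n 0 (.n 1 (.n 0 (.n 2 (.l 21) (.l 22)) (.l 22)) (.n 1 (.l 22) (.l 22))) (.n 1 (.n 1 (.l 22) (.l 22)) (.l 22))) (.n 0 (.n 1 (.l 28) (.n 2 (.l 28) (.l 29))) (.n 1 (.n 1 (.l 29) (.l 29)) (.l 29))))
    [(70603341824, 7143915520), (343597383680, 343597383680), (1432405147648, 298533781504)] rfl (by decide +kernel)
end

mutual
theorem c0_t36 : CovD 0 (progs common T) [(70603341824, 7143915520), (1030792151040, 343597383680), (1432405147648, 298533781504)] :=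
  covR_F chkF_eq T (.n 2 (.n 0 (.n 1 (.l 22) (.n 0 (.n 1 (.l 22) (.l 23)) (.l 23))) (.n 1 (.n 2 (.l 22) (.l 23)) (.l 23))) (.n 0 (.n 1 (.n 0 (.l 29) (.l 29)) (.l 29)) (.n 1 (.l 29) (.l 29))))
    [(70603341824, 7143915520), (1030792151040, 343597383680), (1432405147648, 298533781504)] rfl (by decide +kernel)
theorem c0_t39 : CovD 0 (progs common T) [(70603341824, 7143915520), (343597383680, 343597383680), (1880205819904, 149266890752)] :=
  covR_F chkF_eq T (.n 0 (.n 1 (.l 34) (.l 34)) (.n 1 (.n 2 (.l 2) (.n 0 (.l 34) (.n 1 (.n 0 (.l 34) (.n 2 (.l 0) (.l 1))) (.l 34)))) (.n 0 (.l 34) (.l 34))))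
    [(70603341824, 7143915520), (343597383680, 343597383680), (1880205819904, 149266890752)] rfl (by decide +kernel)
end

mutual
theorem c0_t40 : CovD 0 (progs common T) [(70603341824, 7143915520), (343597383680, 343597383680), (2178739601408, 149266890752)] :=
  covR_F chkF_eq T (.n 0 (.l 39) (.n 1 (.n 0 (.l 39) (.n 2 (.n 0 (.l 4) (.n 2 (.l 3) (.l 4))) (.l 40))) (.l 40)))
    [(70603341824, 7143915520), (343597383680, 343597383680), (2178739601408, 149266890752)] rfl (by decide +kernel)
theorem c0_t41 : CovD 0 (progs common T) [(70603341824, 7143915520), (1030792151040, 343597383680), (2029472710656, 298533781504)] :=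
  covR_F chkF_eq T (.n 2 (.n 0 (.l 34) (.n 1 (.l 34) (.l 35))) (.n 0 (.n 1 (.l 39) (.l 40)) (.l 40)))
    [(70603341824, 7143915520), (1030792151040, 343597383680), (2029472710656, 298533781504)] rfl (by decide +kernel)
end

mutual
theorem c0_t43 : CovD 0 (progs common T) [(70603341824, 7143915520), (2061584302080, 687194767360), (1432405147648, 298533781504)] :=
  covR_F chkF_eq T (.n 1 (.n 2 (.n 0 (.n 1 (.l 23) (.l 23)) (.n 1 (.l 23) (.l 24))) (.n 0 (.n 1 (.l 29) (.l 30)) (.n 1 (.n 0 (.l 29) (.l 30)) (.l 30)))) (.n 2 (.n 0 (.n 1 (.l 24) (.l 24)) (.n 1 (.l 24) (.l 24))) (.n 0 (.l 30) (.l 30))))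
    [(70603341824, 7143915520), (2061584302080, 687194767360), (1432405147648, 298533781504)] rfl (by decide +kernel)
theorem c0_t44 : CovD 0 (progs common T) [(70603341824, 7143915520), (2061584302080, 687194767360), (2029472710656, 298533781504)] :=
  covR_F chkF_eq T (.n 1 (.n 2 (.n 0 (.n 1 (.l 35) (.l 35)) (.l 35)) (.n 0 (.l 40) (.l 40))) (.n 2 (.n 0 (.l 35) (.n 0 (.l 35) (.l 36))) (.n 0 (.n 1 (.l 40) (.l 40)) (.l 41))))
    [(70603341824, 7143915520), (2061584302080, 687194767360), (2029472710656, 298533781504)] rfl (by decide +kernel)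
end

mutual
theorem c0_t47 : CovD 0 (progs common T) [(70603341824, 7143915520), (687194767360, 687194767360), (2626540273664, 298533781504)] :=
  covR_F chkF_eq T (.n 1 (.n 2 (.n 0 (.l 44) (.n 1 (.l 44) (.l 44))) (.n 0 (.l 48) (.n 0 (.l 48) (.n 2 (.l 6) (.l 48))))) (.n 2 (.n 0 (.l 44) (.l 44)) (.n 0 (.l 48) (.n 2 (.l 6) (.l 49)))))
    [(70603341824, 7143915520), (687194767360, 687194767360), (2626540273664, 298533781504)] rfl (by decide +kernel)
theorem c0_t48 : CovD 0 (progs common T) [(70603341824, 7143915520), (687194767360, 687194767360), (3223607836672, 298533781504)] :=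
  covR_F chkF_eq T (.n 1 (.n 2 (.n 0 (.l 51) (.n 2 (.l 13) (.l 52))) (.n 0 (.l 54) (.l 57))) (.n 2 (.n 0 (.l 51) (.n 2 (.n 0 (.l 51) (.n 2 (.l 10) (.n 1 (.l 14) (.l 14)))) (.n 1 (.l 52) (.l 52)))) (.n 0 (.l 55) (.n 2 (.l 55) (.l 57)))))
    [(70603341824, 7143915520), (687194767360, 687194767360), (3223607836672, 298533781504)] rfl (by decide +kernel)
end

mutual
theorem c0_t51 : CovD 0 (progs common T) [(70603341824, 7143915520), (1717986918400, 343597383680), (2626540273664, 298533781504)] :=
  covR_F chkF_eq T (.n 2 (.n 0 (.l 44) (.n 0 (.l 44) (.l 45))) (.n 0 (.l 48) (.n 0 (.l 49) (.n 2 (.n 1 (.l 7) (.l 7)) (.l 9)))))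
    [(70603341824, 7143915520), (1717986918400, 343597383680), (2626540273664, 298533781504)] rfl (by decide +kernel)
theorem c0_t52 : CovD 0 (progs common T) [(70603341824, 7143915520), (2405181685760, 343597383680), (2626540273664, 298533781504)] :=
  covR_F chkF_eq T (.n 2 (.n 0 (.n 0 (.l 45) (.l 45)) (.l 45)) (.n 0 (.l 49) (.n 0 (.l 49) (.n 1 (.n 2 (.l 7) (.l 49)) (.n 2 (.l 8) (.l 49))))))
    [(70603341824, 7143915520), (2405181685760, 343597383680), (2626540273664, 298533781504)] rfl (by decide +kernel)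
end

mutual
theorem c0_t54 : CovD 0 (progs common T) [(70603341824, 7143915520), (1717986918400, 343597383680), (3223607836672, 298533781504)] :=
  covR_F chkF_eq T (.n 2 (.n 0 (.l 52) (.n 0 (.n 1 (.l 52) (.l 52)) (.n 2 (.n 2 (.l 10) (.n 1 (.l 14) (.l 14))) (.n 1 (.l 52) (.l 16))))) (.n 0 (.l 57) (.n 0 (.l 57) (.n 2 (.l 19) (.l 57)))))
    [(70603341824, 7143915520), (1717986918400, 343597383680), (3223607836672, 298533781504)] rfl (by decide +kernel)
theorem c0_t55 : CovD 0 (progs common T) [(70603341824, 7143915520), (2405181685760, 343597383680), (3223607836672, 298533781504)] :=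
  covR_F chkF_eq T (.n 2 (.n 0 (.l 52) (.n 0 (.n 1 (.l 52) (.l 17)) (.n 2 (.n 2 (.l 11) (.l 15)) (.n 2 (.l 53) (.l 17))))) (.n 0 (.l 57) (.n 2 (.l 19) (.l 57))))
    [(70603341824, 7143915520), (2405181685760, 343597383680), (3223607836672, 298533781504)] rfl (by decide +kernel)
end

mutual
theorem c0_t59 : CovD 0 (progs common T) [(70603341824, 7143915520), (3435973836800, 687194767360), (1432405147648, 298533781504)] :=
  covR_F chkF_eq T (.n 1 (.n 2 (.n 0 (.n 1 (.l 24) (.l 25)) (.n 1 (.l 25) (.l 25))) (.n 0 (.n 0 (.l 31) (.l 31)) (.l 31))) (.n 2 (.n 0 (.l 25) (.l 25)) (.n 0 (.l 31) (.l 31))))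
    [(70603341824, 7143915520), (3435973836800, 687194767360), (1432405147648, 298533781504)] rfl (by decide +kernel)
theorem c0_t60 : CovD 0 (progs common T) [(70603341824, 7143915520), (3435973836800, 687194767360), (2029472710656, 298533781504)] :=
  covR_F chkF_eq T (.n 1 (.n 2 (.n 0 (.l 36) (.l 36)) (.n 0 (.l 41) (.l 41))) (.n 2 (.n 0 (.l 36) (.n 0 (.l 36) (.l 37))) (.n 0 (.l 41) (.l 42))))
    [(70603341824, 7143915520), (3435973836800, 687194767360), (2029472710656, 298533781504)] rfl (by decide +kernel)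
end

mutual
theorem c0_t61 : CovD 0 (progs common T) [(70603341824, 7143915520), (4810363371520, 687194767360), (1730938929152, 597067563008)] :=
  covR_F chkF_eq T (.n 2 (.n 1 (.n 2 (.n 0 (.l 25) (.l 26)) (.n 0 (.l 32) (.l 32))) (.n 2 (.n 0 (.l 26) (.l 26)) (.n 0 (.l 32) (.l 37)))) (.n 1 (.n 2 (.n 0 (.l 37) (.l 37)) (.n 0 (.l 42) (.l 46))) (.n 2 (.n 0 (.l 37) (.l 42)) (.n 0 (.l 46) (.l 46)))))
    [(70603341824, 7143915520), (4810363371520, 687194767360), (1730938929152, 597067563008)] rfl (by decide +kernel)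
theorem c0_t64 : CovD 0 (progs common T) [(70603341824, 7143915520), (3435973836800, 687194767360), (2626540273664, 298533781504)] :=
  covR_F chkF_eq T (.n 1 (.n 2 (.n 0 (.l 45) (.l 45)) (.n 0 (.l 49) (.n 0 (.l 50) (.n 2 (.l 50) (.n 1 (.l 11) (.l 12)))))) (.n 2 (.n 0 (.l 45) (.n 0 (.l 46) (.l 5))) (.n 0 (.l 52) (.n 0 (.l 53) (.l 12)))))
    [(70603341824, 7143915520), (3435973836800, 687194767360), (2626540273664, 298533781504)] rfl (by decide +kernel)
end

mutual
theorem c0_t65 : CovD 0 (progs common T) [(70603341824, 7143915520), (3435973836800, 687194767360), (3223607836672, 298533781504)] :=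
  covR_F chkF_eq T (.n 1 (.n 2 (.n 0 (.l 55) (.n 2 (.n 1 (.l 15) (.l 53)) (.n 0 (.l 55) (.l 18)))) (.n 0 (.l 57) (.n 0 (.l 58) (.l 20)))) (.n 2 (.n 0 (.l 56) (.l 18)) (.n 0 (.l 58) (.l 58))))
    [(70603341824, 7143915520), (3435973836800, 687194767360), (3223607836672, 298533781504)] rfl (by decide +kernel)
theorem c0_t66 : CovD 0 (progs common T) [(70603341824, 7143915520), (4810363371520, 687194767360), (2925074055168, 597067563008)] :=
  covR_F chkF_eq T (.n 2 (.n 1 (.n 2 (.n 0 (.l 50) (.l 50)) (.n 0 (.l 53) (.l 53))) (.n 2 (.n 0 (.l 50) (.l 50)) (.n 0 (.l 53) (.l 53)))) (.n 1 (.n 2 (.n 0 (.l 56) (.l 56)) (.n 0 (.l 58) (.l 58))) (.n 2 (.n 0 (.l 56) (.l 56)) (.n 0 (.l 58) (.l 59)))))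
    [(70603341824, 7143915520), (4810363371520, 687194767360), (2925074055168, 597067563008)] rfl (by decide +kernel)
end

theorem c0_t5 : CovD 0 (progs common T) [(56315510784, 7143915520), (687194767360, 687194767360), (1432405147648, 298533781504)] :=
  covD_split 1 (by decide +kernel) c0_t6 c0_t7

theorem c0_t4 : CovD 0 (progs common T) [(56315510784, 7143915520), (687194767360, 687194767360), (1730938929152, 597067563008)] :=
  covD_split 2 (by decide +kernel) c0_t5 c0_t8

theorem c0_t10 : CovD 0 (progs common T) [(56315510784, 7143915520), (2061584302080, 687194767360), (1432405147648, 298533781504)] :=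
  covD_split 1 (by decide +kernel) c0_t11 c0_t12

theorem c0_t9 : CovD 0 (progs common T) [(56315510784, 7143915520), (2061584302080, 687194767360), (1730938929152, 597067563008)] :=
  covD_split 2 (by decide +kernel) c0_t10 c0_t13

theorem c0_t3 : CovD 0 (progs common T) [(56315510784, 7143915520), (1374389534720, 1374389534720), (1730938929152, 597067563008)] :=
  covD_split 1 (by decide +kernel) c0_t4 c0_t9

theorem c0_t15 : CovD 0 (progs common T) [(56315510784, 7143915520), (687194767360, 687194767360), (2925074055168, 597067563008)] :=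
  covD_split 2 (by decide +kernel) c0_t16 c0_t17

theorem c0_t18 : CovD 0 (progs common T) [(56315510784, 7143915520), (2061584302080, 687194767360), (2925074055168, 597067563008)] :=
  covD_split 2 (by decide +kernel) c0_t19 c0_t20

theorem c0_t14 : CovD 0 (progs common T) [(56315510784, 7143915520), (1374389534720, 1374389534720), (2925074055168, 597067563008)] :=
  covD_split 1 (by decide +kernel) c0_t15 c0_t18

theorem c0_t2 : CovD 0 (progs common T) [(56315510784, 7143915520), (1374389534720, 1374389534720), (2328006492160, 1194135126016)] :=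
  covD_split 2 (by decide +kernel) c0_t3 c0_t14

theorem c0_t23 : CovD 0 (progs common T) [(56315510784, 7143915520), (3435973836800, 687194767360), (1730938929152, 597067563008)] :=
  covD_split 2 (by decide +kernel) c0_t24 c0_t25

theorem c0_t22 : CovD 0 (progs common T) [(56315510784, 7143915520), (4123168604160, 1374389534720), (1730938929152, 597067563008)] :=
  covD_split 1 (by decide +kernel) c0_t23 c0_t26

theorem c0_t27 : CovD 0 (progs common T) [(56315510784, 7143915520), (4123168604160, 1374389534720), (2925074055168, 597067563008)] :=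
  covD_split 1 (by decide +kernel) c0_t28 c0_t29

theorem c0_t21 : CovD 0 (progs common T) [(56315510784, 7143915520), (4123168604160, 1374389534720), (2328006492160, 1194135126016)] :=
  covD_split 2 (by decide +kernel) c0_t22 c0_t27

theorem c0_t1 : CovD 0 (progs common T) [(56315510784, 7143915520), (2748779069440, 2748779069440), (2328006492160, 1194135126016)] :=
  covD_split 1 (by decide +kernel) c0_t2 c0_t21

theorem c0_t34 : CovD 0 (progs common T) [(70603341824, 7143915520), (687194767360, 687194767360), (1432405147648, 298533781504)] :=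
  covD_split 1 (by decide +kernel) c0_t35 c0_t36

theorem c0_t38 : CovD 0 (progs common T) [(70603341824, 7143915520), (343597383680, 343597383680), (2029472710656, 298533781504)] :=
  covD_split 2 (by decide +kernel) c0_t39 c0_t40

theorem c0_t37 : CovD 0 (progs common T) [(70603341824, 7143915520), (687194767360, 687194767360), (2029472710656, 298533781504)] :=
  covD_split 1 (by decide +kernel) c0_t38 c0_t41

theorem c0_t33 : CovD 0 (progs common T) [(70603341824, 7143915520), (687194767360, 687194767360), (1730938929152, 597067563008)] :=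
  covD_split 2 (by decide +kernel) c0_t34 c0_t37

theorem c0_t42 : CovD 0 (progs common T) [(70603341824, 7143915520), (2061584302080, 687194767360), (1730938929152, 597067563008)] :=
  covD_split 2 (by decide +kernel) c0_t43 c0_t44

theorem c0_t32 : CovD 0 (progs common T) [(70603341824, 7143915520), (1374389534720, 1374389534720), (1730938929152, 597067563008)] :=
  covD_split 1 (by decide +kernel) c0_t33 c0_t42

theorem c0_t46 : CovD 0 (progs common T) [(70603341824, 7143915520), (687194767360, 687194767360), (2925074055168, 597067563008)] :=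
  covD_split 2 (by decide +kernel) c0_t47 c0_t48

theorem c0_t50 : CovD 0 (progs common T) [(70603341824, 7143915520), (2061584302080, 687194767360), (2626540273664, 298533781504)] :=
  covD_split 1 (by decide +kernel) c0_t51 c0_t52

theorem c0_t53 : CovD 0 (progs common T) [(70603341824, 7143915520), (2061584302080, 687194767360), (3223607836672, 298533781504)] :=
  covD_split 1 (by decide +kernel) c0_t54 c0_t55

theorem c0_t49 : CovD 0 (progs common T) [(70603341824, 7143915520), (2061584302080, 687194767360), (2925074055168, 597067563008)] :=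
  covD_split 2 (by decide +kernel) c0_t50 c0_t53

theorem c0_t45 : CovD 0 (progs common T) [(70603341824, 7143915520), (1374389534720, 1374389534720), (2925074055168, 597067563008)] :=
  covD_split 1 (by decide +kernel) c0_t46 c0_t49

theorem c0_t31 : CovD 0 (progs common T) [(70603341824, 7143915520), (1374389534720, 1374389534720), (2328006492160, 1194135126016)] :=
  covD_split 2 (by decide +kernel) c0_t32 c0_t45

theorem c0_t58 : CovD 0 (progs common T) [(70603341824, 7143915520), (3435973836800, 687194767360), (1730938929152, 597067563008)] :=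
  covD_split 2 (by decide +kernel) c0_t59 c0_t60

theorem c0_t57 : CovD 0 (progs common T) [(70603341824, 7143915520), (4123168604160, 1374389534720), (1730938929152, 597067563008)] :=
  covD_split 1 (by decide +kernel) c0_t58 c0_t61

theorem c0_t63 : CovD 0 (progs common T) [(70603341824, 7143915520), (3435973836800, 687194767360), (2925074055168, 597067563008)] :=
  covD_split 2 (by decide +kernel) c0_t64 c0_t65

theorem c0_t62 : CovD 0 (progs common T) [(70603341824, 7143915520), (4123168604160, 1374389534720), (2925074055168, 597067563008)] :=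
  covD_split 1 (by decide +kernel) c0_t63 c0_t66

theorem c0_t56 : CovD 0 (progs common T) [(70603341824, 7143915520), (4123168604160, 1374389534720), (2328006492160, 1194135126016)] :=
  covD_split 2 (by decide +kernel) c0_t57 c0_t62

theorem c0_t30 : CovD 0 (progs common T) [(70603341824, 7143915520), (2748779069440, 2748779069440), (2328006492160, 1194135126016)] :=
  covD_split 1 (by decide +kernel) c0_t31 c0_t56

theorem c0 : CovD 0 (progs common T) [(63459426304, 14287831040), (2748779069440, 2748779069440), (2328006492160, 1194135126016)] :=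
  covD_split 0 (by decide +kernel) c0_t1 c0_t30

end Pool.Agent.helper31.A2.Cert.LP1
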