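import Pool.Agent.helper31.A2.Cert.LP3T

/-!
Generated: certificates.
-/

namespace Pool.Agent.helper31.A2.Cert.LP3

open Pool.Agent.helper31.IA (Z Op)
open Pool.Agent.helper31.IC (TD CovD covD_split)
open Pool.Agent.helper14.RW
open Pool.Agent.helper31.A2.Cert.LPP

mutual
theorem c0_t6 : CovD 0 (progs common T) [(56315510784, 7143915520), (343597383680, 343597383680), (1439082479616, 305211113472)] :=
  covR_F chkF_eq T (.n 2 (.n 0 (.n 2 (.n 1 (.l 20) (.l 20)) (.l 20)) (.n 1 (.n 2 (.l 20) (.l 21)) (.n 2 (.n 1 (.l 20) (.l 20)) (.l 21)))) (.n 0 (.n 2 (.n 1 (.l 26) (.l 27)) (.l 27)) (.n 0 (.l 27) (.l 27))))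
    [(56315510784, 7143915520), (343597383680, 343597383680), (1439082479616, 305211113472)] rfl (by decide +kernel)
theorem c0_t7 : CovD 0 (progs common T) [(56315510784, 7143915520), (1030792151040, 343597383680), (1439082479616, 305211113472)] :=
  covR_F chkF_eq T (.n 2 (.n 0 (.n 1 (.n 1 (.n 2 (.l 20) (.l 21)) (.n 2 (.l 20) (.l 21))) (.n 0 (.l 21) (.l 21))) (.n 1 (.n 1 (.l 21) (.l 21)) (.l 21))) (.n 0 (.n 1 (.l 27) (.l 27)) (.n 1 (.l 27) (.n 0 (.n 0 (.l 27) (.l 28)) (.l 28)))))
    [(56315510784, 7143915520), (1030792151040, 343597383680), (1439082479616, 305211113472)] rfl (by decide +kernel)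
end

mutual
theorem c0_t8 : CovD 0 (progs common T) [(56315510784, 7143915520), (687194767360, 687194767360), (2049504706560, 305211113472)] :=
  covR_F chkF_eq T (.n 1 (.n 2 (.n 0 (.l 36) (.n 2 (.l 31) (.l 37))) (.n 0 (.n 0 (.l 41) (.l 42)) (.l 42))) (.n 2 (.n 0 (.n 1 (.l 36) (.n 0 (.l 37) (.l 37))) (.n 1 (.l 37) (.l 37))) (.n 0 (.n 0 (.l 42) (.l 42)) (.l 42))))
    [(56315510784, 7143915520), (687194767360, 687194767360), (2049504706560, 305211113472)] rfl (by decide +kernel)
theorem c0_t11 : CovD 0 (progs common T) [(56315510784, 7143915520), (1717986918400, 343597383680), (1439082479616, 305211113472)] :=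
  covR_F chkF_eq T (.n 2 (.n 0 (.n 1 (.l 21) (.n 0 (.l 22) (.l 22))) (.n 1 (.n 0 (.l 22) (.l 22)) (.l 22))) (.n 0 (.n 1 (.n 0 (.l 27) (.l 28)) (.l 28)) (.n 0 (.l 28) (.l 28))))
    [(56315510784, 7143915520), (1717986918400, 343597383680), (1439082479616, 305211113472)] rfl (by decide +kernel)
end

mutual
theorem c0_t12 : CovD 0 (progs common T) [(56315510784, 7143915520), (2405181685760, 343597383680), (1439082479616, 305211113472)] :=
  covR_F chkF_eq T (.n 2 (.n 0 (.n 1 (.l 22) (.l 22)) (.n 1 (.l 22) (.l 23))) (.n 0 (.n 0 (.l 28) (.n 1 (.l 28) (.l 29))) (.n 1 (.l 29) (.l 29))))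
    [(56315510784, 7143915520), (2405181685760, 343597383680), (1439082479616, 305211113472)] rfl (by decide +kernel)
theorem c0_t13 : CovD 0 (progs common T) [(56315510784, 7143915520), (2061584302080, 687194767360), (2049504706560, 305211113472)] :=
  covR_F chkF_eq T (.n 1 (.n 2 (.n 0 (.n 0 (.l 37) (.l 37)) (.n 0 (.l 37) (.n 1 (.l 37) (.l 38)))) (.n 0 (.l 42) (.n 0 (.n 1 (.l 42) (.l 43)) (.l 43)))) (.n 2 (.n 0 (.n 0 (.l 37) (.l 38)) (.l 38)) (.n 0 (.n 0 (.l 43) (.l 43)) (.l 43))))
    [(56315510784, 7143915520), (2061584302080, 687194767360), (2049504706560, 305211113472)] rfl (by decide +kernel)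
end

mutual
theorem c0_t16 : CovD 0 (progs common T) [(56315510784, 7143915520), (687194767360, 687194767360), (2659926933504, 305211113472)] :=
  covR_F chkF_eq T (.n 1 (.n 2 (.n 0 (.l 46) (.l 46)) (.n 0 (.l 50) (.n 2 (.l 47) (.l 51)))) (.n 2 (.n 0 (.l 46) (.n 0 (.l 46) (.l 47))) (.n 0 (.n 0 (.l 50) (.l 51)) (.n 0 (.l 51) (.l 13)))))
    [(56315510784, 7143915520), (687194767360, 687194767360), (2659926933504, 305211113472)] rfl (by decide +kernel)
theorem c0_t17 : CovD 0 (progs common T) [(56315510784, 7143915520), (687194767360, 687194767360), (3270349160448, 305211113472)] :=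
  covR_F chkF_eq T (.n 1 (.n 2 (.n 0 (.l 54) (.l 54)) (.n 0 (.l 57) (.l 57))) (.n 2 (.n 0 (.l 54) (.l 54)) (.n 0 (.l 57) (.l 57))))
    [(56315510784, 7143915520), (687194767360, 687194767360), (3270349160448, 305211113472)] rfl (by decide +kernel)
end

mutual
theorem c0_t19 : CovD 0 (progs common T) [(56315510784, 7143915520), (2061584302080, 687194767360), (2659926933504, 305211113472)] :=
  covR_F chkF_eq T (.n 1 (.n 2 (.n 0 (.n 0 (.l 46) (.l 47)) (.l 47)) (.n 0 (.l 51) (.n 1 (.l 51) (.l 51)))) (.n 2 (.n 0 (.l 47) (.l 47)) (.n 0 (.l 51) (.n 0 (.l 51) (.l 52)))))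
    [(56315510784, 7143915520), (2061584302080, 687194767360), (2659926933504, 305211113472)] rfl (by decide +kernel)
theorem c0_t20 : CovD 0 (progs common T) [(56315510784, 7143915520), (2061584302080, 687194767360), (3270349160448, 305211113472)] :=
  covR_F chkF_eq T (.n 1 (.n 2 (.n 0 (.l 54) (.l 54)) (.n 0 (.l 57) (.l 58))) (.n 2 (.n 0 (.l 54) (.l 55)) (.n 0 (.l 57) (.l 58))))
    [(56315510784, 7143915520), (2061584302080, 687194767360), (3270349160448, 305211113472)] rfl (by decide +kernel)
end

mutual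
theorem c0_t24 : CovD 0 (progs common T) [(56315510784, 7143915520), (3435973836800, 687194767360), (1439082479616, 305211113472)] :=
  covR_F chkF_eq T (.n 1 (.n 2 (.n 0 (.n 1 (.l 23) (.l 23)) (.n 1 (.l 23) (.l 23))) (.n 0 (.l 29) (.l 33))) (.n 2 (.n 0 (.l 23) (.l 24)) (.n 0 (.l 29) (.l 34))))
    [(56315510784, 7143915520), (3435973836800, 687194767360), (1439082479616, 305211113472)] rfl (by decide +kernel)
theorem c0_t25 : CovD 0 (progs common T) [(56315510784, 7143915520), (3435973836800, 687194767360), (2049504706560, 305211113472)] :=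
  covR_F chkF_eq T (.n 1 (.n 2 (.n 0 (.l 38) (.l 38)) (.n 0 (.l 43) (.n 0 (.l 43) (.l 44)))) (.n 2 (.n 0 (.n 0 (.l 38) (.l 39)) (.l 39)) (.n 0 (.l 44) (.l 44))))
    [(56315510784, 7143915520), (3435973836800, 687194767360), (2049504706560, 305211113472)] rfl (by decide +kernel)
end

mutual
theorem c0_t26 : CovD 0 (progs common T) [(56315510784, 7143915520), (4810363371520, 687194767360), (1744293593088, 610422226944)] :=
  covR_F chkF_eq T (.n 2 (.n 1 (.n 2 (.n 0 (.l 24) (.l 24)) (.n 0 (.l 34) (.l 34))) (.n 2 (.n 0 (.l 24) (.l 25)) (.n 0 (.l 34) (.l 35)))) (.n 1 (.n 2 (.n 0 (.l 39) (.l 39)) (.n 0 (.l 44) (.l 44))) (.n 2 (.n 0 (.l 39) (.l 40)) (.n 0 (.l 44) (.l 45)))))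
    [(56315510784, 7143915520), (4810363371520, 687194767360), (1744293593088, 610422226944)] rfl (by decide +kernel)
theorem c0_t29 : CovD 0 (progs common T) [(56315510784, 7143915520), (3435973836800, 687194767360), (2659926933504, 305211113472)] :=
  covR_F chkF_eq T (.n 1 (.n 2 (.n 0 (.l 47) (.l 48)) (.n 0 (.n 0 (.l 51) (.l 52)) (.l 52))) (.n 2 (.n 0 (.l 48) (.l 48)) (.n 0 (.l 52) (.l 52))))
    [(56315510784, 7143915520), (3435973836800, 687194767360), (2659926933504, 305211113472)] rfl (by decide +kernel)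
end

mutual
theorem c0_t30 : CovD 0 (progs common T) [(56315510784, 7143915520), (3435973836800, 687194767360), (3270349160448, 305211113472)] :=
  covR_F chkF_eq T (.n 1 (.n 2 (.n 0 (.l 55) (.l 55)) (.n 0 (.l 58) (.l 58))) (.n 2 (.n 0 (.l 55) (.l 55)) (.n 0 (.l 58) (.l 58))))
    [(56315510784, 7143915520), (3435973836800, 687194767360), (3270349160448, 305211113472)] rfl (by decide +kernel)
theorem c0_t31 : CovD 0 (progs common T) [(56315510784, 7143915520), (4810363371520, 687194767360), (2965138046976, 610422226944)] :=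
  covR_F chkF_eq T (.n 2 (.n 1 (.n 2 (.n 0 (.l 48) (.l 48)) (.n 0 (.l 52) (.l 53))) (.n 2 (.n 0 (.l 48) (.l 49)) (.n 0 (.l 52) (.l 53)))) (.n 1 (.n 2 (.n 0 (.l 55) (.l 56)) (.n 0 (.l 58) (.l 59))) (.n 2 (.n 0 (.l 56) (.l 56)) (.n 0 (.l 59) (.l 59)))))
    [(56315510784, 7143915520), (4810363371520, 687194767360), (2965138046976, 610422226944)] rfl (by decide +kernel)
end

mutual
theorem c0_t37 : CovD 0 (progs common T) [(70603341824, 7143915520), (343597383680, 343597383680), (1439082479616, 305211113472)] :=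
  covR_F chkF_eq T (.n 2 (.n 0 (.n 1 (.n 0 (.n 2 (.l 20) (.l 21)) (.l 21)) (.n 1 (.l 21) (.l 21))) (.n 1 (.l 21) (.l 21))) (.n 0 (.n 0 (.l 27) (.n 2 (.l 27) (.l 28))) (.n 1 (.n 0 (.l 28) (.l 28)) (.l 28))))
    [(70603341824, 7143915520), (343597383680, 343597383680), (1439082479616, 305211113472)] rfl (by decide +kernel)
theorem c0_t38 : CovD 0 (progs common T) [(70603341824, 7143915520), (1030792151040, 343597383680), (1439082479616, 305211113472)] :=
  covR_F chkF_eq T (.n 2 (.n 0 (.n 1 (.l 21) (.n 0 (.n 1 (.l 21) (.l 22)) (.l 22))) (.n 1 (.n 2 (.l 21) (.l 22)) (.l 22))) (.n 0 (.n 1 (.n 0 (.l 28) (.l 28)) (.l 28)) (.n 1 (.l 28) (.l 28))))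
    [(70603341824, 7143915520), (1030792151040, 343597383680), (1439082479616, 305211113472)] rfl (by decide +kernel)
end

mutual
theorem c0_t40 : CovD 0 (progs common T) [(70603341824, 7143915520), (343597383680, 343597383680), (2049504706560, 305211113472)] :=
  covR_F chkF_eq T (.n 2 (.n 0 (.n 1 (.n 0 (.l 37) (.l 2)) (.l 37)) (.n 1 (.n 2 (.l 1) (.n 0 (.l 3) (.n 2 (.l 32) (.l 0)))) (.n 2 (.l 32) (.l 3)))) (.n 0 (.l 42) (.n 1 (.n 0 (.l 42) (.n 2 (.n 2 (.l 3) (.l 5)) (.l 6))) (.n 2 (.l 38) (.l 43)))))
    [(70603341824, 7143915520), (343597383680, 343597383680), (2049504706560, 305211113472)] rfl (by decide +kernel)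
theorem c0_t41 : CovD 0 (progs common T) [(70603341824, 7143915520), (1030792151040, 343597383680), (2049504706560, 305211113472)] :=
  covR_F chkF_eq T (.n 2 (.n 0 (.n 1 (.l 37) (.l 37)) (.n 1 (.n 2 (.l 32) (.l 3)) (.n 2 (.l 32) (.n 0 (.l 38) (.l 4))))) (.n 0 (.n 1 (.l 42) (.l 43)) (.n 1 (.n 0 (.l 43) (.l 6)) (.n 2 (.l 38) (.n 2 (.l 38) (.l 43))))))
    [(70603341824, 7143915520), (1030792151040, 343597383680), (2049504706560, 305211113472)] rfl (by decide +kernel)
end

mutual
theorem c0_t43 : CovD 0 (progs common T) [(70603341824, 7143915520), (2061584302080, 687194767360), (1439082479616, 305211113472)] :=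
  covR_F chkF_eq T (.n 1 (.n 2 (.n 0 (.n 1 (.l 22) (.l 22)) (.n 1 (.l 22) (.l 23))) (.n 0 (.n 1 (.l 28) (.l 29)) (.n 1 (.n 0 (.l 28) (.l 29)) (.l 29)))) (.n 2 (.n 0 (.n 1 (.l 23) (.l 23)) (.n 1 (.l 23) (.l 23))) (.n 0 (.l 33) (.n 1 (.l 33) (.l 33)))))
    [(70603341824, 7143915520), (2061584302080, 687194767360), (1439082479616, 305211113472)] rfl (by decide +kernel)
theorem c0_t45 : CovD 0 (progs common T) [(70603341824, 7143915520), (1717986918400, 343597383680), (2049504706560, 305211113472)] :=
  covR_F chkF_eq T (.n 2 (.n 0 (.n 1 (.l 38) (.l 38)) (.n 1 (.n 2 (.l 33) (.l 38)) (.n 2 (.l 33) (.l 38)))) (.n 0 (.n 0 (.l 43) (.l 43)) (.n 0 (.n 1 (.l 43) (.l 43)) (.n 2 (.l 38) (.l 7)))))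
    [(70603341824, 7143915520), (1717986918400, 343597383680), (2049504706560, 305211113472)] rfl (by decide +kernel)
end

mutual
theorem c0_t46 : CovD 0 (progs common T) [(70603341824, 7143915520), (2405181685760, 343597383680), (2049504706560, 305211113472)] :=
  covR_F chkF_eq T (.n 2 (.n 0 (.l 38) (.n 1 (.l 38) (.l 39))) (.n 0 (.n 0 (.l 43) (.l 44)) (.n 2 (.l 39) (.l 44))))
    [(70603341824, 7143915520), (2405181685760, 343597383680), (2049504706560, 305211113472)] rfl (by decide +kernel)
theorem c0_t50 : CovD 0 (progs common T) [(70603341824, 7143915520), (343597383680, 343597383680), (2659926933504, 305211113472)] :=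
  covR_F chkF_eq T (.n 2 (.n 0 (.n 1 (.l 47) (.l 47)) (.n 0 (.l 8) (.n 0 (.l 8) (.n 2 (.l 43) (.l 9))))) (.n 0 (.n 0 (.l 13) (.n 2 (.l 47) (.l 14))) (.n 2 (.n 0 (.l 47) (.l 11)) (.l 14))))
    [(70603341824, 7143915520), (343597383680, 343597383680), (2659926933504, 305211113472)] rfl (by decide +kernel)
end

mutual
theorem c0_t51 : CovD 0 (progs common T) [(70603341824, 7143915520), (1030792151040, 343597383680), (2659926933504, 305211113472)] :=
  covR_F chkF_eq T (.n 2 (.n 0 (.n 2 (.l 43) (.l 47)) (.n 2 (.l 43) (.n 0 (.n 2 (.l 43) (.l 9)) (.l 9)))) (.n 0 (.n 2 (.l 47) (.n 0 (.l 51) (.l 14))) (.n 2 (.l 11) (.n 0 (.l 14) (.n 2 (.l 48) (.l 15))))))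
    [(70603341824, 7143915520), (1030792151040, 343597383680), (2659926933504, 305211113472)] rfl (by decide +kernel)
theorem c0_t52 : CovD 0 (progs common T) [(70603341824, 7143915520), (687194767360, 687194767360), (3270349160448, 305211113472)] :=
  covR_F chkF_eq T (.n 1 (.n 2 (.n 0 (.l 54) (.n 2 (.l 16) (.l 55))) (.n 0 (.l 58) (.l 58))) (.n 2 (.n 0 (.l 54) (.n 2 (.n 0 (.l 51) (.l 17)) (.l 55))) (.n 0 (.l 58) (.l 58))))
    [(70603341824, 7143915520), (687194767360, 687194767360), (3270349160448, 305211113472)] rfl (by decide +kernel)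
end

mutual
theorem c0_t55 : CovD 0 (progs common T) [(70603341824, 7143915520), (1717986918400, 343597383680), (2659926933504, 305211113472)] :=
  covR_F chkF_eq T (.n 2 (.n 0 (.n 0 (.l 47) (.n 2 (.l 43) (.l 47))) (.n 1 (.n 2 (.l 43) (.l 9)) (.n 2 (.l 43) (.n 2 (.l 44) (.l 10))))) (.n 0 (.n 1 (.l 14) (.n 2 (.l 47) (.l 51))) (.n 1 (.n 2 (.n 0 (.l 48) (.l 12)) (.l 15)) (.n 2 (.l 48) (.l 15)))))
    [(70603341824, 7143915520), (1717986918400, 343597383680), (2659926933504, 305211113472)] rfl (by decide +kernel)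
theorem c0_t56 : CovD 0 (progs common T) [(70603341824, 7143915520), (2405181685760, 343597383680), (2659926933504, 305211113472)] :=
  covR_F chkF_eq T (.n 2 (.n 0 (.n 2 (.l 44) (.l 48)) (.n 2 (.l 44) (.n 1 (.l 10) (.l 48)))) (.n 0 (.n 0 (.l 52) (.l 15)) (.n 2 (.l 48) (.n 2 (.l 48) (.l 52)))))
    [(70603341824, 7143915520), (2405181685760, 343597383680), (2659926933504, 305211113472)] rfl (by decide +kernel)
end

mutual
theorem c0_t57 : CovD 0 (progs common T) [(70603341824, 7143915520), (2061584302080, 687194767360), (3270349160448, 305211113472)] :=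
  covR_F chkF_eq T (.n 1 (.n 2 (.n 0 (.l 55) (.n 2 (.l 17) (.l 55))) (.n 0 (.l 58) (.l 58))) (.n 2 (.n 0 (.l 55) (.n 0 (.l 55) (.l 18))) (.n 0 (.l 58) (.l 58))))
    [(70603341824, 7143915520), (2061584302080, 687194767360), (3270349160448, 305211113472)] rfl (by decide +kernel)
theorem c0_t61 : CovD 0 (progs common T) [(70603341824, 7143915520), (3435973836800, 687194767360), (1439082479616, 305211113472)] :=
  covR_F chkF_eq T (.n 1 (.n 2 (.n 0 (.n 1 (.l 23) (.l 24)) (.n 1 (.l 24) (.l 24))) (.n 0 (.n 0 (.l 34) (.l 34)) (.l 34))) (.n 2 (.n 0 (.l 24) (.l 24)) (.n 0 (.l 34) (.l 34))))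
    [(70603341824, 7143915520), (3435973836800, 687194767360), (1439082479616, 305211113472)] rfl (by decide +kernel)
end

mutual
theorem c0_t62 : CovD 0 (progs common T) [(70603341824, 7143915520), (3435973836800, 687194767360), (2049504706560, 305211113472)] :=
  covR_F chkF_eq T (.n 1 (.n 2 (.n 0 (.l 39) (.l 39)) (.n 0 (.l 44) (.l 44))) (.n 2 (.n 0 (.l 39) (.l 40)) (.n 0 (.l 44) (.l 45))))
    [(70603341824, 7143915520), (3435973836800, 687194767360), (2049504706560, 305211113472)] rfl (by decide +kernel)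
theorem c0_t63 : CovD 0 (progs common T) [(70603341824, 7143915520), (4810363371520, 687194767360), (1744293593088, 610422226944)] :=
  covR_F chkF_eq T (.n 2 (.n 1 (.n 2 (.n 0 (.l 24) (.l 30)) (.n 0 (.l 35) (.l 35))) (.n 2 (.n 0 (.l 25) (.l 30)) (.n 0 (.l 35) (.l 35)))) (.n 1 (.n 2 (.n 0 (.l 40) (.l 40)) (.n 0 (.l 45) (.l 45))) (.n 2 (.n 0 (.l 40) (.l 40)) (.n 0 (.l 45) (.l 45)))))
    [(70603341824, 7143915520), (4810363371520, 687194767360), (1744293593088, 610422226944)] rfl (by decide +kernel)
end

mutual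
theorem c0_t66 : CovD 0 (progs common T) [(70603341824, 7143915520), (3435973836800, 687194767360), (2659926933504, 305211113472)] :=
  covR_F chkF_eq T (.n 1 (.n 2 (.n 0 (.l 48) (.l 48)) (.n 0 (.l 52) (.n 0 (.l 52) (.l 52)))) (.n 2 (.n 0 (.l 48) (.l 49)) (.n 0 (.l 53) (.l 53))))
    [(70603341824, 7143915520), (3435973836800, 687194767360), (2659926933504, 305211113472)] rfl (by decide +kernel)
theorem c0_t67 : CovD 0 (progs common T) [(70603341824, 7143915520), (3435973836800, 687194767360), (3270349160448, 305211113472)] :=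
  covR_F chkF_eq T (.n 1 (.n 2 (.n 0 (.l 55) (.l 56)) (.n 0 (.l 58) (.l 59))) (.n 2 (.n 0 (.l 56) (.l 56)) (.n 0 (.l 59) (.l 59))))
    [(70603341824, 7143915520), (3435973836800, 687194767360), (3270349160448, 305211113472)] rfl (by decide +kernel)
end

mutual
theorem c0_t69 : CovD 0 (progs common T) [(70603341824, 7143915520), (4810363371520, 687194767360), (2659926933504, 305211113472)] :=
  covR_F chkF_eq T (.n 1 (.n 2 (.n 0 (.l 49) (.l 49)) (.n 0 (.l 53) (.l 53))) (.n 2 (.n 0 (.l 49) (.l 49)) (.n 0 (.l 53) (.l 53))))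
    [(70603341824, 7143915520), (4810363371520, 687194767360), (2659926933504, 305211113472)] rfl (by decide +kernel)
theorem c0_t70 : CovD 0 (progs common T) [(70603341824, 7143915520), (4810363371520, 687194767360), (3270349160448, 305211113472)] :=
  covR_F chkF_eq T (.n 1 (.n 2 (.n 0 (.l 56) (.l 56)) (.n 0 (.l 59) (.l 59))) (.n 2 (.n 0 (.l 56) (.l 56)) (.n 0 (.l 59) (.n 0 (.l 59) (.l 19)))))
    [(70603341824, 7143915520), (4810363371520, 687194767360), (3270349160448, 305211113472)] rfl (by decide +kernel)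
end

theorem c0_t5 : CovD 0 (progs common T) [(56315510784, 7143915520), (687194767360, 687194767360), (1439082479616, 305211113472)] :=
  covD_split 1 (by decide +kernel) c0_t6 c0_t7

theorem c0_t4 : CovD 0 (progs common T) [(56315510784, 7143915520), (687194767360, 687194767360), (1744293593088, 610422226944)] :=
  covD_split 2 (by decide +kernel) c0_t5 c0_t8

theorem c0_t10 : CovD 0 (progs common T) [(56315510784, 7143915520), (2061584302080, 687194767360), (1439082479616, 305211113472)] :=
  covD_split 1 (by decide +kernel) c0_t11 c0_t12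

theorem c0_t9 : CovD 0 (progs common T) [(56315510784, 7143915520), (2061584302080, 687194767360), (1744293593088, 610422226944)] :=
  covD_split 2 (by decide +kernel) c0_t10 c0_t13

theorem c0_t3 : CovD 0 (progs common T) [(56315510784, 7143915520), (1374389534720, 1374389534720), (1744293593088, 610422226944)] :=
  covD_split 1 (by decide +kernel) c0_t4 c0_t9

theorem c0_t15 : CovD 0 (progs common T) [(56315510784, 7143915520), (687194767360, 687194767360), (2965138046976, 610422226944)] :=
  covD_split 2 (by decide +kernel) c0_t16 c0_t17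

theorem c0_t18 : CovD 0 (progs common T) [(56315510784, 7143915520), (2061584302080, 687194767360), (2965138046976, 610422226944)] :=
  covD_split 2 (by decide +kernel) c0_t19 c0_t20

theorem c0_t14 : CovD 0 (progs common T) [(56315510784, 7143915520), (1374389534720, 1374389534720), (2965138046976, 610422226944)] :=
  covD_split 1 (by decide +kernel) c0_t15 c0_t18

theorem c0_t2 : CovD 0 (progs common T) [(56315510784, 7143915520), (1374389534720, 1374389534720), (2354715820032, 1220844453888)] :=
  covD_split 2 (by decide +kernel) c0_t3 c0_t14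

theorem c0_t23 : CovD 0 (progs common T) [(56315510784, 7143915520), (3435973836800, 687194767360), (1744293593088, 610422226944)] :=
  covD_split 2 (by decide +kernel) c0_t24 c0_t25

theorem c0_t22 : CovD 0 (progs common T) [(56315510784, 7143915520), (4123168604160, 1374389534720), (1744293593088, 610422226944)] :=
  covD_split 1 (by decide +kernel) c0_t23 c0_t26

theorem c0_t28 : CovD 0 (progs common T) [(56315510784, 7143915520), (3435973836800, 687194767360), (2965138046976, 610422226944)] :=
  covD_split 2 (by decide +kernel) c0_t29 c0_t30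

theorem c0_t27 : CovD 0 (progs common T) [(56315510784, 7143915520), (4123168604160, 1374389534720), (2965138046976, 610422226944)] :=
  covD_split 1 (by decide +kernel) c0_t28 c0_t31

theorem c0_t21 : CovD 0 (progs common T) [(56315510784, 7143915520), (4123168604160, 1374389534720), (2354715820032, 1220844453888)] :=
  covD_split 2 (by decide +kernel) c0_t22 c0_t27

theorem c0_t1 : CovD 0 (progs common T) [(56315510784, 7143915520), (2748779069440, 2748779069440), (2354715820032, 1220844453888)] :=
  covD_split 1 (by decide +kernel) c0_t2 c0_t21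

theorem c0_t36 : CovD 0 (progs common T) [(70603341824, 7143915520), (687194767360, 687194767360), (1439082479616, 305211113472)] :=
  covD_split 1 (by decide +kernel) c0_t37 c0_t38

theorem c0_t39 : CovD 0 (progs common T) [(70603341824, 7143915520), (687194767360, 687194767360), (2049504706560, 305211113472)] :=
  covD_split 1 (by decide +kernel) c0_t40 c0_t41

theorem c0_t35 : CovD 0 (progs common T) [(70603341824, 7143915520), (687194767360, 687194767360), (1744293593088, 610422226944)] :=
  covD_split 2 (by decide +kernel) c0_t36 c0_t39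

theorem c0_t44 : CovD 0 (progs common T) [(70603341824, 7143915520), (2061584302080, 687194767360), (2049504706560, 305211113472)] :=
  covD_split 1 (by decide +kernel) c0_t45 c0_t46

theorem c0_t42 : CovD 0 (progs common T) [(70603341824, 7143915520), (2061584302080, 687194767360), (1744293593088, 610422226944)] :=
  covD_split 2 (by decide +kernel) c0_t43 c0_t44

theorem c0_t34 : CovD 0 (progs common T) [(70603341824, 7143915520), (1374389534720, 1374389534720), (1744293593088, 610422226944)] :=
  covD_split 1 (by decide +kernel) c0_t35 c0_t42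

theorem c0_t49 : CovD 0 (progs common T) [(70603341824, 7143915520), (687194767360, 687194767360), (2659926933504, 305211113472)] :=
  covD_split 1 (by decide +kernel) c0_t50 c0_t51

theorem c0_t48 : CovD 0 (progs common T) [(70603341824, 7143915520), (687194767360, 687194767360), (2965138046976, 610422226944)] :=
  covD_split 2 (by decide +kernel) c0_t49 c0_t52

theorem c0_t54 : CovD 0 (progs common T) [(70603341824, 7143915520), (2061584302080, 687194767360), (2659926933504, 305211113472)] :=
  covD_split 1 (by decide +kernel) c0_t55 c0_t56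

theorem c0_t53 : CovD 0 (progs common T) [(70603341824, 7143915520), (2061584302080, 687194767360), (2965138046976, 610422226944)] :=
  covD_split 2 (by decide +kernel) c0_t54 c0_t57

theorem c0_t47 : CovD 0 (progs common T) [(70603341824, 7143915520), (1374389534720, 1374389534720), (2965138046976, 610422226944)] :=
  covD_split 1 (by decide +kernel) c0_t48 c0_t53

theorem c0_t33 : CovD 0 (progs common T) [(70603341824, 7143915520), (1374389534720, 1374389534720), (2354715820032, 1220844453888)] :=
  covD_split 2 (by decide +kernel) c0_t34 c0_t47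

theorem c0_t60 : CovD 0 (progs common T) [(70603341824, 7143915520), (3435973836800, 687194767360), (1744293593088, 610422226944)] :=
  covD_split 2 (by decide +kernel) c0_t61 c0_t62

theorem c0_t59 : CovD 0 (progs common T) [(70603341824, 7143915520), (4123168604160, 1374389534720), (1744293593088, 610422226944)] :=
  covD_split 1 (by decide +kernel) c0_t60 c0_t63

theorem c0_t65 : CovD 0 (progs common T) [(70603341824, 7143915520), (3435973836800, 687194767360), (2965138046976, 610422226944)] :=
  covD_split 2 (by decide +kernel) c0_t66 c0_t67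

theorem c0_t68 : CovD 0 (progs common T) [(70603341824, 7143915520), (4810363371520, 687194767360), (2965138046976, 610422226944)] :=
  covD_split 2 (by decide +kernel) c0_t69 c0_t70

theorem c0_t64 : CovD 0 (progs common T) [(70603341824, 7143915520), (4123168604160, 1374389534720), (2965138046976, 610422226944)] :=
  covD_split 1 (by decide +kernel) c0_t65 c0_t68

theorem c0_t58 : CovD 0 (progs common T) [(70603341824, 7143915520), (4123168604160, 1374389534720), (2354715820032, 1220844453888)] :=
  covD_split 2 (by decide +kernel) c0_t59 c0_t64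

theorem c0_t32 : CovD 0 (progs common T) [(70603341824, 7143915520), (2748779069440, 2748779069440), (2354715820032, 1220844453888)] :=
  covD_split 1 (by decide +kernel) c0_t33 c0_t58

theorem c0 : CovD 0 (progs common T) [(63459426304, 14287831040), (2748779069440, 2748779069440), (2354715820032, 1220844453888)] :=
  covD_split 0 (by decide +kernel) c0_t1 c0_t32

end Pool.Agent.helper31.A2.Cert.LP3
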