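import Pool.Agent.helper31.A2.Cert.LP4T

/-!
Generated: certificates.
-/

namespace Pool.Agent.helper31.A2.Cert.LP4

open Pool.Agent.helper31.IA (Z Op)
open Pool.Agent.helper31.IC (TD CovD covD_split)
open Pool.Agent.helper14.RW
open Pool.Agent.helper31.A2.Cert.LPP

mutual
theorem c0_t6 : CovD 0 (progs common T) [(56315510784, 7143915520), (343597383680, 343597383680), (1442169487360, 308298121216)] :=
  covR_F chkF_eq T (.n 2 (.n 0 (.n 2 (.n 1 (.l 14) (.l 14)) (.l 14)) (.n 1 (.n 2 (.l 14) (.l 15)) (.n 2 (.n 1 (.l 14) (.l 14)) (.l 15)))) (.n 0 (.n 2 (.n 1 (.l 20) (.l 21)) (.l 25)) (.n 0 (.l 25) (.l 25))))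
    [(56315510784, 7143915520), (343597383680, 343597383680), (1442169487360, 308298121216)] rfl (by decide +kernel)
theorem c0_t7 : CovD 0 (progs common T) [(56315510784, 7143915520), (1030792151040, 343597383680), (1442169487360, 308298121216)] :=
  covR_F chkF_eq T (.n 2 (.n 0 (.n 1 (.n 1 (.n 2 (.l 14) (.l 15)) (.n 2 (.l 14) (.l 15))) (.n 0 (.l 15) (.l 15))) (.n 1 (.n 1 (.l 15) (.l 15)) (.l 15))) (.n 0 (.n 1 (.l 25) (.l 25)) (.n 1 (.l 25) (.n 0 (.n 0 (.l 25) (.l 26)) (.l 26)))))
    [(56315510784, 7143915520), (1030792151040, 343597383680), (1442169487360, 308298121216)] rfl (by decide +kernel)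
end

mutual
theorem c0_t8 : CovD 0 (progs common T) [(56315510784, 7143915520), (687194767360, 687194767360), (2058765729792, 308298121216)] :=
  covR_F chkF_eq T (.n 1 (.n 2 (.n 0 (.l 30) (.n 2 (.l 25) (.l 31))) (.n 0 (.n 1 (.l 35) (.l 35)) (.l 35))) (.n 2 (.n 0 (.n 1 (.l 30) (.n 0 (.l 31) (.l 31))) (.n 1 (.l 31) (.l 31))) (.n 0 (.n 0 (.l 35) (.l 35)) (.l 35))))
    [(56315510784, 7143915520), (687194767360, 687194767360), (2058765729792, 308298121216)] rfl (by decide +kernel)
theorem c0_t11 : CovD 0 (progs common T) [(56315510784, 7143915520), (1717986918400, 343597383680), (1442169487360, 308298121216)] :=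
  covR_F chkF_eq T (.n 2 (.n 0 (.n 1 (.l 15) (.n 0 (.l 16) (.l 16))) (.n 1 (.n 0 (.l 16) (.l 16)) (.l 16))) (.n 0 (.n 1 (.n 0 (.l 25) (.l 26)) (.l 26)) (.n 0 (.l 26) (.l 26))))
    [(56315510784, 7143915520), (1717986918400, 343597383680), (1442169487360, 308298121216)] rfl (by decide +kernel)
end

mutual
theorem c0_t12 : CovD 0 (progs common T) [(56315510784, 7143915520), (2405181685760, 343597383680), (1442169487360, 308298121216)] :=
  covR_F chkF_eq T (.n 2 (.n 0 (.n 1 (.l 16) (.l 16)) (.n 1 (.l 16) (.l 17))) (.n 0 (.n 0 (.l 26) (.n 1 (.l 26) (.l 27))) (.n 1 (.l 27) (.l 27))))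
    [(56315510784, 7143915520), (2405181685760, 343597383680), (1442169487360, 308298121216)] rfl (by decide +kernel)
theorem c0_t13 : CovD 0 (progs common T) [(56315510784, 7143915520), (2061584302080, 687194767360), (2058765729792, 308298121216)] :=
  covR_F chkF_eq T (.n 1 (.n 2 (.n 0 (.l 31) (.n 0 (.l 31) (.n 1 (.l 31) (.l 32)))) (.n 0 (.l 35) (.n 1 (.l 36) (.l 36)))) (.n 2 (.n 0 (.n 0 (.l 31) (.l 32)) (.l 32)) (.n 0 (.n 0 (.l 36) (.l 36)) (.l 36))))
    [(56315510784, 7143915520), (2061584302080, 687194767360), (2058765729792, 308298121216)] rfl (by decide +kernel)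
end

mutual
theorem c0_t16 : CovD 0 (progs common T) [(56315510784, 7143915520), (687194767360, 687194767360), (2675361972224, 308298121216)] :=
  covR_F chkF_eq T (.n 1 (.n 2 (.n 0 (.l 39) (.l 39)) (.n 0 (.l 43) (.n 0 (.l 44) (.l 8)))) (.n 2 (.n 0 (.l 39) (.n 0 (.l 39) (.l 40))) (.n 0 (.n 0 (.l 43) (.l 44)) (.n 0 (.l 44) (.l 8)))))
    [(56315510784, 7143915520), (687194767360, 687194767360), (2675361972224, 308298121216)] rfl (by decide +kernel)
theorem c0_t17 : CovD 0 (progs common T) [(56315510784, 7143915520), (687194767360, 687194767360), (3291958214656, 308298121216)] :=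
  covR_F chkF_eq T (.n 1 (.n 2 (.n 0 (.l 48) (.l 48)) (.n 0 (.l 51) (.l 51))) (.n 2 (.n 0 (.l 48) (.l 48)) (.n 0 (.l 51) (.l 51))))
    [(56315510784, 7143915520), (687194767360, 687194767360), (3291958214656, 308298121216)] rfl (by decide +kernel)
end

mutual
theorem c0_t19 : CovD 0 (progs common T) [(56315510784, 7143915520), (2061584302080, 687194767360), (2675361972224, 308298121216)] :=
  covR_F chkF_eq T (.n 1 (.n 2 (.n 0 (.n 0 (.l 39) (.l 40)) (.l 40)) (.n 0 (.l 44) (.l 44))) (.n 2 (.n 0 (.l 40) (.l 40)) (.n 0 (.l 44) (.n 0 (.l 44) (.l 45)))))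
    [(56315510784, 7143915520), (2061584302080, 687194767360), (2675361972224, 308298121216)] rfl (by decide +kernel)
theorem c0_t20 : CovD 0 (progs common T) [(56315510784, 7143915520), (2061584302080, 687194767360), (3291958214656, 308298121216)] :=
  covR_F chkF_eq T (.n 1 (.n 2 (.n 0 (.l 48) (.l 48)) (.n 0 (.l 51) (.l 52))) (.n 2 (.n 0 (.l 48) (.l 49)) (.n 0 (.l 51) (.l 52))))
    [(56315510784, 7143915520), (2061584302080, 687194767360), (3291958214656, 308298121216)] rfl (by decide +kernel)
end

mutual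
theorem c0_t24 : CovD 0 (progs common T) [(56315510784, 7143915520), (3435973836800, 687194767360), (1442169487360, 308298121216)] :=
  covR_F chkF_eq T (.n 1 (.n 2 (.n 0 (.n 1 (.l 17) (.l 17)) (.n 1 (.l 17) (.l 17))) (.n 0 (.l 27) (.l 27))) (.n 2 (.n 0 (.l 17) (.l 18)) (.n 0 (.l 27) (.l 28))))
    [(56315510784, 7143915520), (3435973836800, 687194767360), (1442169487360, 308298121216)] rfl (by decide +kernel)
theorem c0_t25 : CovD 0 (progs common T) [(56315510784, 7143915520), (3435973836800, 687194767360), (2058765729792, 308298121216)] :=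
  covR_F chkF_eq T (.n 1 (.n 2 (.n 0 (.l 32) (.l 32)) (.n 0 (.l 36) (.n 0 (.l 36) (.l 37)))) (.n 2 (.n 0 (.n 0 (.l 32) (.l 33)) (.l 33)) (.n 0 (.l 37) (.l 37))))
    [(56315510784, 7143915520), (3435973836800, 687194767360), (2058765729792, 308298121216)] rfl (by decide +kernel)
end

mutual
theorem c0_t26 : CovD 0 (progs common T) [(56315510784, 7143915520), (4810363371520, 687194767360), (1750467608576, 616596242432)] :=
  covR_F chkF_eq T (.n 2 (.n 1 (.n 2 (.n 0 (.l 18) (.l 18)) (.n 0 (.l 28) (.l 28))) (.n 2 (.n 0 (.l 18) (.l 19)) (.n 0 (.l 28) (.l 29)))) (.n 1 (.n 2 (.n 0 (.l 33) (.l 33)) (.n 0 (.l 37) (.l 37))) (.n 2 (.n 0 (.l 33) (.l 34)) (.n 0 (.l 37) (.l 38)))))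
    [(56315510784, 7143915520), (4810363371520, 687194767360), (1750467608576, 616596242432)] rfl (by decide +kernel)
theorem c0_t29 : CovD 0 (progs common T) [(56315510784, 7143915520), (3435973836800, 687194767360), (2675361972224, 308298121216)] :=
  covR_F chkF_eq T (.n 1 (.n 2 (.n 0 (.l 40) (.l 41)) (.n 0 (.n 0 (.l 44) (.l 45)) (.l 45))) (.n 2 (.n 0 (.l 41) (.l 41)) (.n 0 (.l 45) (.l 45))))
    [(56315510784, 7143915520), (3435973836800, 687194767360), (2675361972224, 308298121216)] rfl (by decide +kernel)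
end

mutual
theorem c0_t30 : CovD 0 (progs common T) [(56315510784, 7143915520), (3435973836800, 687194767360), (3291958214656, 308298121216)] :=
  covR_F chkF_eq T (.n 1 (.n 2 (.n 0 (.l 49) (.l 49)) (.n 0 (.l 52) (.l 52))) (.n 2 (.n 0 (.l 49) (.l 49)) (.n 0 (.l 52) (.l 52))))
    [(56315510784, 7143915520), (3435973836800, 687194767360), (3291958214656, 308298121216)] rfl (by decide +kernel)
theorem c0_t31 : CovD 0 (progs common T) [(56315510784, 7143915520), (4810363371520, 687194767360), (2983660093440, 616596242432)] :=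
  covR_F chkF_eq T (.n 2 (.n 1 (.n 2 (.n 0 (.l 41) (.l 41)) (.n 0 (.l 45) (.l 46))) (.n 2 (.n 0 (.l 41) (.l 42)) (.n 0 (.l 45) (.l 46)))) (.n 1 (.n 2 (.n 0 (.l 49) (.l 50)) (.n 0 (.l 52) (.l 53))) (.n 2 (.n 0 (.l 50) (.l 50)) (.n 0 (.l 53) (.l 53)))))
    [(56315510784, 7143915520), (4810363371520, 687194767360), (2983660093440, 616596242432)] rfl (by decide +kernel)
end

mutual
theorem c0_t37 : CovD 0 (progs common T) [(70603341824, 7143915520), (343597383680, 343597383680), (1442169487360, 308298121216)] :=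
  covR_F chkF_eq T (.n 2 (.n 0 (.n 1 (.n 0 (.n 2 (.l 14) (.l 15)) (.l 15)) (.n 1 (.l 15) (.l 15))) (.n 1 (.l 15) (.l 15))) (.n 0 (.n 0 (.l 25) (.n 2 (.l 21) (.l 26))) (.n 1 (.n 2 (.l 21) (.l 26)) (.l 26))))
    [(70603341824, 7143915520), (343597383680, 343597383680), (1442169487360, 308298121216)] rfl (by decide +kernel)
theorem c0_t38 : CovD 0 (progs common T) [(70603341824, 7143915520), (1030792151040, 343597383680), (1442169487360, 308298121216)] :=
  covR_F chkF_eq T (.n 2 (.n 0 (.n 1 (.l 15) (.n 0 (.n 1 (.l 15) (.l 16)) (.l 16))) (.n 1 (.n 2 (.l 15) (.l 16)) (.l 16))) (.n 0 (.n 1 (.n 0 (.l 26) (.l 26)) (.l 26)) (.n 1 (.l 26) (.n 0 (.l 26) (.l 26)))))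
    [(70603341824, 7143915520), (1030792151040, 343597383680), (1442169487360, 308298121216)] rfl (by decide +kernel)
end

mutual
theorem c0_t40 : CovD 0 (progs common T) [(70603341824, 7143915520), (343597383680, 343597383680), (2058765729792, 308298121216)] :=
  covR_F chkF_eq T (.n 2 (.n 0 (.n 1 (.l 31) (.l 31)) (.n 1 (.n 2 (.l 26) (.l 1)) (.n 2 (.l 26) (.l 1)))) (.n 0 (.l 35) (.n 1 (.n 2 (.l 32) (.l 36)) (.n 2 (.l 31) (.l 36)))))
    [(70603341824, 7143915520), (343597383680, 343597383680), (2058765729792, 308298121216)] rfl (by decide +kernel)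
theorem c0_t41 : CovD 0 (progs common T) [(70603341824, 7143915520), (1030792151040, 343597383680), (2058765729792, 308298121216)] :=
  covR_F chkF_eq T (.n 2 (.n 0 (.n 1 (.l 31) (.l 31)) (.n 2 (.n 1 (.l 26) (.l 27)) (.n 2 (.l 27) (.n 1 (.l 32) (.l 32))))) (.n 0 (.n 1 (.n 0 (.l 35) (.l 36)) (.l 36)) (.n 1 (.n 0 (.l 36) (.l 2)) (.n 2 (.l 32) (.l 36)))))
    [(70603341824, 7143915520), (1030792151040, 343597383680), (2058765729792, 308298121216)] rfl (by decide +kernel)
end

mutual
theorem c0_t44 : CovD 0 (progs common T) [(70603341824, 7143915520), (1717986918400, 343597383680), (1442169487360, 308298121216)] :=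
  covR_F chkF_eq T (.n 2 (.n 0 (.n 1 (.l 16) (.l 16)) (.n 1 (.l 16) (.l 17))) (.n 0 (.n 1 (.l 26) (.l 27)) (.n 1 (.n 1 (.l 26) (.n 2 (.l 22) (.l 27))) (.n 1 (.l 27) (.l 27)))))
    [(70603341824, 7143915520), (1717986918400, 343597383680), (1442169487360, 308298121216)] rfl (by decide +kernel)
theorem c0_t45 : CovD 0 (progs common T) [(70603341824, 7143915520), (2405181685760, 343597383680), (1442169487360, 308298121216)] :=
  covR_F chkF_eq T (.n 2 (.n 0 (.n 1 (.l 17) (.l 17)) (.n 1 (.l 17) (.l 17))) (.n 0 (.l 27) (.n 1 (.l 27) (.l 27))))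
    [(70603341824, 7143915520), (2405181685760, 343597383680), (1442169487360, 308298121216)] rfl (by decide +kernel)
end

mutual
theorem c0_t47 : CovD 0 (progs common T) [(70603341824, 7143915520), (1717986918400, 343597383680), (2058765729792, 308298121216)] :=
  covR_F chkF_eq T (.n 2 (.n 0 (.n 1 (.l 32) (.l 32)) (.n 1 (.n 2 (.l 27) (.l 32)) (.n 1 (.l 32) (.l 32)))) (.n 0 (.n 0 (.l 36) (.l 36)) (.n 1 (.n 2 (.l 32) (.l 36)) (.l 3))))
    [(70603341824, 7143915520), (1717986918400, 343597383680), (2058765729792, 308298121216)] rfl (by decide +kernel)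
theorem c0_t48 : CovD 0 (progs common T) [(70603341824, 7143915520), (2405181685760, 343597383680), (2058765729792, 308298121216)] :=
  covR_F chkF_eq T (.n 2 (.n 0 (.l 32) (.n 1 (.l 32) (.l 33))) (.n 0 (.n 0 (.l 36) (.l 37)) (.n 1 (.l 37) (.l 37))))
    [(70603341824, 7143915520), (2405181685760, 343597383680), (2058765729792, 308298121216)] rfl (by decide +kernel)
end

mutual
theorem c0_t52 : CovD 0 (progs common T) [(70603341824, 7143915520), (343597383680, 343597383680), (2675361972224, 308298121216)] :=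
  covR_F chkF_eq T (.n 2 (.n 0 (.n 1 (.l 40) (.l 40)) (.n 0 (.l 4) (.n 0 (.l 4) (.n 2 (.l 36) (.l 5))))) (.n 0 (.n 2 (.l 40) (.l 44)) (.n 2 (.l 40) (.l 9))))
    [(70603341824, 7143915520), (343597383680, 343597383680), (2675361972224, 308298121216)] rfl (by decide +kernel)
theorem c0_t53 : CovD 0 (progs common T) [(70603341824, 7143915520), (1030792151040, 343597383680), (2675361972224, 308298121216)] :=
  covR_F chkF_eq T (.n 2 (.n 0 (.n 1 (.l 40) (.l 40)) (.n 2 (.l 36) (.n 2 (.l 36) (.l 5)))) (.n 0 (.n 2 (.l 40) (.l 44)) (.n 2 (.l 7) (.n 0 (.l 9) (.n 1 (.l 9) (.l 10))))))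
    [(70603341824, 7143915520), (1030792151040, 343597383680), (2675361972224, 308298121216)] rfl (by decide +kernel)
end

mutual
theorem c0_t54 : CovD 0 (progs common T) [(70603341824, 7143915520), (687194767360, 687194767360), (3291958214656, 308298121216)] :=
  covR_F chkF_eq T (.n 1 (.n 2 (.n 0 (.l 48) (.l 49)) (.n 0 (.l 52) (.l 52))) (.n 2 (.n 0 (.l 48) (.n 0 (.l 49) (.l 11))) (.n 0 (.l 52) (.l 52))))
    [(70603341824, 7143915520), (687194767360, 687194767360), (3291958214656, 308298121216)] rfl (by decide +kernel)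
theorem c0_t57 : CovD 0 (progs common T) [(70603341824, 7143915520), (1717986918400, 343597383680), (2675361972224, 308298121216)] :=
  covR_F chkF_eq T (.n 2 (.n 0 (.n 2 (.l 36) (.l 40)) (.n 1 (.l 5) (.n 2 (.l 36) (.n 0 (.l 41) (.l 6))))) (.n 0 (.n 2 (.l 40) (.l 45)) (.n 1 (.n 2 (.l 41) (.l 10)) (.l 10))))
    [(70603341824, 7143915520), (1717986918400, 343597383680), (2675361972224, 308298121216)] rfl (by decide +kernel)
end

mutual
theorem c0_t58 : CovD 0 (progs common T) [(70603341824, 7143915520), (2405181685760, 343597383680), (2675361972224, 308298121216)] :=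
  covR_F chkF_eq T (.n 2 (.n 0 (.n 0 (.l 41) (.l 41)) (.n 1 (.l 6) (.l 41))) (.n 0 (.l 45) (.n 2 (.l 41) (.l 45))))
    [(70603341824, 7143915520), (2405181685760, 343597383680), (2675361972224, 308298121216)] rfl (by decide +kernel)
theorem c0_t59 : CovD 0 (progs common T) [(70603341824, 7143915520), (2061584302080, 687194767360), (3291958214656, 308298121216)] :=
  covR_F chkF_eq T (.n 1 (.n 2 (.n 0 (.l 49) (.l 49)) (.n 0 (.l 52) (.l 52))) (.n 2 (.n 0 (.l 49) (.l 49)) (.n 0 (.l 52) (.l 52))))
    [(70603341824, 7143915520), (2061584302080, 687194767360), (3291958214656, 308298121216)] rfl (by decide +kernel)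
end

mutual
theorem c0_t63 : CovD 0 (progs common T) [(70603341824, 7143915520), (3435973836800, 687194767360), (1442169487360, 308298121216)] :=
  covR_F chkF_eq T (.n 1 (.n 2 (.n 0 (.n 1 (.l 17) (.l 18)) (.l 18)) (.n 0 (.n 0 (.l 28) (.l 28)) (.l 28))) (.n 2 (.n 0 (.l 18) (.l 23)) (.n 0 (.l 28) (.l 28))))
    [(70603341824, 7143915520), (3435973836800, 687194767360), (1442169487360, 308298121216)] rfl (by decide +kernel)
theorem c0_t64 : CovD 0 (progs common T) [(70603341824, 7143915520), (3435973836800, 687194767360), (2058765729792, 308298121216)] :=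
  covR_F chkF_eq T (.n 1 (.n 2 (.n 0 (.l 33) (.l 33)) (.n 0 (.l 37) (.l 37))) (.n 2 (.n 0 (.l 33) (.l 34)) (.n 0 (.l 37) (.l 38))))
    [(70603341824, 7143915520), (3435973836800, 687194767360), (2058765729792, 308298121216)] rfl (by decide +kernel)
end

mutual
theorem c0_t65 : CovD 0 (progs common T) [(70603341824, 7143915520), (4810363371520, 687194767360), (1750467608576, 616596242432)] :=
  covR_F chkF_eq T (.n 2 (.n 1 (.n 2 (.n 0 (.l 18) (.l 24)) (.n 0 (.l 29) (.l 29))) (.n 2 (.n 0 (.l 24) (.l 24)) (.n 0 (.l 29) (.l 29)))) (.n 1 (.n 2 (.n 0 (.l 34) (.l 34)) (.n 0 (.l 38) (.l 38))) (.n 2 (.n 0 (.l 34) (.l 34)) (.n 0 (.l 38) (.l 38)))))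
    [(70603341824, 7143915520), (4810363371520, 687194767360), (1750467608576, 616596242432)] rfl (by decide +kernel)
theorem c0_t67 : CovD 0 (progs common T) [(70603341824, 7143915520), (3435973836800, 687194767360), (2983660093440, 616596242432)] :=
  covR_F chkF_eq T (.n 2 (.n 1 (.n 2 (.n 0 (.l 41) (.l 41)) (.n 0 (.l 45) (.l 45))) (.n 2 (.n 0 (.l 41) (.l 42)) (.n 0 (.l 46) (.l 46)))) (.n 1 (.n 2 (.n 0 (.l 49) (.l 50)) (.n 0 (.l 52) (.l 53))) (.n 2 (.n 0 (.l 50) (.l 50)) (.n 0 (.l 53) (.l 53)))))
    [(70603341824, 7143915520), (3435973836800, 687194767360), (2983660093440, 616596242432)] rfl (by decide +kernel)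
end

mutual
theorem c0_t69 : CovD 0 (progs common T) [(70603341824, 7143915520), (4810363371520, 687194767360), (2675361972224, 308298121216)] :=
  covR_F chkF_eq T (.n 1 (.n 2 (.n 0 (.l 42) (.l 42)) (.n 0 (.l 46) (.l 46))) (.n 2 (.n 0 (.l 42) (.l 42)) (.n 0 (.l 46) (.l 47))))
    [(70603341824, 7143915520), (4810363371520, 687194767360), (2675361972224, 308298121216)] rfl (by decide +kernel)
theorem c0_t70 : CovD 0 (progs common T) [(70603341824, 7143915520), (4810363371520, 687194767360), (3291958214656, 308298121216)] :=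
  covR_F chkF_eq T (.n 1 (.n 2 (.n 0 (.l 50) (.l 50)) (.n 0 (.l 53) (.n 0 (.l 53) (.l 54)))) (.n 2 (.n 0 (.l 50) (.n 0 (.l 50) (.n 0 (.l 50) (.l 12)))) (.n 0 (.l 53) (.n 0 (.l 53) (.n 0 (.l 54) (.n 1 (.l 13) (.l 0)))))))
    [(70603341824, 7143915520), (4810363371520, 687194767360), (3291958214656, 308298121216)] rfl (by decide +kernel)
end

theorem c0_t5 : CovD 0 (progs common T) [(56315510784, 7143915520), (687194767360, 687194767360), (1442169487360, 308298121216)] :=
  covD_split 1 (by decide +kernel) c0_t6 c0_t7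

theorem c0_t4 : CovD 0 (progs common T) [(56315510784, 7143915520), (687194767360, 687194767360), (1750467608576, 616596242432)] :=
  covD_split 2 (by decide +kernel) c0_t5 c0_t8

theorem c0_t10 : CovD 0 (progs common T) [(56315510784, 7143915520), (2061584302080, 687194767360), (1442169487360, 308298121216)] :=
  covD_split 1 (by decide +kernel) c0_t11 c0_t12

theorem c0_t9 : CovD 0 (progs common T) [(56315510784, 7143915520), (2061584302080, 687194767360), (1750467608576, 616596242432)] :=
  covD_split 2 (by decide +kernel) c0_t10 c0_t13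

theorem c0_t3 : CovD 0 (progs common T) [(56315510784, 7143915520), (1374389534720, 1374389534720), (1750467608576, 616596242432)] :=
  covD_split 1 (by decide +kernel) c0_t4 c0_t9

theorem c0_t15 : CovD 0 (progs common T) [(56315510784, 7143915520), (687194767360, 687194767360), (2983660093440, 616596242432)] :=
  covD_split 2 (by decide +kernel) c0_t16 c0_t17

theorem c0_t18 : CovD 0 (progs common T) [(56315510784, 7143915520), (2061584302080, 687194767360), (2983660093440, 616596242432)] :=
  covD_split 2 (by decide +kernel) c0_t19 c0_t20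

theorem c0_t14 : CovD 0 (progs common T) [(56315510784, 7143915520), (1374389534720, 1374389534720), (2983660093440, 616596242432)] :=
  covD_split 1 (by decide +kernel) c0_t15 c0_t18

theorem c0_t2 : CovD 0 (progs common T) [(56315510784, 7143915520), (1374389534720, 1374389534720), (2367063851008, 1233192484864)] :=
  covD_split 2 (by decide +kernel) c0_t3 c0_t14

theorem c0_t23 : CovD 0 (progs common T) [(56315510784, 7143915520), (3435973836800, 687194767360), (1750467608576, 616596242432)] :=
  covD_split 2 (by decide +kernel) c0_t24 c0_t25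

theorem c0_t22 : CovD 0 (progs common T) [(56315510784, 7143915520), (4123168604160, 1374389534720), (1750467608576, 616596242432)] :=
  covD_split 1 (by decide +kernel) c0_t23 c0_t26

theorem c0_t28 : CovD 0 (progs common T) [(56315510784, 7143915520), (3435973836800, 687194767360), (2983660093440, 616596242432)] :=
  covD_split 2 (by decide +kernel) c0_t29 c0_t30

theorem c0_t27 : CovD 0 (progs common T) [(56315510784, 7143915520), (4123168604160, 1374389534720), (2983660093440, 616596242432)] :=
  covD_split 1 (by decide +kernel) c0_t28 c0_t31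

theorem c0_t21 : CovD 0 (progs common T) [(56315510784, 7143915520), (4123168604160, 1374389534720), (2367063851008, 1233192484864)] :=
  covD_split 2 (by decide +kernel) c0_t22 c0_t27

theorem c0_t1 : CovD 0 (progs common T) [(56315510784, 7143915520), (2748779069440, 2748779069440), (2367063851008, 1233192484864)] :=
  covD_split 1 (by decide +kernel) c0_t2 c0_t21

theorem c0_t36 : CovD 0 (progs common T) [(70603341824, 7143915520), (687194767360, 687194767360), (1442169487360, 308298121216)] :=
  covD_split 1 (by decide +kernel) c0_t37 c0_t38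

theorem c0_t39 : CovD 0 (progs common T) [(70603341824, 7143915520), (687194767360, 687194767360), (2058765729792, 308298121216)] :=
  covD_split 1 (by decide +kernel) c0_t40 c0_t41

theorem c0_t35 : CovD 0 (progs common T) [(70603341824, 7143915520), (687194767360, 687194767360), (1750467608576, 616596242432)] :=
  covD_split 2 (by decide +kernel) c0_t36 c0_t39

theorem c0_t43 : CovD 0 (progs common T) [(70603341824, 7143915520), (2061584302080, 687194767360), (1442169487360, 308298121216)] :=
  covD_split 1 (by decide +kernel) c0_t44 c0_t45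

theorem c0_t46 : CovD 0 (progs common T) [(70603341824, 7143915520), (2061584302080, 687194767360), (2058765729792, 308298121216)] :=
  covD_split 1 (by decide +kernel) c0_t47 c0_t48

theorem c0_t42 : CovD 0 (progs common T) [(70603341824, 7143915520), (2061584302080, 687194767360), (1750467608576, 616596242432)] :=
  covD_split 2 (by decide +kernel) c0_t43 c0_t46

theorem c0_t34 : CovD 0 (progs common T) [(70603341824, 7143915520), (1374389534720, 1374389534720), (1750467608576, 616596242432)] :=
  covD_split 1 (by decide +kernel) c0_t35 c0_t42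

theorem c0_t51 : CovD 0 (progs common T) [(70603341824, 7143915520), (687194767360, 687194767360), (2675361972224, 308298121216)] :=
  covD_split 1 (by decide +kernel) c0_t52 c0_t53

theorem c0_t50 : CovD 0 (progs common T) [(70603341824, 7143915520), (687194767360, 687194767360), (2983660093440, 616596242432)] :=
  covD_split 2 (by decide +kernel) c0_t51 c0_t54

theorem c0_t56 : CovD 0 (progs common T) [(70603341824, 7143915520), (2061584302080, 687194767360), (2675361972224, 308298121216)] :=
  covD_split 1 (by decide +kernel) c0_t57 c0_t58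

theorem c0_t55 : CovD 0 (progs common T) [(70603341824, 7143915520), (2061584302080, 687194767360), (2983660093440, 616596242432)] :=
  covD_split 2 (by decide +kernel) c0_t56 c0_t59

theorem c0_t49 : CovD 0 (progs common T) [(70603341824, 7143915520), (1374389534720, 1374389534720), (2983660093440, 616596242432)] :=
  covD_split 1 (by decide +kernel) c0_t50 c0_t55

theorem c0_t33 : CovD 0 (progs common T) [(70603341824, 7143915520), (1374389534720, 1374389534720), (2367063851008, 1233192484864)] :=
  covD_split 2 (by decide +kernel) c0_t34 c0_t49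

theorem c0_t62 : CovD 0 (progs common T) [(70603341824, 7143915520), (3435973836800, 687194767360), (1750467608576, 616596242432)] :=
  covD_split 2 (by decide +kernel) c0_t63 c0_t64

theorem c0_t61 : CovD 0 (progs common T) [(70603341824, 7143915520), (4123168604160, 1374389534720), (1750467608576, 616596242432)] :=
  covD_split 1 (by decide +kernel) c0_t62 c0_t65

theorem c0_t68 : CovD 0 (progs common T) [(70603341824, 7143915520), (4810363371520, 687194767360), (2983660093440, 616596242432)] :=
  covD_split 2 (by decide +kernel) c0_t69 c0_t70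

theorem c0_t66 : CovD 0 (progs common T) [(70603341824, 7143915520), (4123168604160, 1374389534720), (2983660093440, 616596242432)] :=
  covD_split 1 (by decide +kernel) c0_t67 c0_t68

theorem c0_t60 : CovD 0 (progs common T) [(70603341824, 7143915520), (4123168604160, 1374389534720), (2367063851008, 1233192484864)] :=
  covD_split 2 (by decide +kernel) c0_t61 c0_t66

theorem c0_t32 : CovD 0 (progs common T) [(70603341824, 7143915520), (2748779069440, 2748779069440), (2367063851008, 1233192484864)] :=
  covD_split 1 (by decide +kernel) c0_t33 c0_t60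

theorem c0 : CovD 0 (progs common T) [(63459426304, 14287831040), (2748779069440, 2748779069440), (2367063851008, 1233192484864)] :=
  covD_split 0 (by decide +kernel) c0_t1 c0_t32

end Pool.Agent.helper31.A2.Cert.LP4
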