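import Pool.Agent.helper14.RW.Eng

/-!
Generated: a program with a row of constants, and its compiled form.
-/

namespace Pool.Agent.helper31.A2.Cert.LPP

open Pool.Agent.helper31.IA (Z Op)
open Pool.Agent.helper31.IC (Ops runG TD CovD covD_split)
open Pool.Agent.helper14.RW

set_option maxRecDepth 100000

/-- a row: the numbers times `2^40`; `x_m`: minus the negative part -/
structure Row where
  ys : Nat
  wa : Nat
  wb : Nat
  RW : Nat
  o0 : Nat
  p0 : Nat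
  p0_m : Nat
  L1 : Nat
  a : Nat
  RH : Nat
  RHq : Nat
  dq : Nat
  ex0 : Nat
  La1 : Nat
  Yd : Nat
  Ld : Nat
  o1 : Nat
  p1 : Nat
  p1_m : Nat
  a1 : Nat
  tha : Nat
deriving DecidableEq

def common (r : Row) : List Op := [
  .const ⟨1099511627776, 0, 0, 0⟩,
  .mul 1 1,
  .mul 4 4,
  .mul 4 4,
  .add 0 1,
  .log 0,
  .scale ⟨549755813888, 0, 0, 0⟩ 0,
  .exp 0,
  .neg 1,
  .exp 0,
  .mul 11 0,
  .mul 0 0,
  .mul 12 4,
  .const ⟨r.ys, 0, 0, 0⟩,
  .sub 0 16,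
  .pos 0,
  .const ⟨r.wa, 0, 0, 0⟩,
  .sub 3 0,
  .pos 0,
  .const ⟨r.wb, 0, 0, 0⟩,
  .sub 0 5,
  .pos 0,
  .mul 6 6,
  .mul 7 20,
  .mul 1 19,
  .mul 23 20,
  .mul 0 0,
  .scale ⟨1282763915264, 0, 0, 0⟩ 0,
  .mul 23 23,
  .scale ⟨35184372088832, 0, 0, 0⟩ 0,
  .add 2 0,
  .scale ⟨r.RW, 0, 0, 0⟩ 6,
  .scale ⟨r.RW, 0, 0, 0⟩ 0,
  .add 0 29,
  .const ⟨r.o0, 0, 0, 0⟩,
  .scale ⟨1106574835712, 0, 0, 0⟩ 0,
  .scale ⟨r.p0, r.p0_m, 0, 0⟩ 20,
  .add 1 0,
  .pos 0,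
  .mul 0 35,
  .mul 0 26,
  .mul 38 14,
  .scale ⟨2199023255552, 0, 0, 0⟩ 40,
  .add 1 0,
  .scale ⟨2836740964352, 0, 0, 0⟩ 38,
  .mul 41 31,
  .scale ⟨196263018496, 0, 0, 0⟩ 0,
  .add 2 0,
  .scale ⟨r.L1, 0, 0, 0⟩ 24,
  .sub 44 17,
  .mul 6 9,
  .sub 1 0,
  .scale ⟨3298534883328, 0, 0, 0⟩ 46,
  .scale ⟨2199023255552, 0, 0, 0⟩ 12,
  .add 1 0,
  .mul 0 6,
  .sub 4 0,
  .mul 2 33,
  .scale ⟨10995116277760, 0, 0, 0⟩ 0,
  .sub 2 0,
  .pos 0,
  .mul 3 11,
  .neg 0,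
  .exp 0,
  .mul 46 28,
  .mul 0 25,
  .mul 50 40,
  .scale ⟨r.L1, 0, 0, 0⟩ 0,
  .scale ⟨2199023255552, 0, 0, 0⟩ 0,
  .sub 33 0,
  .scale ⟨r.RW, 0, 0, 0⟩ 3,
  .scale ⟨2199023255552, 0, 0, 0⟩ 0,
  .add 37 0,
  .scale ⟨549755813888, 0, 0, 0⟩ 0,
  .add 68 0,
  .const ⟨4398046511104, 0, 0, 0⟩,
  .add 72 0,
  .inv 0,
  .mul 3 0,
  .scale ⟨r.a, 0, 0, 0⟩ 0,
  .scale ⟨4398046511104, 0, 0, 0⟩ 0,
  .mul 0 68,
  .sub 76 0,
  .pos 0,
  .inv 0,
  .const ⟨2199023255552, 0, 0, 0⟩,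
  .scale ⟨274877906944, 0, 0, 0⟩ 77,
  .sub 1 0,
  .mul 79 79,
  .scale ⟨5727322112, 0, 0, 0⟩ 0,
  .add 2 0,
  .mul 4 4,
  .mul 0 5,
  .mul 0 0,
  .scale ⟨900726784, 0, 0, 0⟩ 0,
  .add 4 0,
  .scale ⟨r.RW, 0, 0, 0⟩ 70,
  .add 1 0,
  .mul 72 61,
  .scale ⟨659707396096, 0, 0, 0⟩ 0,
  .add 33 0,
  .exp 0,
  .add 4 0,
  .sub 0 96,
  .mul 98 67,
  .mul 0 64,
  .mul 24 21,
  .mul 3 0,
  .add 2 0,
  .mul 0 95,
  .mul 45 27,
  .sub 104 0,
  .inv 0,
  .mul 2 0,
  .mul 106 0,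
  .add 65 0,
  .sub 80 98,
  .const ⟨1108101562368, 0, 0, 0⟩,
  .add 1 0,
  .log 0,
  .scale ⟨549755813888, 0, 0, 0⟩ 0,
  .exp 0,
  .mul 0 108,
  .mul 0 115,
  .scale ⟨549755813888, 0, 0, 0⟩ 0,
  .const ⟨1116004679680, 0, 0, 0⟩,
  .add 1 0,
  .scale ⟨549755813888, 0, 0, 0⟩ 100,
  .mul 0 57,
  .scale ⟨2253999046656, 0, 0, 0⟩ 112,
  .add 8 0,
  .mul 2 0,
  .scale ⟨13744734208, 0, 0, 0⟩ 115,
  .add 11 0,
  .mul 0 25,
  .add 3 0,
  .mul 128 26,
  .scale ⟨1869170606080, 0, 0, 0⟩ 0,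
  .scale ⟨2418926419968, 0, 0, 0⟩ 22,
  .add 1 0,
  .mul 122 0,
  .add 5 0,
  .mul 15 0,
  .mul 0 117,
  .mul 1 117,
  .const ⟨1085552984064, 0, 0, 0⟩,
  .scale ⟨2199023255552, 0, 0, 0⟩ 1,
  .sub 1 0,
  .sub 141 3,
  .pos 0,
  .pos 1,
  .add 4 142,
  .mul 0 0,
  .const ⟨r.RH, 0, 0, 0⟩,
  .const ⟨r.RW, 0, 0, 0⟩,
  .sub 1 0,
  .sub 0 11,
  .sub 0 4,
  .pos 0,
  .scale ⟨10995116277760, 0, 0, 0⟩ 8,
  .sub 0 5,
  .pos 0,
  .scale ⟨989560045568, 0, 0, 0⟩ 10,
  .scale ⟨r.RHq, 0, 0, 0⟩ 131,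
  .sub 1 0,
  .pos 0,
  .scale ⟨11941082824704, 0, 0, 0⟩ 13,
  .sub 0 10,
  .sub 0 12,
  .pos 0,
  .const ⟨r.L1, 0, 0, 0⟩,
  .sub 0 22,
  .pos 0,
  .scale ⟨r.dq, 0, 0, 0⟩ 17,
  .scale ⟨r.ex0, 0, 0, 0⟩ 24,
  .sub 1 0,
  .pos 0,
  .sub 162 22,
  .scale ⟨r.La1, 0, 0, 0⟩ 0,
  .sub 0 18,
  .sub 0 29,
  .pos 0,
  .neg 36,
  .const ⟨10994319360, 0, 0, 0⟩,
  .add 1 0,
  .pos 0,
  .neg 60,
  .const ⟨36649828352, 0, 0, 0⟩,
  .add 1 0,
  .pos 0,
  .neg 55,
  .const ⟨21989687296, 0, 0, 0⟩,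
  .add 1 0,
  .pos 0,
  .mul 38 174,
  .neg 0,
  .const ⟨5496635392, 0, 0, 0⟩,
  .add 1 0,
  .pos 0,
  .neg 42,
  .const ⟨r.Yd, 0, 0, 0⟩,
  .add 1 0,
  .pos 0,
  .mul 163 41,
  .scale ⟨r.Ld, 0, 0, 0⟩ 0,
  .scale ⟨1085552984064, 0, 0, 0⟩ 43,
  .mul 166 0,
  .mul 171 171,
  .sub 1 0,
  .pos 0,
  .mul 176 45,
  .sub 172 0,
  .pos 0,
  .sub 176 53,
  .pos 0,
  .inv 6,
  .scale ⟨549755813888, 0, 0, 0⟩ 0,
  .const ⟨549755813888, 0, 0, 0⟩,
  .add 1 0,
  .scale ⟨r.o1, 0, 0, 0⟩ 0,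
  .scale ⟨r.p1, r.p1_m, 0, 0⟩ 184,
  .add 1 0,
  .pos 0,
  .mul 0 199,
  .mul 0 190,
  .mul 188 2,
  .add 182 0,
  .mul 66 0,
  .mul 204 5,
  .add 184 0,
  .mul 69 0,
  .scale ⟨2199023255552, 0, 0, 0⟩ 69,
  .add 168 0,
  .mul 0 8,
  .sub 164 0,
  .scale ⟨2199023255552, 0, 0, 0⟩ 10,
  .add 163 0,
  .mul 0 28,
  .sub 3 0,
  .mul 2 195,
  .scale ⟨12094627905536, 0, 0, 0⟩ 0,
  .sub 2 0,
  .pos 0,
  .mul 3 33,
  .neg 0,
  .exp 0,
  .scale ⟨549755813888, 0, 0, 0⟩ 17,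
  .sub 221 0,
  .pos 0,
  .inv 0,
  .add 2 223,
  .mul 0 1,
  .mul 19 2,
  .scale ⟨274877906944, 0, 0, 0⟩ 228,
  .add 0 227,
  .mul 2 0,
  .scale ⟨r.a1, 0, 0, 0⟩ 9,
  .mul 5 0,
  .add 201 95,
  .mul 212 0,
  .add 0 233,
  .mul 3 0,
  .add 6 0,
  .neg 0,
  .const ⟨r.tha, 0, 0, 0⟩,
  .add 1 0,
  .pos 0]

def chk {α : Type} (cst : Z → α) (add sub mul : α → α → α) (scale : Z → α → α)
    (neg inv exp log : α → α) (ok : α → Bool) (isPos : Nat → α → Bool) (_isLt : α → Nat → Bool) :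
    Row → List α → Bool
  | ⟨ys, wa, wb, RW, o0, p0, p0_m, L1, a, RH, RHq, dq, ex0, La1, Yd, Ld, o1, p1, p1_m, a1, tha⟩, [u0, u1, u2] =>
  let v0 := cst ⟨1099511627776, 0, 0, 0⟩; ok v0 && (
  let v1 := mul u0 u0; ok v1 && (
  let v2 := mul u2 u2; ok v2 && (
  let v3 := mul u1 u1; ok v3 && (
  let v4 := add v3 v2; ok v4 && (
  let v5 := log v4; ok v5 && (
  let v6 := scale ⟨549755813888, 0, 0, 0⟩ v5; ok v6 && (
  let v7 := exp v6; ok v7 && (
  let v8 := neg v6; ok v8 && (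
  let v9 := exp v8; ok v9 && (
  let v10 := mul u1 v9; ok v10 && (
  let v11 := mul v10 v10; ok v11 && (
  let v12 := mul u0 v7; ok v12 && (
  let v13 := cst ⟨ys, 0, 0, 0⟩; ok v13 && (
  let v14 := sub v13 u2; ok v14 && (
  isPos 3 v14 && (
  let v15 := cst ⟨wa, 0, 0, 0⟩; ok v15 && (
  let v16 := sub v12 v15; ok v16 && (
  isPos 3 v16 && (
  let v17 := cst ⟨wb, 0, 0, 0⟩; ok v17 && (
  let v18 := sub v17 v12; ok v18 && (
  isPos 3 v18 && (
  let v19 := mul v12 v12; ok v19 && (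
  let v20 := mul v12 u0; ok v20 && (
  let v21 := mul v19 v1; ok v21 && (
  let v22 := mul u1 v1; ok v22 && (
  let v23 := mul v22 v22; ok v23 && (
  let v24 := scale ⟨1282763915264, 0, 0, 0⟩ v23; ok v24 && (
  let v25 := mul v1 v1; ok v25 && (
  let v26 := scale ⟨35184372088832, 0, 0, 0⟩ v25; ok v26 && (
  let v27 := add v24 v26; ok v27 && (
  let v28 := scale ⟨RW, 0, 0, 0⟩ v21; ok v28 && (
  let v29 := scale ⟨RW, 0, 0, 0⟩ v28; ok v29 && (
  let v30 := add v29 v0; ok v30 && (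
  let v31 := cst ⟨o0, 0, 0, 0⟩; ok v31 && (
  let v32 := scale ⟨1106574835712, 0, 0, 0⟩ v31; ok v32 && (
  let v33 := scale ⟨p0, p0_m, 0, 0⟩ v12; ok v33 && (
  let v34 := add v32 v33; ok v34 && (
  isPos 3 v34 && (
  let v35 := mul v34 u0; ok v35 && (
  let v36 := mul v35 v9; ok v36 && (
  let v37 := mul u1 v22; ok v37 && (
  let v38 := scale ⟨2199023255552, 0, 0, 0⟩ u2; ok v38 && (
  let v39 := add v37 v38; ok v39 && (
  let v40 := scale ⟨2836740964352, 0, 0, 0⟩ v1; ok v40 && (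
  let v41 := mul u0 v9; ok v41 && (
  let v42 := scale ⟨196263018496, 0, 0, 0⟩ v41; ok v42 && (
  let v43 := add v40 v42; ok v43 && (
  let v44 := scale ⟨L1, 0, 0, 0⟩ v19; ok v44 && (
  let v45 := sub v0 v27; ok v45 && (
  let v46 := mul v39 v36; ok v46 && (
  let v47 := sub v45 v46; ok v47 && (
  let v48 := scale ⟨3298534883328, 0, 0, 0⟩ v1; ok v48 && (
  let v49 := scale ⟨2199023255552, 0, 0, 0⟩ v36; ok v49 && (
  let v50 := add v48 v49; ok v50 && (
  let v51 := mul v50 v44; ok v51 && (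
  let v52 := sub v47 v51; ok v52 && (
  let v53 := mul v50 v19; ok v53 && (
  let v54 := scale ⟨10995116277760, 0, 0, 0⟩ v53; ok v54 && (
  let v55 := sub v52 v54; ok v55 && (
  isPos 3 v55 && (
  let v56 := mul v52 v44; ok v56 && (
  let v57 := neg v56; ok v57 && (
  let v58 := exp v57; ok v58 && (
  let v59 := mul v12 v30; ok v59 && (
  let v60 := mul v59 v34; ok v60 && (
  let v61 := mul v10 v20; ok v61 && (
  let v62 := scale ⟨L1, 0, 0, 0⟩ v61; ok v62 && (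
  let v63 := scale ⟨2199023255552, 0, 0, 0⟩ v62; ok v63 && (
  let v64 := sub v30 v63; ok v64 && (
  let v65 := scale ⟨RW, 0, 0, 0⟩ v61; ok v65 && (
  let v66 := scale ⟨2199023255552, 0, 0, 0⟩ v65; ok v66 && (
  let v67 := add v29 v66; ok v67 && (
  let v68 := scale ⟨549755813888, 0, 0, 0⟩ v67; ok v68 && (
  let v69 := add v0 v68; ok v69 && (
  let v70 := cst ⟨4398046511104, 0, 0, 0⟩; ok v70 && (
  let v71 := add u1 v70; ok v71 && (
  let v72 := inv v71; ok v72 && (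
  let v73 := mul v69 v72; ok v73 && (
  let v74 := scale ⟨a, 0, 0, 0⟩ v73; ok v74 && (
  let v75 := scale ⟨4398046511104, 0, 0, 0⟩ v74; ok v75 && (
  let v76 := mul v75 v7; ok v76 && (
  let v77 := sub v0 v76; ok v77 && (
  isPos 3 v77 && (
  let v78 := inv v77; ok v78 && (
  let v79 := cst ⟨2199023255552, 0, 0, 0⟩; ok v79 && (
  let v80 := scale ⟨274877906944, 0, 0, 0⟩ v2; ok v80 && (
  let v81 := sub v79 v80; ok v81 && (
  let v82 := mul v2 v2; ok v82 && (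
  let v83 := scale ⟨5727322112, 0, 0, 0⟩ v82; ok v83 && (
  let v84 := add v81 v83; ok v84 && (
  let v85 := mul v80 v80; ok v85 && (
  let v86 := mul v85 v80; ok v86 && (
  let v87 := mul v86 v86; ok v87 && (
  let v88 := scale ⟨900726784, 0, 0, 0⟩ v87; ok v88 && (
  let v89 := add v84 v88; ok v89 && (
  let v90 := scale ⟨RW, 0, 0, 0⟩ v19; ok v90 && (
  let v91 := add v89 v90; ok v91 && (
  let v92 := mul v19 v30; ok v92 && (
  let v93 := scale ⟨659707396096, 0, 0, 0⟩ v92; ok v93 && (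
  let v94 := add v60 v93; ok v94 && (
  let v95 := exp v94; ok v95 && (
  let v96 := add v91 v95; ok v96 && (
  let v97 := sub v96 v0; ok v97 && (
  let v98 := mul u0 v30; ok v98 && (
  let v99 := mul v98 v34; ok v99 && (
  let v100 := mul v75 v78; ok v100 && (
  let v101 := mul v97 v100; ok v101 && (
  let v102 := add v99 v101; ok v102 && (
  let v103 := mul v102 v7; ok v103 && (
  let v104 := mul v58 v76; ok v104 && (
  let v105 := sub v0 v104; ok v105 && (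
  let v106 := inv v105; ok v106 && (
  let v107 := mul v104 v106; ok v107 && (
  let v108 := mul v1 v107; ok v108 && (
  let v109 := add v43 v108; ok v109 && (
  let v110 := sub v29 v11; ok v110 && (
  let v111 := cst ⟨1108101562368, 0, 0, 0⟩; ok v111 && (
  let v112 := add v110 v111; ok v112 && (
  let v113 := log v112; ok v113 && (
  let v114 := scale ⟨549755813888, 0, 0, 0⟩ v113; ok v114 && (
  let v115 := exp v114; ok v115 && (
  let v116 := mul v115 v7; ok v116 && (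
  let v117 := mul v116 v1; ok v117 && (
  let v118 := scale ⟨549755813888, 0, 0, 0⟩ v117; ok v118 && (
  let v119 := cst ⟨1116004679680, 0, 0, 0⟩; ok v119 && (
  let v120 := add v118 v119; ok v120 && (
  let v121 := scale ⟨549755813888, 0, 0, 0⟩ v20; ok v121 && (
  let v122 := mul v121 v64; ok v122 && (
  let v123 := scale ⟨2253999046656, 0, 0, 0⟩ v10; ok v123 && (
  let v124 := add v115 v123; ok v124 && (
  let v125 := mul v122 v124; ok v125 && (
  let v126 := scale ⟨13744734208, 0, 0, 0⟩ v10; ok v126 && (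
  let v127 := add v115 v126; ok v127 && (
  let v128 := mul v127 v102; ok v128 && (
  let v129 := add v125 v128; ok v129 && (
  let v130 := mul v1 v103; ok v130 && (
  let v131 := scale ⟨1869170606080, 0, 0, 0⟩ v130; ok v131 && (
  let v132 := scale ⟨2418926419968, 0, 0, 0⟩ v109; ok v132 && (
  let v133 := add v131 v132; ok v133 && (
  let v134 := mul v11 v133; ok v134 && (
  let v135 := add v129 v134; ok v135 && (
  let v136 := mul v120 v135; ok v136 && (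
  let v137 := mul v136 v19; ok v137 && (
  let v138 := mul v136 v20; ok v138 && (
  let v139 := cst ⟨1085552984064, 0, 0, 0⟩; ok v139 && (
  let v140 := scale ⟨2199023255552, 0, 0, 0⟩ v138; ok v140 && (
  let v141 := sub v139 v140; ok v141 && (
  let v142 := sub v0 v138; ok v142 && (
  isPos 3 v142 && (
  isPos 3 v141 && (
  let v143 := add v138 v0; ok v143 && (
  let v144 := mul v143 v143; ok v144 && (
  let v145 := cst ⟨RH, 0, 0, 0⟩; ok v145 && (
  let v146 := cst ⟨RW, 0, 0, 0⟩; ok v146 && (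
  let v147 := sub v145 v146; ok v147 && (
  let v148 := sub v147 v136; ok v148 && (
  let v149 := sub v148 v144; ok v149 && (
  isPos 3 v149 && (
  let v150 := scale ⟨10995116277760, 0, 0, 0⟩ v141; ok v150 && (
  let v151 := sub v150 v145; ok v151 && (
  isPos 3 v151 && (
  let v152 := scale ⟨989560045568, 0, 0, 0⟩ v141; ok v152 && (
  let v153 := scale ⟨RHq, 0, 0, 0⟩ v21; ok v153 && (
  let v154 := sub v152 v153; ok v154 && (
  isPos 3 v154 && (
  let v155 := scale ⟨11941082824704, 0, 0, 0⟩ v141; ok v155 && (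
  let v156 := sub v155 v145; ok v156 && (
  let v157 := sub v156 v144; ok v157 && (
  isPos 3 v157 && (
  let v158 := cst ⟨L1, 0, 0, 0⟩; ok v158 && (
  let v159 := sub v158 v136; ok v159 && (
  isPos 3 v159 && (
  let v160 := scale ⟨dq, 0, 0, 0⟩ v142; ok v160 && (
  let v161 := scale ⟨ex0, 0, 0, 0⟩ v136; ok v161 && (
  let v162 := sub v160 v161; ok v162 && (
  isPos 3 v162 && (
  let v163 := sub v0 v140; ok v163 && (
  let v164 := scale ⟨La1, 0, 0, 0⟩ v163; ok v164 && (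
  let v165 := sub v164 v146; ok v165 && (
  let v166 := sub v165 v136; ok v166 && (
  isPos 3 v166 && (
  let v167 := neg v130; ok v167 && (
  let v168 := cst ⟨10994319360, 0, 0, 0⟩; ok v168 && (
  let v169 := add v167 v168; ok v169 && (
  isPos 3 v169 && (
  let v170 := neg v109; ok v170 && (
  let v171 := cst ⟨36649828352, 0, 0, 0⟩; ok v171 && (
  let v172 := add v170 v171; ok v172 && (
  isPos 3 v172 && (
  let v173 := neg v117; ok v173 && (
  let v174 := cst ⟨21989687296, 0, 0, 0⟩; ok v174 && (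
  let v175 := add v173 v174; ok v175 && (
  isPos 3 v175 && (
  let v176 := mul v137 v1; ok v176 && (
  let v177 := neg v176; ok v177 && (
  let v178 := cst ⟨5496635392, 0, 0, 0⟩; ok v178 && (
  let v179 := add v177 v178; ok v179 && (
  isPos 3 v179 && (
  let v180 := neg v137; ok v180 && (
  let v181 := cst ⟨Yd, 0, 0, 0⟩; ok v181 && (
  let v182 := add v180 v181; ok v182 && (
  isPos 3 v182 && (
  let v183 := mul v19 v141; ok v183 && (
  let v184 := scale ⟨Ld, 0, 0, 0⟩ v183; ok v184 && (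
  let v185 := scale ⟨1085552984064, 0, 0, 0⟩ v141; ok v185 && (
  let v186 := mul v19 v185; ok v186 && (
  let v187 := mul v15 v15; ok v187 && (
  let v188 := sub v186 v187; ok v188 && (
  isPos 3 v188 && (
  let v189 := mul v12 v143; ok v189 && (
  let v190 := sub v17 v189; ok v190 && (
  isPos 3 v190 && (
  let v191 := sub v14 v137; ok v191 && (
  isPos 3 v191 && (
  let v192 := inv v185; ok v192 && (
  let v193 := scale ⟨549755813888, 0, 0, 0⟩ v192; ok v193 && (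
  let v194 := cst ⟨549755813888, 0, 0, 0⟩; ok v194 && (
  let v195 := add v193 v194; ok v195 && (
  let v196 := scale ⟨o1, 0, 0, 0⟩ v195; ok v196 && (
  let v197 := scale ⟨p1, p1_m, 0, 0⟩ v12; ok v197 && (
  let v198 := add v196 v197; ok v198 && (
  isPos 3 v198 && (
  let v199 := mul v198 u0; ok v199 && (
  let v200 := mul v199 v9; ok v200 && (
  let v201 := mul v12 v198; ok v201 && (
  let v202 := add v19 v201; ok v202 && (
  let v203 := mul v136 v202; ok v203 && (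
  let v204 := mul u0 v198; ok v204 && (
  let v205 := add v20 v204; ok v205 && (
  let v206 := mul v136 v205; ok v206 && (
  let v207 := scale ⟨2199023255552, 0, 0, 0⟩ v137; ok v207 && (
  let v208 := add v39 v207; ok v208 && (
  let v209 := mul v208 v200; ok v209 && (
  let v210 := sub v45 v209; ok v210 && (
  let v211 := scale ⟨2199023255552, 0, 0, 0⟩ v200; ok v211 && (
  let v212 := add v48 v211; ok v212 && (
  let v213 := mul v212 v184; ok v213 && (
  let v214 := sub v210 v213; ok v214 && (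
  let v215 := mul v212 v19; ok v215 && (
  let v216 := scale ⟨12094627905536, 0, 0, 0⟩ v215; ok v216 && (
  let v217 := sub v214 v216; ok v217 && (
  isPos 3 v217 && (
  let v218 := mul v214 v184; ok v218 && (
  let v219 := neg v218; ok v219 && (
  let v220 := exp v219; ok v220 && (
  let v221 := scale ⟨549755813888, 0, 0, 0⟩ v203; ok v221 && (
  let v222 := sub v0 v221; ok v222 && (
  isPos 3 v222 && (
  let v223 := inv v222; ok v223 && (
  let v224 := add v221 v0; ok v224 && (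
  let v225 := mul v224 v223; ok v225 && (
  let v226 := mul v206 v223; ok v226 && (
  let v227 := scale ⟨274877906944, 0, 0, 0⟩ u1; ok v227 && (
  let v228 := add v227 v0; ok v228 && (
  let v229 := mul v226 v228; ok v229 && (
  let v230 := scale ⟨a1, 0, 0, 0⟩ v220; ok v230 && (
  let v231 := mul v225 v230; ok v231 && (
  let v232 := add v30 v136; ok v232 && (
  let v233 := mul v20 v232; ok v233 && (
  let v234 := add v233 v0; ok v234 && (
  let v235 := mul v231 v234; ok v235 && (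
  let v236 := add v229 v235; ok v236 && (
  let v237 := neg v236; ok v237 && (
  let v238 := cst ⟨tha, 0, 0, 0⟩; ok v238 && (
  let v239 := add v237 v238; ok v239 && (
  isPos 3 v239 && (
  true)))))))))))))))))))))))))))))))))))))))))))))))))))))))))))))))))))))))))))))))))))))))))))))))))))))))))))))))))))))))))))))))))))))))))))))))))))))))))))))))))))))))))))))))))))))))))))))))))))))))))))))))))))))))))))))))))))))))))))))))))))))))))))))))))))))))))))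
  | _, _ => false

theorem chk_eq (O : Ops) : ∀ (r : Row) (m : List O.α),
    chk O.cst O.add O.sub O.mul O.scale O.neg O.inv O.exp O.log O.ok O.isPos O.isLt r m = true → runG O 3 (common r) m = true
  | ⟨_, _, _, _, _, _, _, _, _, _, _, _, _, _, _, _, _, _, _, _, _⟩, [_, _, _], h => h

def chkF : Row → List Pool.Agent.helper14.QF.opsF.α → Bool :=
  chk Pool.Agent.helper14.QF.opsF.cst Pool.Agent.helper14.QF.opsF.add Pool.Agent.helper14.QF.opsF.sub Pool.Agent.helper14.QF.opsF.mul Pool.Agent.helper14.QF.opsF.scale Pool.Agent.helper14.QF.opsF.neg Pool.Agent.helper14.QF.opsF.inv Pool.Agent.helper14.QF.opsF.exp Pool.Agent.helper14.QF.opsF.log Pool.Agent.helper14.QF.opsF.ok Pool.Agent.helper14.QF.opsF.isPos Pool.Agent.helper14.QF.opsF.isLt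

theorem chkF_eq : ∀ (r : Row) (m : List Pool.Agent.helper14.QF.opsF.α), chkF r m = true →
    runG Pool.Agent.helper14.QF.opsF 3 (common r) m = true := chk_eq Pool.Agent.helper14.QF.opsF

theorem common_real (r : Row) : (common r).all Pool.Agent.helper71.FF.rOK = true := rfl

end Pool.Agent.helper31.A2.Cert.LPP
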